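import Pool.Agent.Lib.TWT.TR1
import Pool.Agent.Lib.TW.H6
import Pool.Agent.Lib.LU1_h15.Reg

/-!
# TANK W, GWT: the dimension of a local ring with residue field `k` is the transcendence degree
-/

set_option autoImplicit false

namespace Pool.Agent.TW

open Pool.Agent.H15JM (RVal)
open Pool.Agent.LU1 (VPos)
open Pool.Agent.LUC (lv adj le_lv QuoIs)
open Pool.Agent.D2 (Ctx0)

universe u

/-- The dimension of an integral extension. -/
theorem dim_le_of_integral {R A : Type*} [CommRing R] [CommRing A] [Algebra R A]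
    [Algebra.IsIntegral R A] : ringKrullDim A ≤ ringKrullDim R :=
  Order.krullDim_le_of_strictMono
    (fun I : PrimeSpectrum A => (⟨I.asIdeal.comap (algebraMap R A), inferInstance⟩ :
      PrimeSpectrum R)) fun {I J} hIJ => by
      have h1 : I.asIdeal < J.asIdeal := hIJ
      exact Ideal.IsIntegral.comap_lt_comap h1

/-- Maximal ideals of a finitely generated domain have height the transcendence degree. -/
theorem height_eq {k A Ω : Type u} [Field k] [CommRing A] [IsDomain A] [Algebra k A]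
    [Algebra.FiniteType k A] [Field Ω] [Algebra k Ω] [Algebra A Ω] [IsScalarTower k A Ω]
    [FaithfulSMul A Ω] [Algebra.IsAlgebraic A Ω] :
    ∃ n : ℕ, Algebra.trdeg k Ω = n ∧ ∀ (P : Ideal A) (_ : P.IsMaximal), P.height = n := by
  obtain ⟨s, g, hinj, hint⟩ := exists_integral_inj_algHom_of_fg k A
  let _ : Algebra (MvPolynomial (Fin s) k) A := g.toRingHom.toAlgebra
  have h1 : Algebra.IsIntegral (MvPolynomial (Fin s) k) A := ⟨hint⟩
  let _ : Algebra (MvPolynomial (Fin s) k) Ω :=
    ((algebraMap A Ω).comp (algebraMap (MvPolynomial (Fin s) k) A)).toAlgebra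
  have h7 : IsScalarTower (MvPolynomial (Fin s) k) A Ω := IsScalarTower.of_algebraMap_eq fun _ => rfl
  have h8 : IsScalarTower k (MvPolynomial (Fin s) k) Ω := by
    refine IsScalarTower.of_algebraMap_eq fun c => ?_
    change algebraMap k Ω c = algebraMap A Ω (g (algebraMap k _ c))
    rw [g.commutes, ← IsScalarTower.algebraMap_apply k A Ω]
  have h9 : FaithfulSMul (MvPolynomial (Fin s) k) Ω := by
    rw [faithfulSMul_iff_algebraMap_injective]
    exact (FaithfulSMul.algebraMap_injective A Ω).comp hinj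
  have h10 : Algebra.IsAlgebraic (MvPolynomial (Fin s) k) Ω :=
    Algebra.IsAlgebraic.trans (MvPolynomial (Fin s) k) A Ω
  have h11 : Algebra.trdeg k (MvPolynomial (Fin s) k) +
      Algebra.trdeg (MvPolynomial (Fin s) k) Ω = Algebra.trdeg k Ω :=
    trdeg_add_eq k (MvPolynomial (Fin s) k)
  have h0 : Algebra.trdeg (MvPolynomial (Fin s) k) Ω = 0 := trdeg_eq_zero
  rw [h0, MvPolynomial.trdeg_of_isDomain] at h11
  have h12 : Algebra.trdeg k Ω = s := by
    rw [← h11]
    simp only [Cardinal.mk_fin, Cardinal.lift_natCast, add_zero]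
  refine ⟨s, h12, fun P hP => le_antisymm ?_ (LU1.RegAux.le_height s h12 P hP)⟩
  have h2 : (P.height : WithBot ℕ∞) ≤ ringKrullDim A :=
    Ideal.height_le_ringKrullDim_of_ne_top hP.ne_top
  have h3 : ringKrullDim A ≤ ringKrullDim (MvPolynomial (Fin s) k) := dim_le_of_integral
  rw [MvPolynomial.ringKrullDim_of_isNoetherianRing, ringKrullDim_eq_zero_of_field, zero_add,
    Nat.card_eq_fintype_card, Fintype.card_fin] at h3
  exact_mod_cast h2.trans h3

section

variable {k Ω : Type u} [Field k] [Field Ω] [Algebra k Ω] {v : RVal Ω}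

/-- The dimension of the local ring at the centre is the transcendence degree. -/
theorem dim_eq_trdeg (h : Ctx0 k v) (F : Finset Ω) (hF : ∀ f ∈ F, v.Ge 0 f)
    {E : IntermediateField k Ω}
    (hQ : QuoIs (adj (algebraMap k Ω).range (F : Set Ω)) E.toSubfield) :
    ∃ m : ℕ, Algebra.trdeg k E = m ∧
      ringKrullDim (lv v (adj (algebraMap k Ω).range (F : Set Ω))) = m := by
  obtain ⟨A, hA⟩ : ∃ A : Subalgebra k Ω, A = Algebra.adjoin k (F : Set Ω) := ⟨_, rfl⟩
  have hS : A.toSubring = adj (algebraMap k Ω).range (F : Set Ω) := by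
    rw [hA, Algebra.adjoin_eq_ring_closure, adj]
    congr 2
  have hft : Algebra.FiniteType k A := by
    rw [hA]
    exact (Subalgebra.fg_iff_finiteType _).1 ⟨F, rfl⟩
  have hA0 : ∀ f ∈ A.toSubring, v.Ge 0 f := by
    rw [hS]
    refine LUC.adj_nonneg ?_ hF
    rintro _ ⟨c, rfl⟩
    exact h.ge c
  have hAE : ∀ a : A, (a : Ω) ∈ E := fun a => hQ.1 a (by rw [← hS]; exact a.2)
  let φ : A →+* E :=
    { toFun := fun a => ⟨a, hAE a⟩
      map_one' := rfl
      map_mul' := fun _ _ => rfl
      map_zero' := rfl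
      map_add' := fun _ _ => rfl }
  let _ : Algebra A E := φ.toAlgebra
  have htow : IsScalarTower k A E := IsScalarTower.of_algebraMap_eq fun _ => rfl
  have hinj : FaithfulSMul A E := by
    rw [faithfulSMul_iff_algebraMap_injective]
    intro a b hab
    exact Subtype.ext (congrArg (fun x : E => (x : Ω)) hab)
  have halg : Algebra.IsAlgebraic A E := by
    constructor
    intro e
    obtain ⟨a, ha, b, hb, hb0, hab⟩ := hQ.2 e e.2
    rw [← hS] at ha hb
    refine ⟨Polynomial.C (⟨b, hb⟩ : A) * Polynomial.X - Polynomial.C (⟨a, ha⟩ : A), ?_, ?_⟩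
    · intro h0
      have h1 := congrArg (fun p : Polynomial A => ((p.coeff 1 : A) : Ω)) h0
      simp at h1
      exact hb0 h1
    · rw [map_sub, map_mul, Polynomial.aeval_C, Polynomial.aeval_C, Polynomial.aeval_X]
      apply Subtype.ext
      change b * (e : Ω) - a = 0
      rw [hab, mul_div_cancel₀ _ hb0, sub_self]
  obtain ⟨m, hm, hheight⟩ := height_eq (k := k) (A := A) (Ω := E)
  refine ⟨m, hm, ?_⟩
  rw [← hS, TWT.dim_lv v A.toSubring hA0]
  have hmax : (TWT.cen v A.toSubring hA0).IsMaximal := by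
    rw [Ideal.isMaximal_iff]
    refine ⟨fun h1 => ?_, fun J x hJ hx hxJ => ?_⟩
    · rw [TWT.mem_cen] at h1
      exact not_VPos_of_unit (v := v) one_ne_zero v.map_one h1
    · obtain ⟨c, hc⟩ := h.residue (hA0 x x.2)
      have hcA : ∀ c : k, algebraMap k Ω c ∈ A.toSubring := fun c => A.algebraMap_mem c
      have hxc : x - ⟨algebraMap k Ω c, hcA c⟩ ∈ TWT.cen v A.toSubring hA0 := hc
      have hc0 : c ≠ 0 := by
        rintro rfl
        rw [_root_.map_zero, sub_zero] at hc
        exact hx hc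
      have h2 : (⟨algebraMap k Ω c, hcA c⟩ : A.toSubring) ∈ J := by
        have h3 := J.sub_mem hxJ (hJ hxc)
        rwa [sub_sub_cancel] at h3
      have h4 := J.mul_mem_left (⟨algebraMap k Ω c⁻¹, hcA c⁻¹⟩ : A.toSubring) h2
      have h5 : (⟨algebraMap k Ω c⁻¹, hcA c⁻¹⟩ : A.toSubring) * ⟨algebraMap k Ω c, hcA c⟩ = 1 := by
        apply Subtype.ext
        change algebraMap k Ω c⁻¹ * algebraMap k Ω c = 1
        rw [← _root_.map_mul, inv_mul_cancel₀ hc0, _root_.map_one]
      rwa [h5] at h4
  have h6 := hheight (TWT.cen v A.toSubring hA0) hmax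
  exact_mod_cast congrArg (fun x : ℕ∞ => (x : WithBot ℕ∞)) h6

end

end Pool.Agent.TW
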