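import Pool.Agent.Lib.TW.H5
import Pool.Agent.Lib.TW.H5e
import Pool.Agent.Lib.TW.H6
import Pool.Agent.Lib.TW.E8a

/-!
# TANK W, GWT: flatness of the henselization of a normal ring, in coordinates
-/

set_option autoImplicit false

open Polynomial

namespace Pool.Agent.TW

open Pool.Agent.H15JM (RVal)
open Pool.Agent.LU1 (VPos)
open Pool.Agent.LUC (lv adj le_lv mem_lv lv_mono lv_le lv_inv lv_nonneg lv_lv base_le_adj mem_adj)
open Pool.Agent.D2 (Ctx0)

universe u

section

variable {Ω : Type u} [Field Ω] {v : RVal Ω}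

/-- Finitely many elements of the henselization are quotients of elements of `R[θ]` with the same
denominator of value zero. -/
theorem exists_common {R : Subring Ω} (hR : ∀ a ∈ R, v.Ge 0 a) (s : Finset Ω)
    (hs : ∀ f ∈ s, f ∈ hensA v R) :
    ∃ (g : Polynomial R) (θ : Ω), g.Monic ∧ v.Ge 0 θ ∧ aeval θ g = 0 ∧
      aeval θ (derivative g) ≠ 0 ∧ v (aeval θ (derivative g)) = 0 ∧
      ∃ Q : Polynomial R, aeval θ Q ≠ 0 ∧ v (aeval θ Q) = 0 ∧
        ∀ f ∈ s, ∃ P : Polynomial R, f = aeval θ P / aeval θ Q := by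
  classical
  obtain ⟨C, hC, hsC⟩ := finite_etIm (hA := hR) s fun f hf => by
    rw [← hensA_eq_etIm hR]
    exact hs f hf
  obtain ⟨S, _, _, _, φ, hφ, hCφ⟩ := hC
  obtain ⟨g, θ, h1, h2, h3, h4, h5, h6⟩ := exists_root φ hφ
  have h7 : ∀ f : Ω, ∃ P Q : Polynomial R, f ∈ s → aeval θ Q ≠ 0 ∧ v (aeval θ Q) = 0 ∧
      f = aeval θ P / aeval θ Q := by
    intro f
    by_cases hf : f ∈ s
    · obtain ⟨x, hx⟩ := (hCφ f).1 (hsC f hf)
      obtain ⟨P, Q, hPQ⟩ := h6 x
      rw [hx] at hPQ
      exact ⟨P, Q, fun _ => hPQ⟩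
    · exact ⟨0, 0, fun h => absurd h hf⟩
  choose P Q hPQ using h7
  have hQ0 : ∀ f ∈ s, aeval θ (Q f) ≠ 0 := fun f hf => (hPQ f hf).1
  refine ⟨g, θ, h1, h2, h3, h4, h5, ∏ f ∈ s, Q f, ?_, ?_, ?_⟩
  · rw [map_prod]
    exact Finset.prod_ne_zero_iff.2 hQ0
  · rw [map_prod, v.map_prod _ _ hQ0]
    exact Finset.sum_eq_zero fun f hf => (hPQ f hf).2.1
  · intro f hf
    refine ⟨P f * ∏ f' ∈ s.erase f, Q f', ?_⟩
    have h8 : aeval θ (∏ f' ∈ s.erase f, Q f') ≠ 0 := by
      rw [map_prod]
      exact Finset.prod_ne_zero_iff.2 fun f' hf' => hQ0 f' (Finset.mem_of_mem_erase hf')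
    rw [← Finset.mul_prod_erase s Q hf, map_mul, map_mul, mul_div_mul_right _ _ h8]
    exact (hPQ f hf).2.2

theorem aeval_mem {R B : Subring Ω} (h : R ≤ B) {θ : Ω} (hθ : θ ∈ B) (P : Polynomial R) :
    aeval θ P ∈ B := by
  rw [aeval_eq_sum_range]
  refine B.sum_mem fun i _ => ?_
  rw [Algebra.smul_def]
  exact B.mul_mem (h (P.coeff i).2) (B.pow_mem hθ i)

/-- The root of `exists_common` is in the henselization. -/
theorem root_mem_hensA {R : Subring Ω} (hR : ∀ a ∈ R, v.Ge 0 a) {g : Polynomial R} {θ : Ω}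
    (h0 : v.Ge 0 θ) (h1 : aeval θ g = 0) (h2 : aeval θ (derivative g) ≠ 0)
    (h3 : v (aeval θ (derivative g)) = 0) : θ ∈ hensA v R := by
  have hB := hclosed_hensA hR
  refine hB.root (g.map (algebraMap R Ω)) θ (fun i => ?_) h0 ?_ ?_ ?_
  · rw [coeff_map]
    exact le_hensA R (g.coeff i).2
  · rw [eval_map_algebraMap]
    exact h1
  · rw [derivative_map, eval_map_algebraMap]
    exact h2
  · rw [derivative_map, eval_map_algebraMap]
    exact h3

/-- **Flatness of the henselization of a normal ring.** -/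
theorem flat_hensA {R : Subring Ω} (hR : ∀ a ∈ R, v.Ge 0 a) (hN : Nor R) {ι : Type*}
    [Finite ι] (x e : ι → Ω) (hx : ∀ j, x j ∈ hensA v R) (he : ∀ j, InFrac R (e j)) :
    ∃ (d : ℕ) (b : Fin d → Ω) (r : ι → Fin d → Ω), (∀ l, b l ∈ hensA v R) ∧
      (∀ j l, r j l ∈ R) ∧ (∀ j, x j = ∑ l, b l * r j l) ∧
      ∀ (_ : Fintype ι), ∑ j, x j * e j = 0 → ∀ l, ∑ j, r j l * e j = 0 := by
  classical
  have hfin : Fintype ι := Fintype.ofFinite ι
  have := isIntegrallyClosed_of hN
  obtain ⟨g, θ, hg, hθ, h1, h2, h3, Q, hQ0, hQv, hP⟩ := exists_common hR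
    (Finset.univ.image x) (by
      intro f hf
      obtain ⟨j, -, rfl⟩ := Finset.mem_image.1 hf
      exact hx j)
  choose P hP using fun j => hP (x j) (Finset.mem_image_of_mem _ (Finset.mem_univ j))
  have hθm := root_mem_hensA hR hθ h1 h2 h3
  have hB := hclosed_hensA hR
  have hint : IsIntegral R θ := ⟨g, hg, h1⟩
  obtain ⟨μ, hμ⟩ : ∃ μ : Polynomial R, μ = minpoly R θ := ⟨_, rfl⟩
  have hμm : μ.Monic := by rw [hμ]; exact minpoly.monic hint
  have hμ0 : aeval θ μ = 0 := by rw [hμ]; exact minpoly.aeval R θ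
  have hred : ∀ p : Polynomial R, aeval θ (p %ₘ μ) = aeval θ p := by
    intro p
    have h := congrArg (aeval θ) (modByMonic_add_div p μ)
    rw [map_add, map_mul, hμ0, zero_mul, add_zero] at h
    exact h
  have hsum : ∀ p : Polynomial R, aeval θ p = ∑ l : Fin μ.natDegree,
      θ ^ (l : ℕ) * ((p %ₘ μ).coeff l : Ω) := by
    intro p
    rw [← hred p]
    have hdeg : (p %ₘ μ).natDegree < μ.natDegree ∨ μ.natDegree = 0 := by
      rcases Nat.eq_zero_or_pos μ.natDegree with h | h
      · exact Or.inr h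
      · exact Or.inl (natDegree_modByMonic_lt p hμm (by rintro rfl; simp at h))
    rcases hdeg with hdeg | hdeg
    · rw [aeval_eq_sum_range' hdeg, Finset.sum_range]
      refine Finset.sum_congr rfl fun l _ => ?_
      rw [Algebra.smul_def, mul_comm]
      rfl
    · have hμ1 : μ = 1 := eq_one_of_monic_natDegree_zero hμm hdeg
      rw [hμ1, map_one] at hμ0
      exact absurd hμ0 one_ne_zero
  refine ⟨μ.natDegree, fun l => θ ^ (l : ℕ) / aeval θ Q, fun j l => ((P j %ₘ μ).coeff l : Ω),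
    fun l => ?_, fun j l => Subtype.coe_prop _, fun j => ?_, ?_⟩
  · change θ ^ (l : ℕ) / aeval θ Q ∈ hensA v R
    rw [div_eq_mul_inv]
    exact mul_mem (pow_mem hθm _) (hB.inv _ (aeval_mem (le_hensA R) hθm Q) hQ0 hQv)
  · rw [hP j, hsum (P j), Finset.sum_div]
    exact Finset.sum_congr rfl fun l _ => by ring
  · intro hF h0 l
    -- a common denominator
    choose a ha b hb hb0 hab using he
    obtain ⟨β, hβ⟩ : ∃ β : Ω, β = ∏ j, b j := ⟨_, rfl⟩
    have hβ0 : β ≠ 0 := by rw [hβ]; exact Finset.prod_ne_zero_iff.2 fun j _ => hb0 j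
    have hβe : ∀ j, β * e j ∈ R := by
      intro j
      have h4 : β * e j = (∏ i ∈ Finset.univ.erase j, b i) * a j := by
        rw [hβ, ← Finset.mul_prod_erase _ _ (Finset.mem_univ j), hab j]
        field_simp [hb0 j]
      rw [h4]
      exact R.mul_mem (R.prod_mem fun i _ => hb i) (ha j)
    let c : ι → R := fun j => ⟨β * e j, hβe j⟩
    have hC0 : aeval θ (∑ j, C (c j) * (P j %ₘ μ)) = 0 := by
      rw [map_sum]
      have h4 : ∀ j, aeval θ (C (c j) * (P j %ₘ μ)) = (β * aeval θ Q) * (x j * e j) := by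
        intro j
        rw [map_mul, aeval_C, hred, hP j]
        change β * e j * _ = _
        field_simp
      rw [Finset.sum_congr rfl fun j _ => h4 j, ← Finset.mul_sum, h0, mul_zero]
    have hdvd := minpoly.isIntegrallyClosed_dvd hint hC0
    rw [← hμ] at hdvd
    have hlt : (∑ j, C (c j) * (P j %ₘ μ)).degree < μ.degree := by
      refine (degree_sum_le _ _).trans_lt ?_
      rw [Finset.sup_lt_iff (bot_lt_iff_ne_bot.2 (by
        rw [Ne, degree_eq_bot]
        exact hμm.ne_zero))]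
      intro j _
      refine (degree_mul_le _ _).trans_lt ?_
      exact (add_le_of_nonpos_left degree_C_le).trans_lt (degree_modByMonic_lt _ hμm)
    have hz := eq_zero_of_dvd_of_degree_lt hdvd hlt
    have h5 := congrArg (fun p : Polynomial R => ((p.coeff l : R) : Ω)) hz
    simp only [finsetSum_coeff, coeff_C_mul, coeff_zero] at h5
    have h6 : β * ∑ j, ((P j %ₘ μ).coeff l : Ω) * e j = 0 := by
      rw [Finset.mul_sum]
      have h7 : (((∑ j, c j * (P j %ₘ μ).coeff l : R)) : Ω) = 0 := h5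
      rw [← h7, AddSubmonoidClass.coe_finsetSum]
      refine Finset.sum_congr rfl fun j _ => ?_
      change _ = β * e j * _
      ring
    exact (mul_eq_zero.1 h6).resolve_left hβ0

/-- The elements of `B[F]` are combinations of elements of `R[F]` with coefficients in `B`. -/
theorem mem_span_adj {R B : Subring Ω} (F : Set Ω) {x : Ω} (hx : x ∈ adj B F) :
    x ∈ Submodule.span B (adj R F : Set Ω) := by
  have hone : ∀ b ∈ B, b ∈ Submodule.span B (adj R F : Set Ω) := by
    intro b hb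
    have h1 : b = (⟨b, hb⟩ : B) • (1 : Ω) := by
      rw [Algebra.smul_def, mul_one]
      rfl
    rw [h1]
    exact Submodule.smul_mem _ _ (Submodule.subset_span (adj R F).one_mem)
  refine LUC.adj_induction (p := fun x => x ∈ Submodule.span B (adj R F : Set Ω)) hone
    (fun f hf => Submodule.subset_span (mem_adj hf)) (fun _ _ => add_mem) ?_ hx
  intro f g hf hg
  have h1 := Submodule.mul_mem_mul hf hg
  rw [Submodule.span_mul_span] at h1
  refine Submodule.span_mono ?_ h1
  rintro _ ⟨a, ha, b, hb, rfl⟩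
  exact mul_mem ha hb

/-- Flatness, for families in `Rh[F]`. -/
theorem flat_adj {R : Subring Ω} (hR : ∀ a ∈ R, v.Ge 0 a) (hN : Nor R) {F : Set Ω}
    (hF : ∀ f ∈ F, InFrac R f) {ι : Type*} [Fintype ι] (x e : ι → Ω)
    (hx : ∀ j, x j ∈ adj (hensA v R) F) (he : ∀ j, InFrac R (e j)) (h0 : ∑ j, x j * e j = 0) :
    ∃ (d : ℕ) (b : Fin d → Ω) (r : ι → Fin d → Ω), (∀ l, b l ∈ hensA v R) ∧
      (∀ j l, r j l ∈ adj R F) ∧ (∀ j, x j = ∑ l, b l * r j l) ∧
      ∀ l, ∑ j, r j l * e j = 0 := by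
  classical
  have h1 := fun j => Submodule.mem_span_set'.1 (mem_span_adj (R := R) F (hx j))
  choose m a c hac using h1
  have hadj : ∀ y ∈ adj R F, InFrac R y := fun y hy =>
    LUC.adj_le (R := R) (B := (fracF R).toSubring) (fun f hf => le_fracF hf) hF hy
  have hac' : ∀ j, x j = ∑ i, (a j i : Ω) * (c j i : Ω) := by
    intro j
    rw [← hac j]
    exact Finset.sum_congr rfl fun i _ => Algebra.smul_def _ _
  obtain ⟨d, b, r, hb, hr, hxr, hflat⟩ := flat_hensA hR hN
    (fun p : Σ j, Fin (m j) => (a p.1 p.2 : Ω)) (fun p => (c p.1 p.2 : Ω) * e p.1)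
    (fun p => (a p.1 p.2).2) (fun p => (fracF R).mul_mem (hadj _ (c p.1 p.2).2) (he p.1))
  refine ⟨d, b, fun j l => ∑ i, r ⟨j, i⟩ l * (c j i : Ω), hb, fun j l => ?_, fun j => ?_,
    fun l => ?_⟩
  · exact sum_mem fun i _ => mul_mem (base_le_adj R F (hr _ _)) (c j i).2
  · rw [hac' j]
    simp only [Finset.mul_sum]
    rw [Finset.sum_comm]
    refine Finset.sum_congr rfl fun i _ => ?_
    rw [hxr ⟨j, i⟩, Finset.sum_mul]
    exact Finset.sum_congr rfl fun l _ => by ring
  · have h2 := hflat inferInstance (by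
      rw [Fintype.sum_sigma]
      rw [← h0]
      refine Finset.sum_congr rfl fun j _ => ?_
      rw [hac' j, Finset.sum_mul]
      exact Finset.sum_congr rfl fun i _ => by ring) l
    rw [Fintype.sum_sigma] at h2
    rw [← h2]
    refine Finset.sum_congr rfl fun j _ => ?_
    rw [Finset.sum_mul]
    exact Finset.sum_congr rfl fun i _ => by ring

/-- A common denominator of value zero. -/
theorem lv_den {B : Subring Ω} {ι : Type*} (s : Finset ι) (a : ι → Ω)
    (ha : ∀ i ∈ s, a i ∈ lv v B) : ∃ c ∈ B, c ≠ 0 ∧ v c = 0 ∧ ∀ i ∈ s, c * a i ∈ B := by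
  classical
  induction s using Finset.induction_on with
  | empty =>
    exact ⟨1, B.one_mem, one_ne_zero, v.map_one, fun i hi => absurd hi (Finset.notMem_empty i)⟩
  | insert j s hj ih =>
    obtain ⟨c, hc, hc0, hcv, h1⟩ := ih fun i hi => ha i (Finset.mem_insert_of_mem hi)
    obtain ⟨p, hp, q, hq, hq0, hqv, h2⟩ := ha j (Finset.mem_insert_self j s)
    refine ⟨c * q, B.mul_mem hc hq, mul_ne_zero hc0 hq0, by
      rw [v.map_mul hc0 hq0, hcv, hqv, add_zero], fun i hi => ?_⟩
    rcases Finset.mem_insert.1 hi with rfl | hi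
    · have : c * q * a i = c * p := by rw [h2]; field_simp
      rw [this]
      exact B.mul_mem hc hp
    · have : c * q * a i = q * (c * a i) := by ring
      rw [this]
      exact B.mul_mem hq (h1 i hi)

/-- **Descent.** A combination over the chart of the henselization is one over the chart. -/
theorem descent {R : Subring Ω} (hR : ∀ a ∈ R, v.Ge 0 a) (hN : Nor R) {F : Set Ω}
    (hF : ∀ f ∈ F, InFrac R f) (hF0 : ∀ f ∈ F, v.Ge 0 f) {n : ℕ} {z a : Fin n → Ω} {f : Ω}
    (hz : ∀ i, InFrac R (z i)) (hf : InFrac R f)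
    (ha : ∀ i, a i ∈ lv v (adj (hensA v R) F)) (hfa : f = ∑ i, a i * z i) :
    ∃ b : Fin n → Ω, (∀ i, b i ∈ lv v (adj R F)) ∧ f = ∑ i, b i * z i := by
  classical
  have hRh := (hclosed_hensA hR).nonneg
  have hg0 : ∀ y ∈ adj R F, v.Ge 0 y := LUC.adj_nonneg hR hF0
  obtain ⟨c, hc, hc0, hcv, hca⟩ := lv_den Finset.univ a fun i _ => ha i
  obtain ⟨d, b, r, hb, hr, hxr, hflat⟩ := flat_adj hR hN hF (ι := Option (Fin n))
    (fun o => o.elim c fun i => c * a i) (fun o => o.elim f fun i => - z i)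
    (fun o => by
      cases o with
      | none => exact hc
      | some i => exact hca i (Finset.mem_univ i))
    (fun o => by
      cases o with
      | none => exact hf
      | some i => exact (fracF R).neg_mem (hz i))
    (by
      rw [Fintype.sum_option]
      simp only [Option.elim_none, Option.elim_some]
      rw [hfa, Finset.mul_sum, ← Finset.sum_add_distrib]
      exact Finset.sum_eq_zero fun i _ => by ring)
  have h1 : ∃ l, ¬ VPos v (r none l) := by
    by_contra hcon
    push Not at hcon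
    refine not_VPos_of_unit hc0 hcv ?_
    have h2 := hxr none
    simp only [Option.elim_none] at h2
    rw [h2]
    exact Finset.sum_induction _ (VPos v) (fun _ _ h h' => h.add h') LU1.VPos.zero
      fun l _ => LU1.VPos.mul' (hRh _ (hb l)) (hcon l)
  obtain ⟨l, hl⟩ := h1
  obtain ⟨hr0, hrv⟩ := unit_of_not_VPos (hg0 _ (hr none l)) hl
  refine ⟨fun i => r (some i) l / r none l, fun i => ⟨_, hr _ _, _, hr _ _, hr0, hrv, rfl⟩, ?_⟩
  have h3 := hflat l
  rw [Fintype.sum_option] at h3
  simp only [Option.elim_none, Option.elim_some] at h3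
  have h4 : f * r none l = ∑ i, r (some i) l * z i := by
    have h5 : ∑ i, r (some i) l * -z i = -∑ i, r (some i) l * z i := by
      rw [← Finset.sum_neg_distrib]
      exact Finset.sum_congr rfl fun i _ => by ring
    rw [h5] at h3
    linear_combination h3
  have h6 : ∑ i, r (some i) l / r none l * z i = (∑ i, r (some i) l * z i) / r none l := by
    rw [Finset.sum_div]
    exact Finset.sum_congr rfl fun i _ => by ring
  rw [h6, ← h4, mul_div_cancel_right₀ _ hr0]

/-- A quotient of elements of `R` in the chart of the henselization is in the chart. -/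
theorem descent_mem {R : Subring Ω} (hR : ∀ a ∈ R, v.Ge 0 a) (hN : Nor R) {F : Set Ω}
    (hF : ∀ f ∈ F, InFrac R f) (hF0 : ∀ f ∈ F, v.Ge 0 f) {f : Ω} (hf : InFrac R f)
    (hfO : f ∈ lv v (adj (hensA v R) F)) : f ∈ lv v (adj R F) := by
  obtain ⟨b, hb, hfb⟩ := descent hR hN hF hF0 (n := 1) (z := fun _ => 1) (a := fun _ => f)
    (fun _ => (fracF R).one_mem) hf (fun _ => hfO) (by simp)
  rw [hfb]
  simpa using hb 0

end

end Pool.Agent.TW
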