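import Pool.Agent.Lib.TWG.G1
import Pool.Agent.Lib.LUC.Q1

/-!
# TANK W, GWT: the maximal ideal of the henselization; approximation; blowing ups of the henselization
-/

set_option autoImplicit false

open Polynomial

namespace Pool.Agent.TW

open Pool.Agent.H15JM (RVal)
open Pool.Agent.LU1 (VPos)
open Pool.Agent.LUC (lv adj le_lv mem_lv lv_mono lv_le lv_inv lv_nonneg lv_lv base_le_adj mem_adj
  IP Par SM idl lv_eq_of_le)
open Pool.Agent.D2 (Ctx0)

universe u

section

variable {k Ω : Type u} [Field k] [Field Ω] [Algebra k Ω] {v : RVal Ω}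

theorem polyIn_of_map {R B : Subring Ω} (h : R ≤ B) (P : Polynomial R) :
    P.map (algebraMap R Ω) ∈ PolyIn B := by
  rw [mem_PolyIn]
  intro i
  rw [coeff_map]
  exact h (P.coeff i).2

/-- Generators of the maximal ideal of `R` generate the maximal ideal of the henselization. -/
theorem hensA_gen (h : Ctx0 k v) {R : Subring Ω} (hR : ∀ a ∈ R, v.Ge 0 a)
    (hk : ∀ c : k, algebraMap k Ω c ∈ R) {q : ℕ} {s : Fin q → Ω} (hs : ∀ i, s i ∈ R)
    (hgen : ∀ f ∈ R, VPos v f → IP R s 1 f) :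
    ∀ f ∈ hensA v R, VPos v f → IP (hensA v R) s 1 f := by
  intro f hf hfv
  have hB := hclosed_hensA hR
  have hsub := le_hensA (v := v) R
  obtain ⟨g, θ, hg, hθ, h1, h2, h3, Q, hQ0, hQv, hP⟩ := exists_common hR {f} (by simpa using hf)
  obtain ⟨P, hP⟩ := hP f (Finset.mem_singleton_self f)
  have hθm := root_mem_hensA hR hθ h1 h2 h3
  obtain ⟨c, hc⟩ := h.residue hθ
  obtain ⟨y, hy⟩ : ∃ y : Ω, y = θ - algebraMap k Ω c := ⟨_, rfl⟩
  rw [← hy] at hc
  have hcR := hk c
  have hcB := hsub hcR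
  have hyB : y ∈ hensA v R := by rw [hy]; exact sub_mem hθm hcB
  have hθy : algebraMap k Ω c + y = θ := by rw [hy]; ring
  have hnn := hB.nonneg
  -- Taylor expansions
  obtain ⟨q₁, hq₁, e₁⟩ := taylor2 (polyIn_of_map hsub g) hcB hyB
  obtain ⟨q₂, hq₂, e₂⟩ := taylor2 (polyIn_of_map hsub (derivative g)) hcB hyB
  obtain ⟨q₃, hq₃, e₃⟩ := taylor2 (polyIn_of_map hsub P) hcB hyB
  have hev : ∀ (p : Polynomial R) (x : Ω), (p.map (algebraMap R Ω)).eval x = aeval x p := by
    intro p x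
    rw [eval_map_algebraMap]
  rw [derivative_map, hθy, hev, hev, hev] at e₁ e₂ e₃
  have hgR : aeval (algebraMap k Ω c) g ∈ R := aeval_mem le_rfl hcR g
  have hPR : aeval (algebraMap k Ω c) P ∈ R := aeval_mem le_rfl hcR P
  have hd1 : aeval (algebraMap k Ω c) (derivative g) ∈ hensA v R :=
    aeval_mem hsub hcB (derivative g)
  have hd2 : aeval (algebraMap k Ω c) (derivative (derivative g)) ∈ hensA v R :=
    aeval_mem hsub hcB _
  have hd3 : aeval (algebraMap k Ω c) (derivative P) ∈ hensA v R := aeval_mem hsub hcB _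
  rw [h1] at e₁
  -- the unit
  obtain ⟨w, hw⟩ : ∃ w : Ω, w = aeval (algebraMap k Ω c) (derivative g) + q₁ * y := ⟨_, rfl⟩
  have hwB : w ∈ hensA v R := by rw [hw]; exact add_mem hd1 (mul_mem hq₁ hyB)
  have hwn : ¬ VPos v w := by
    intro hcon
    refine not_VPos_of_unit h2 h3 ?_
    have e4 : aeval θ (derivative g) = w + (aeval (algebraMap k Ω c)
        (derivative (derivative g)) - q₁ + q₂ * y) * y := by
      rw [e₂, hw]
      ring
    rw [e4]
    exact hcon.add (LU1.VPos.mul' (hnn _ (add_mem (sub_mem hd2 hq₁) (mul_mem hq₂ hyB))) hc)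
  obtain ⟨hw0, hwv⟩ := unit_of_not_VPos (hnn _ hwB) hwn
  have hwi := hB.inv w hwB hw0 hwv
  have hgy : aeval (algebraMap k Ω c) g = -w * y := by
    rw [hw]
    linear_combination -e₁
  have hgv : VPos v (aeval (algebraMap k Ω c) g) := by
    rw [hgy]
    exact LU1.VPos.mul' (hnn _ (neg_mem hwB)) hc
  have hyI : IP (hensA v R) s 1 y := by
    have e5 : y = -w⁻¹ * aeval (algebraMap k Ω c) g := by
      rw [hgy]
      field_simp
    rw [e5]
    exact ((hgen _ hgR hgv).mono hsub fun i => hsub (hs i)).mul_left (neg_mem hwi)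
  have hPθ : aeval θ P = f * aeval θ Q := by
    rw [hP, div_mul_cancel₀ _ hQ0]
  have hQB : aeval θ Q ∈ hensA v R := aeval_mem hsub hθm Q
  have hPv : VPos v (aeval (algebraMap k Ω c) P) := by
    have e6 : aeval (algebraMap k Ω c) P = aeval θ Q * f -
        (aeval (algebraMap k Ω c) (derivative P) + q₃ * y) * y := by
      linear_combination -e₃ + hPθ
    rw [e6]
    exact (LU1.VPos.mul' (hnn _ hQB) hfv).sub
      (LU1.VPos.mul' (hnn _ (add_mem hd3 (mul_mem hq₃ hyB))) hc)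
  have e7 : f = (aeval θ Q)⁻¹ * (aeval (algebraMap k Ω c) P +
      (aeval (algebraMap k Ω c) (derivative P) + q₃ * y) * y) := by
    rw [hP]
    rw [e₃]
    field_simp
    ring
  rw [e7]
  exact (((hgen _ hPR hPv).mono hsub fun i => hsub (hs i)).add
    (hyI.mul_left (add_mem hd3 (mul_mem hq₃ hyB)))).mul_left (hB.inv _ hQB hQ0 hQv)

/-- `Rh = R + m_R^M Rh`. -/
theorem hensA_approx (h : Ctx0 k v) {R : Subring Ω} (hR : ∀ a ∈ R, v.Ge 0 a)
    (hk : ∀ c : k, algebraMap k Ω c ∈ R) {q : ℕ} {s : Fin q → Ω} (hs : ∀ i, s i ∈ R)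
    (hgen : ∀ f ∈ R, VPos v f → IP R s 1 f) (M : ℕ) :
    ∀ f ∈ hensA v R, ∃ f₀ ∈ R, IP (hensA v R) s M (f - f₀) := by
  refine IP.approx (le_hensA R) hs (fun f hf => ?_) M
  obtain ⟨c, hc⟩ := h.residue ((hclosed_hensA hR).nonneg f hf)
  exact ⟨_, hk c, hensA_gen h hR hk hs hgen _ (sub_mem hf (le_hensA R (hk c))) hc⟩

end

section

variable {Ω : Type u} [Field Ω] {v : RVal Ω}

/-- Approximation of the elements of `B[F]`. -/
theorem approx_adj {B L O : Subring Ω} (hLO : L ≤ O) {F : Set Ω} {P : Ω} (hP : P ∈ O)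
    (hB : ∀ f ∈ B, ∃ l ∈ L, ∃ o ∈ O, f = l + P * o) (hF : F ⊆ (L : Set Ω)) :
    ∀ f ∈ adj B F, ∃ l ∈ L, ∃ o ∈ O, f = l + P * o := by
  intro f hf
  refine LUC.adj_induction (p := fun f => ∃ l ∈ L, ∃ o ∈ O, f = l + P * o) hB ?_ ?_ ?_ hf
  · intro f hf
    exact ⟨f, hF hf, 0, O.zero_mem, by ring⟩
  · rintro f g ⟨l, hl, o, ho, rfl⟩ ⟨l', hl', o', ho', rfl⟩
    exact ⟨l + l', add_mem hl hl', o + o', add_mem ho ho', by ring⟩
  · rintro f g ⟨l, hl, o, ho, rfl⟩ ⟨l', hl', o', ho', rfl⟩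
    exact ⟨l * l', mul_mem hl hl', l * o' + o * l' + P * o * o',
      add_mem (add_mem (mul_mem (hLO hl) ho') (mul_mem ho (hLO hl')))
        (mul_mem (mul_mem hP ho) ho'), by ring⟩

/-- Approximation of the elements of `lv v D`. -/
theorem approx_lv {L D : Subring Ω} (hLO : L ≤ lv v D) (hD0 : ∀ f ∈ D, v.Ge 0 f)
    (hLi : ∀ f ∈ L, f ≠ 0 → v f = 0 → f⁻¹ ∈ L) {P : Ω} (hPv : VPos v P)
    (hD : ∀ f ∈ D, ∃ l ∈ L, ∃ o ∈ lv v D, f = l + P * o) :
    ∀ f ∈ lv v D, ∃ l ∈ L, ∃ o ∈ lv v D, f = l + P * o := by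
  have hO0 := lv_nonneg (w := v) hD0
  rintro f ⟨a, ha, b, hb, hb0, hbv, rfl⟩
  obtain ⟨l, hl, o, ho, hal⟩ := hD a ha
  obtain ⟨l', hl', o', ho', hbl⟩ := hD b hb
  have hl'n : ¬ VPos v l' := by
    intro hcon
    refine not_VPos_of_unit hb0 hbv ?_
    rw [hbl]
    exact hcon.add (hPv.mul (hO0 _ ho'))
  obtain ⟨hl0, hlv⟩ := unit_of_not_VPos (hO0 _ (hLO hl')) hl'n
  have hli := hLi l' hl' hl0 hlv
  have hbi : b⁻¹ ∈ lv v D := lv_inv (le_lv v D hb) hb0 hbv
  refine ⟨l * l'⁻¹, mul_mem hl hli, l'⁻¹ * o - a * b⁻¹ * l'⁻¹ * o',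
    sub_mem (mul_mem (hLO hli) ho) (mul_mem (mul_mem (mul_mem (le_lv v D ha) hbi) (hLO hli)) ho'),
    ?_⟩
  have e : a * l' = b * (l + P * o) - P * (a * o') := by
    rw [← hal]
    have : b * a = a * (l' + P * o') := by rw [← hbl]; ring
    linear_combination -this
  rw [div_eq_iff hb0]
  have e2 : a = (a * l') * l'⁻¹ := by field_simp
  conv_lhs => rw [e2, e]
  field_simp
  ring

/-- Quotients of elements of an ideal. -/
theorem span_div {B : Subring Ω} {ι : Type*} {y : ι → Ω} {g : Ω} {x : Ω}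
    (hx : x ∈ Submodule.span B (Set.range y)) :
    x / g ∈ adj B (Set.range fun i => y i / g) := by
  induction hx using Submodule.span_induction with
  | mem x hx =>
    obtain ⟨i, rfl⟩ := hx
    exact mem_adj ⟨i, rfl⟩
  | zero => rw [zero_div]; exact zero_mem _
  | add x y _ _ hx hy => rw [add_div]; exact add_mem hx hy
  | smul a x _ hx =>
    rw [Algebra.smul_def, mul_div_assoc]
    exact mul_mem (base_le_adj B _ a.2) hx

theorem smul_span_div {B : Subring Ω} (hB : HClosed v B) {ι : Type*} {y : ι → Ω} {g : Ω}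
    (hg : g ≠ 0) (hy : ∀ i, v.Ge (v g) (y i)) {x : Ω}
    (hx : x ∈ mB v B hB.nonneg • Submodule.span B (Set.range y)) : VPos v (x / g) := by
  have hA : ∀ f ∈ adj B (Set.range fun i => y i / g), v.Ge 0 f := by
    refine LUC.adj_nonneg hB.nonneg ?_
    rintro _ ⟨i, rfl⟩ h0
    change y i / g ≠ 0 at h0
    have hy0 : y i ≠ 0 := by
      intro h
      exact h0 (by rw [h, zero_div])
    change 0 ≤ v (y i / g)
    rw [v.map_div hy0 hg]
    have := hy i hy0
    linarith
  refine Submodule.smul_induction_on hx ?_ ?_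
  · intro a ha x hx
    rw [Algebra.smul_def, mul_div_assoc]
    have h1 : VPos v (a : Ω) := ha
    exact h1.mul (hA _ (span_div hx))
  · intro x y hx hy
    rw [add_div]
    exact hx.add hy

/-- **Blowing ups of congruent ideals.** -/
theorem rees_eq {B : Subring Ω} (hB : HClosed v B) {ι : Type*} [Finite ι] {y x : ι → Ω} {i₀ : ι}
    (hy0 : y i₀ ≠ 0) (hyv : ∀ i, v.Ge (v (y i₀)) (y i))
    (hx : ∀ i, y i - x i ∈ mB v B hB.nonneg • Submodule.span B (Set.range y)) :
    x i₀ ≠ 0 ∧ v (x i₀) = v (y i₀) ∧ (∀ i, v.Ge (v (x i₀)) (x i)) ∧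
      x i₀ / y i₀ ∈ lv v (adj B (Set.range fun i => y i / y i₀)) ∧
      lv v (adj B (Set.range fun i => x i / x i₀)) =
        lv v (adj B (Set.range fun i => y i / y i₀)) := by
  have hpos : ∀ i, VPos v ((y i - x i) / y i₀) := fun i => smul_span_div hB hy0 hyv (hx i)
  have hmem : ∀ i, (y i - x i) / y i₀ ∈ adj B (Set.range fun i => y i / y i₀) :=
    fun i => span_div (Submodule.smul_le_right (hx i))
  have hxy : ∀ i, x i / y i₀ = y i / y i₀ - (y i - x i) / y i₀ := fun i => by ring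
  have hxm : ∀ i, x i / y i₀ ∈ adj B (Set.range fun i => y i / y i₀) := by
    intro i
    rw [hxy i]
    exact sub_mem (mem_adj ⟨i, rfl⟩) (hmem i)
  have hA : ∀ f ∈ adj B (Set.range fun i => y i / y i₀), v.Ge 0 f := by
    refine LUC.adj_nonneg hB.nonneg ?_
    rintro _ ⟨i, rfl⟩ h0
    change y i / y i₀ ≠ 0 at h0
    have hyi : y i ≠ 0 := by
      intro h
      exact h0 (by rw [h, zero_div])
    change 0 ≤ v (y i / y i₀)
    rw [v.map_div hyi hy0]
    have := hyv i hyi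
    linarith
  -- the unit
  have hun : ¬ VPos v (x i₀ / y i₀) := by
    intro hcon
    refine not_VPos_of_unit (v := v) one_ne_zero v.map_one ?_
    have e : (1 : Ω) = x i₀ / y i₀ + (y i₀ - x i₀) / y i₀ := by
      field_simp
      ring
    rw [e]
    exact hcon.add (hpos i₀)
  obtain ⟨hu0, huv⟩ := unit_of_not_VPos (hA _ (hxm i₀)) hun
  have hx0 : x i₀ ≠ 0 := by
    intro h
    exact hu0 (by rw [h, zero_div])
  have hxv : v (x i₀) = v (y i₀) := by
    rw [v.map_div hx0 hy0] at huv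
    linarith
  have hxge : ∀ i, v.Ge (v (x i₀)) (x i) := by
    intro i hi
    have h1 := hA _ (hxm i) (div_ne_zero hi hy0)
    rw [v.map_div hi hy0] at h1
    linarith
  refine ⟨hx0, hxv, hxge, le_lv v _ (hxm i₀), le_antisymm ?_ ?_⟩
  · -- `≤`
    have h1 : adj B (Set.range fun i => x i / x i₀) ≤
        lv v (adj B (Set.range fun i => y i / y i₀)) := by
      refine LUC.adj_le ((base_le_adj B _).trans (le_lv v _)) ?_
      rintro _ ⟨i, rfl⟩
      have e : x i / x i₀ = (x i / y i₀) * (x i₀ / y i₀)⁻¹ := by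
        field_simp
      change x i / x i₀ ∈ _
      rw [e]
      exact mul_mem (le_lv v _ (hxm i)) (lv_inv (le_lv v _ (hxm i₀)) hu0 huv)
    exact lv_le h1 fun _ => lv_inv
  · -- `≥`
    have hle : Submodule.span B (Set.range y) ≤ Submodule.span B (Set.range x) := by
      refine Submodule.le_of_le_smul_of_le_jacobson_bot
        (Submodule.fg_span (Set.finite_range y)) (mB_le_jacobson hB) ?_
      rw [Submodule.span_le]
      rintro _ ⟨i, rfl⟩
      have e : y i = x i + (y i - x i) := by ring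
      change y i ∈ _
      rw [e]
      exact Submodule.add_mem_sup (Submodule.subset_span ⟨i, rfl⟩) (hx i)
    have hm2 : ∀ i, y i / x i₀ ∈ adj B (Set.range fun i => x i / x i₀) := fun i =>
      span_div (hle (Submodule.subset_span ⟨i, rfl⟩))
    have h1 : adj B (Set.range fun i => y i / y i₀) ≤
        lv v (adj B (Set.range fun i => x i / x i₀)) := by
      refine LUC.adj_le ((base_le_adj B _).trans (le_lv v _)) ?_
      rintro _ ⟨i, rfl⟩
      have e : y i / y i₀ = (y i / x i₀) * (y i₀ / x i₀)⁻¹ := by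
        field_simp
      change y i / y i₀ ∈ _
      rw [e]
      exact mul_mem (le_lv v _ (hm2 i)) (lv_inv (le_lv v _ (hm2 i₀)) (div_ne_zero hy0 hx0)
        (by rw [v.map_div hy0 hx0, hxv, sub_self]))
    exact lv_le h1 fun _ => lv_inv

end

end Pool.Agent.TW
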