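import Pool.Agent.Lib.TWG.G2

/-!
# TANK W, GWT: from a chart of the henselization to a chart
-/

set_option autoImplicit false

open Polynomial

namespace Pool.Agent.TW

open Pool.Agent.H15JM (RVal)
open Pool.Agent.LU1 (VPos)
open Pool.Agent.LUC (lv adj le_lv mem_lv lv_mono lv_le lv_inv lv_nonneg lv_lv base_le_adj mem_adj
  IP Par SM idl lv_eq_of_le)
open Pool.Agent.D2 (Ctx0)

universe u

section

variable {Ω : Type u} [Field Ω] {v : RVal Ω}

theorem ip_succ_smul {B : Subring Ω} (hB : HClosed v B) {q : ℕ} {s : Fin q → Ω}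
    (hs : ∀ i, s i ∈ B) (hsv : ∀ i, VPos v (s i)) {M : ℕ} {N : Submodule B Ω}
    (hM : ∀ f, IP B s M f → f ∈ N) {f : Ω} (hf : IP B s (M + 1) f) :
    f ∈ mB v B hB.nonneg • N := by
  obtain ⟨c, hc, rfl⟩ := (IP.sum_iff hs).1 hf
  refine sum_mem fun φ _ => ?_
  have e : c φ * ∏ i, s (φ i) =
      (⟨c φ * s (φ 0), mul_mem (hc φ) (hs _)⟩ : B) • ∏ i : Fin M, s (φ i.succ) := by
    rw [Fin.prod_univ_succ, Algebra.smul_def]
    change _ = c φ * s (φ 0) * _
    ring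
  rw [e]
  refine Submodule.smul_mem_smul ?_ (hM _ (IP.gen_prod hs fun i => φ i.succ))
  exact LU1.VPos.mul' (hB.nonneg _ (hc φ)) (hsv _)

/-- Change of the coordinates of a strong monomial by units. -/
theorem sm_change {O : Subring Ω} (hO : ∀ f ∈ O, f ≠ 0 → v f = 0 → f⁻¹ ∈ O) {n : ℕ}
    {z w : Fin n → Ω} {J : Finset (Fin n)}
    (hw : ∀ j ∈ J, ∃ u ∈ O, u ≠ 0 ∧ v u = 0 ∧ z j = w j * u) {t : Ω} (h : SM v O z J t) :
    SM v O w J t := by
  classical
  obtain ⟨e, y, hy, hy0, hyv, ht, hJ, hp, hn, h0⟩ := h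
  have hw' : ∀ j, ∃ u ∈ O, u ≠ 0 ∧ v u = 0 ∧ (j ∈ J → z j = w j * u) := by
    intro j
    by_cases hj : j ∈ J
    · obtain ⟨u, h1, h2, h3, h4⟩ := hw j hj
      exact ⟨u, h1, h2, h3, fun _ => h4⟩
    · exact ⟨1, O.one_mem, one_ne_zero, v.map_one, fun h => absurd h hj⟩
  choose u hu hu0 huv hzu using hw'
  have hzp : ∀ (i : Fin n) (m : ℤ), u i ^ m ∈ O := by
    intro i m
    rcases m with m | m
    · rw [Int.ofNat_eq_natCast, zpow_natCast]
      exact O.pow_mem (hu i) m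
    · rw [zpow_negSucc, ← inv_pow]
      exact O.pow_mem (hO _ (hu i) (hu0 i) (huv i)) _
  refine ⟨e, (∏ i, u i ^ e i) * y, O.mul_mem (O.prod_mem fun i _ => hzp i _) hy,
    mul_ne_zero (Finset.prod_ne_zero_iff.2 fun i _ => zpow_ne_zero _ (hu0 i)) hy0, ?_, ?_, hJ, hp,
    hn, h0⟩
  · rw [v.map_mul (Finset.prod_ne_zero_iff.2 fun i _ => zpow_ne_zero _ (hu0 i)) hy0, hyv, add_zero,
      v.map_prod _ _ fun i _ => zpow_ne_zero _ (hu0 i)]
    refine Finset.sum_eq_zero fun i _ => ?_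
    rw [v.map_zpow (hu0 i), huv i, mul_zero]
  · have e1 : ∀ i, z i ^ e i = w i ^ e i * u i ^ e i := by
      intro i
      by_cases hi : i ∈ J
      · rw [hzu i hi, mul_zpow]
      · rw [hJ i hi, zpow_zero, zpow_zero, zpow_zero, mul_one]
    rw [ht, Finset.prod_congr rfl fun i _ => e1 i, Finset.prod_mul_distrib]
    ring

end

section

variable {k Ω : Type u} [Field k] [Field Ω] [Algebra k Ω] {v : RVal Ω}

/-- **From a chart of the henselization to a chart.** -/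
theorem chart_descent (h : Ctx0 k v) {R : Subring Ω} (hR : ∀ a ∈ R, v.Ge 0 a) (hN : Nor R)
    (hk : ∀ c : k, algebraMap k Ω c ∈ R) {q : ℕ} {s : Fin q → Ω} (hs : ∀ i, s i ∈ R)
    (hsv : ∀ i, VPos v (s i)) (hgen : ∀ f ∈ R, VPos v f → IP R s 1 f) {ι : Type*} [Finite ι]
    {y : ι → Ω} {i₀ : ι} (hy : ∀ i, y i ∈ hensA v R) (hy0 : y i₀ ≠ 0)
    (hyv : ∀ i, v.Ge (v (y i₀)) (y i)) {M : ℕ}
    (hM : ∀ f, IP (hensA v R) s M f → f ∈ Submodule.span (hensA v R) (Set.range y))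
    {O O₁ : Subring Ω} (hO : O = lv v (adj (hensA v R) (Set.range fun i => y i / y i₀)))
    (hO₁ : O₁ ≤ O) (hO₁i : ∀ f ∈ O₁, f ≠ 0 → v f = 0 → f⁻¹ ∈ O₁)
    (hkO₁ : ∀ c : k, algebraMap k Ω c ∈ O₁) (hyO₁ : ∀ i, y i / y i₀ ∈ O₁) {n : ℕ}
    {z : Fin n → Ω} {J : Finset (Fin n)} (hz : Par v O₁ z) (hJ : J.Nonempty)
    (hsP : ∀ i, ∃ o ∈ O, s i = (∏ j ∈ J, z j) * o) :
    ∃ (x : ι → Ω) (w : Fin n → Ω), (∀ i, x i ∈ R) ∧ x i₀ ≠ 0 ∧ v (x i₀) = v (y i₀) ∧
      (∀ i, v.Ge (v (x i₀)) (x i)) ∧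
      Par v (lv v (adj R (Set.range fun i => x i / x i₀))) w ∧
      (∀ t, InFrac R t → SM v O z J t →
        SM v (lv v (adj R (Set.range fun i => x i / x i₀))) w J t) ∧
      (SM v O z J (y i₀) → SM v (lv v (adj R (Set.range fun i => x i / x i₀))) w J (x i₀)) := by
  classical
  have hB := hclosed_hensA hR
  have hRB := le_hensA (v := v) R
  have hsB : ∀ i, s i ∈ hensA v R := fun i => hRB (hs i)
  -- the approximations
  choose x hxR hxy using fun i => hensA_approx h hR hk hs hgen (M + 1) (y i) (hy i)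
  have hx := fun i => ip_succ_smul hB hsB hsv hM (hxy i)
  obtain ⟨hx0, hxv, hxge, hxu, heq⟩ := rees_eq hB hy0 hyv hx
  rw [← hO] at hxu heq
  obtain ⟨O₂, hO₂⟩ : ∃ O₂ : Subring Ω, O₂ = lv v (adj R (Set.range fun i => x i / x i₀)) :=
    ⟨_, rfl⟩
  have hO₂O : O₂ ≤ O := by
    rw [hO₂, ← heq]
    exact lv_mono (LUC.adj_mono hRB le_rfl)
  have hF0 : ∀ f ∈ Set.range fun i => x i / x i₀, v.Ge 0 f := by
    rintro _ ⟨i, rfl⟩ h0
    change x i / x i₀ ≠ 0 at h0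
    have hxi : x i ≠ 0 := by
      intro h
      exact h0 (by rw [h, zero_div])
    change 0 ≤ v (x i / x i₀)
    rw [v.map_div hxi hx0]
    have := hxge i hxi
    linarith
  have hD0 : ∀ f ∈ adj (hensA v R) (Set.range fun i => x i / x i₀), v.Ge 0 f :=
    LUC.adj_nonneg hB.nonneg hF0
  have hOnn : ∀ f ∈ O, v.Ge 0 f := by
    rw [← heq]
    exact lv_nonneg hD0
  have hOi : ∀ f ∈ O, f ≠ 0 → v f = 0 → f⁻¹ ∈ O := by
    rw [← heq]
    exact fun _ => lv_inv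
  have hBO : hensA v R ≤ O := by
    rw [← heq]
    exact (base_le_adj _ _).trans (le_lv v _)
  -- the product of the parameters
  obtain ⟨P, hP⟩ : ∃ P : Ω, P = ∏ j ∈ J, z j := ⟨_, rfl⟩
  have hzO : ∀ i, z i ∈ O := fun i => hO₁ (hz.mem i)
  have hPO : P ∈ O := by
    rw [hP]
    exact O.prod_mem fun j _ => hzO j
  have hPj : ∀ j ∈ J, ∃ o ∈ O, P = z j * o := by
    intro j hj
    exact ⟨∏ i ∈ J.erase j, z i, O.prod_mem fun i _ => hzO i, by
      rw [hP, Finset.mul_prod_erase J z hj]⟩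
  have hzv : ∀ i, VPos v (z i) := fun i _ => hz.pos i
  obtain ⟨j₀, hj₀⟩ := hJ
  have hPv : VPos v P := by
    obtain ⟨o, ho, e⟩ := hPj j₀ hj₀
    rw [e]
    exact (hzv j₀).mul (hOnn _ ho)
  rw [← hP] at hsP
  choose σ hσ hsσ using hsP
  -- `O = O₁ + P O`
  have happ1 : ∀ f ∈ O, ∃ l ∈ O₁, ∃ o ∈ O, f = l + P * o := by
    have h1 : ∀ f ∈ hensA v R, ∃ l ∈ O₁, ∃ o ∈ O, f = l + P * o := by
      intro f hf
      obtain ⟨c, hc⟩ := h.residue (hB.nonneg f hf)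
      obtain ⟨a, ha, hfa⟩ := (IP.one_iff hsB).1
        (hensA_gen h hR hk hs hgen _ (sub_mem hf (hRB (hk c))) hc)
      refine ⟨_, hkO₁ c, ∑ i, a i * σ i, sum_mem fun i _ => mul_mem (hBO (ha i)) (hσ i), ?_⟩
      rw [Finset.mul_sum]
      have h2 : ∑ i, P * (a i * σ i) = ∑ i, a i * s i :=
        Finset.sum_congr rfl fun i _ => by rw [hsσ i]; ring
      rw [h2, ← hfa]
      ring
    have h2 := approx_adj hO₁ hPO h1 (F := Set.range fun i => y i / y i₀) (by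
      rintro _ ⟨i, rfl⟩
      exact hyO₁ i)
    have h3 : ∀ f ∈ adj (hensA v R) (Set.range fun i => y i / y i₀), v.Ge 0 f := by
      intro f hf
      refine hOnn f ?_
      rw [hO]
      exact le_lv v _ hf
    have h4 := approx_lv (v := v) (L := O₁)
      (D := adj (hensA v R) (Set.range fun i => y i / y i₀)) (by rw [← hO]; exact hO₁) h3 hO₁i hPv
      (by rw [← hO]; exact h2)
    rw [← hO] at h4
    exact h4
  -- `O = O₂ + P ^ 2 O`
  have hP2v : VPos v (P ^ 2) := by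
    rw [pow_two]
    exact hPv.mul (hOnn _ hPO)
  have happ2 : ∀ f ∈ O, ∃ l ∈ O₂, ∃ o ∈ O, f = l + P ^ 2 * o := by
    have h1 : ∀ f ∈ hensA v R, ∃ l ∈ O₂, ∃ o ∈ O, f = l + P ^ 2 * o := by
      intro f hf
      obtain ⟨f₀, hf₀, hff⟩ := hensA_approx h hR hk hs hgen 2 f hf
      obtain ⟨c, hc, hfc⟩ := (IP.sum_iff hsB).1 hff
      refine ⟨f₀, ?_, ∑ φ, c φ * (σ (φ 0) * σ (φ 1)), sum_mem fun φ _ =>
        mul_mem (hBO (hc φ)) (mul_mem (hσ _) (hσ _)), ?_⟩
      · rw [hO₂]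
        exact le_lv v _ (base_le_adj R _ hf₀)
      · rw [Finset.mul_sum]
        have h2 : ∑ φ : Fin 2 → Fin q, P ^ 2 * (c φ * (σ (φ 0) * σ (φ 1))) =
            ∑ φ : Fin 2 → Fin q, c φ * ∏ i, s (φ i) := by
          refine Finset.sum_congr rfl fun φ _ => ?_
          rw [Fin.prod_univ_two, hsσ (φ 0), hsσ (φ 1)]
          ring
        rw [h2, ← hfc]
        ring
    have h2 := approx_adj hO₂O (O.pow_mem hPO 2) h1 (F := Set.range fun i => x i / x i₀) (by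
      rintro _ ⟨i, rfl⟩
      rw [hO₂]
      exact le_lv v _ (mem_adj ⟨i, rfl⟩))
    have h4 := approx_lv (v := v) (L := O₂)
      (D := adj (hensA v R) (Set.range fun i => x i / x i₀)) (by rw [heq]; exact hO₂O) hD0
      (by rw [hO₂]; exact fun _ => lv_inv) hP2v (by rw [heq]; exact h2)
    rw [heq] at h4
    exact h4
  -- the parameters
  choose z₂ hz₂ o ho hzo using fun i => happ2 (z i) (hzO i)
  obtain ⟨w, hw⟩ : ∃ w : Fin n → Ω, ∀ i, w i = if z₂ i = 0 then z₂ j₀ else z₂ i :=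
    ⟨_, fun _ => rfl⟩
  have hunit : ∀ j ∈ J, ∃ u ∈ O, u ≠ 0 ∧ v u = 0 ∧ z j = z₂ j * u := by
    intro j hj
    obtain ⟨a, ha, hPa⟩ := hPj j hj
    obtain ⟨b, hb⟩ : ∃ b : Ω, b = 1 - P * a * o j := ⟨_, rfl⟩
    have hbO : b ∈ O := by
      rw [hb]
      exact sub_mem (one_mem _) (mul_mem (mul_mem hPO ha) (ho j))
    have hbn : ¬ VPos v b := by
      intro hcon
      refine not_VPos_of_unit (v := v) one_ne_zero v.map_one ?_
      have e : (1 : Ω) = b + P * (a * o j) := by rw [hb]; ring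
      rw [e]
      exact hcon.add (hPv.mul (hOnn _ (mul_mem ha (ho j))))
    obtain ⟨hb0, hbv⟩ := unit_of_not_VPos (hOnn _ hbO) hbn
    refine ⟨b⁻¹, hOi b hbO hb0 hbv, inv_ne_zero hb0, by rw [v.map_inv hb0, hbv, neg_zero], ?_⟩
    have e : z₂ j = z j * b := by
      rw [hb]
      have h1 := hzo j
      have h2 : P ^ 2 = P * (z j * a) := by rw [← hPa]; ring
      rw [h2] at h1
      linear_combination -h1
    rw [e, mul_assoc, mul_inv_cancel₀ hb0, mul_one]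
  have hz₂0 : ∀ j ∈ J, z₂ j ≠ 0 := by
    intro j hj h0
    obtain ⟨u, -, -, -, h1⟩ := hunit j hj
    exact hz.ne j (by rw [h1, h0, zero_mul])
  have hwJ : ∀ j ∈ J, w j = z₂ j := fun j hj => by rw [hw, if_neg (hz₂0 j hj)]
  have hw0 : ∀ i, w i ≠ 0 := by
    intro i
    rw [hw]
    split_ifs with h1
    · exact hz₂0 j₀ hj₀
    · exact h1
  have hwO₂ : ∀ i, w i ∈ O₂ := by
    intro i
    rw [hw]
    split_ifs with h1
    · exact hz₂ j₀
    · exact hz₂ i
  have hwO : ∀ i, w i ∈ O := fun i => hO₂O (hwO₂ i)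
  have hwv : ∀ i, VPos v (w i) := by
    have h1 : ∀ i, VPos v (z₂ i) := by
      intro i
      have e : z₂ i = z i - P ^ 2 * o i := by
        have := hzo i
        linear_combination -this
      rw [e]
      exact (hzv i).sub (hP2v.mul (hOnn _ (ho i)))
    intro i
    rw [hw]
    split_ifs with h2
    · exact h1 j₀
    · exact h1 i
  -- the `z i` are in the ideal of the `w i`
  have hzw : ∀ i, IP O w 1 (z i) := by
    have hJw : ∀ j ∈ J, IP O w 1 (z j) := by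
      intro j hj
      obtain ⟨u, hu, -, -, h1⟩ := hunit j hj
      rw [h1, ← hwJ j hj]
      exact (IP.gen (hwO j)).mul_right hu
    have hPw : IP O w 1 (P ^ 2) := by
      obtain ⟨a, ha, h1⟩ := hPj j₀ hj₀
      have e : P ^ 2 = z j₀ * (a * P) := by
        rw [pow_two]
        conv_lhs => rw [h1]
        rw [h1]
        ring
      rw [e]
      exact (hJw j₀ hj₀).mul_right (mul_mem ha hPO)
    intro i
    rw [hzo i]
    refine IP.add ?_ (hPw.mul_right (ho i))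
    by_cases h1 : z₂ i = 0
    · rw [h1]
      exact IP.zero
    · have : z₂ i = w i := by rw [hw, if_neg h1]
      rw [this]
      exact IP.gen (hwO i)
  have hgenO : ∀ f ∈ O, VPos v f → IP O w 1 f := by
    intro f hf hfv
    obtain ⟨l, hl, o', ho', e⟩ := happ1 f hf
    have hlv : VPos v l := by
      have e1 : l = f - P * o' := by rw [e]; ring
      rw [e1]
      exact hfv.sub (hPv.mul (hOnn _ ho'))
    have h1 : IP O w 1 l := (hz.gen l hl hlv).map hO₁ hzw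
    have h2 : IP O w 1 P := by
      obtain ⟨a, ha, h1⟩ := hPj j₀ hj₀
      rw [h1]
      exact (hzw j₀).mul_right ha
    rw [e]
    exact h1.add (h2.mul_right ho')
  -- descent
  have hFR : ∀ f ∈ Set.range fun i => x i / x i₀, InFrac R f := by
    rintro _ ⟨i, rfl⟩
    exact ⟨x i, hxR i, x i₀, hxR i₀, hx0, rfl⟩
  have hadjR : adj R (Set.range fun i => x i / x i₀) ≤ (fracF R).toSubring :=
    LUC.adj_le (fun f hf => le_fracF hf) hFR
  have hO₂R : ∀ f ∈ O₂, InFrac R f := by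
    intro f hf
    rw [hO₂] at hf
    obtain ⟨a, ha, b, hb, -, -, rfl⟩ := hf
    exact (fracF R).div_mem (hadjR ha) (hadjR hb)
  have hparO₂ : Par v O₂ w := by
    refine ⟨hwO₂, hw0, fun i => hwv i (hw0 i), fun f hf hfv => ?_⟩
    obtain ⟨a, ha, hfa⟩ := (IP.one_iff hwO).1 (hgenO f (hO₂O hf) hfv)
    obtain ⟨b, hb, hfb⟩ := descent hR hN hFR hF0 (fun i => hO₂R _ (hwO₂ i)) (hO₂R f hf)
      (fun i => by rw [heq]; exact ha i) hfa
    rw [← hO₂] at hb
    exact (IP.one_iff hwO₂).2 ⟨b, hb, hfb⟩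
  have hSM : ∀ t, InFrac R t → SM v O z J t → SM v O₂ w J t := by
    intro t ht hSM
    have h1 := sm_change hOi (w := w) (fun j hj => by
      rw [hwJ j hj]
      exact hunit j hj) hSM
    obtain ⟨e, u, hu, hu0, huv, htu, hJ', hp, hn, h0⟩ := h1
    have hprod : (∏ i, w i ^ e i) ≠ 0 :=
      Finset.prod_ne_zero_iff.2 fun i _ => zpow_ne_zero _ (hw0 i)
    refine ⟨e, u, ?_, hu0, huv, htu, hJ', hp, hn, h0⟩
    rw [hO₂]
    refine descent_mem hR hN hFR hF0 ?_ (by rw [heq]; exact hu)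
    have e1 : u = t / ∏ i, w i ^ e i := by
      rw [htu]
      field_simp
    rw [e1]
    exact (fracF R).div_mem ht
      ((fracF R).prod_mem fun i _ => (fracF R).zpow_mem (hO₂R _ (hwO₂ i)) _)
  rw [hO₂] at hparO₂ hSM
  refine ⟨x, w, hxR, hx0, hxv, hxge, hparO₂, hSM, fun hg => ?_⟩
  refine hSM _ ⟨x i₀, hxR i₀, 1, R.one_mem, one_ne_zero, by rw [div_one]⟩ ?_
  have e : x i₀ = y i₀ * (x i₀ / y i₀) := by field_simp
  rw [e]
  refine hg.mul_unit hz.ne hxu (div_ne_zero hx0 hy0) ?_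
  rw [v.map_div hx0 hy0, hxv, sub_self]

end

end Pool.Agent.TW
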