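import Pool.Agent.Lib.TWG.G1
import Pool.Agent.Lib.TW.H2
import Pool.Agent.Lib.TWT.TR1
import Mathlib.RingTheory.Invariant.Profinite
import Mathlib.FieldTheory.Galois.Profinite
import Mathlib.FieldTheory.SeparableClosure

/-!
# TANK W, motions: extension of a local homomorphism `R → Rh` to an automorphism of `Ω` which
preserves the henselization `Rh` of the normal ring `R`

* `exists_conj`: two valuations with the same centre on the normal ring `R` have, up to an
  automorphism of `Ω` over the field of fractions of `R`, the same centre on the integral closure of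
  `R` in the separable closure.
* `exists_aut`: the extension.
-/

set_option autoImplicit false

open Polynomial

namespace Pool.Agent.TW

open Pool.Agent.H15JM (RVal)
open Pool.Agent.LU1 (VPos)
open Pool.Agent.LUC (lv adj le_lv mem_lv lv_mono lv_le lv_inv lv_nonneg lv_lv base_le_adj mem_adj)
open Pool.Agent.D2 (Ctx0)

universe u

section

variable {k Ω : Type u} [Field k] [Field Ω] [Algebra k Ω]

open scoped Pointwise in
/-- **Conjugation.** -/
theorem exists_conj [IsAlgClosed Ω] {v V : RVal Ω} {R : Subring Ω} (hv : ∀ a ∈ R, v.Ge 0 a)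
    (hV : ∀ a ∈ R, V.Ge 0 a) (hN : Nor R) (hvV : ∀ a ∈ R, VPos v a ↔ VPos V a)
    (E : IntermediateField k Ω) (hRE : ∀ a ∈ R, a ∈ E) (hE : ∀ a ∈ E, InFrac R a)
    (hΩ : ∀ g : Ω, IsAlgebraic E g) :
    ∃ τ : Ω ≃ₐ[E] Ω, ∀ f, IsSeparable E f → IsIntegral R f → (VPos v f ↔ VPos V (τ f)) := by
  classical
  have halg : Algebra.IsAlgebraic E Ω := ⟨hΩ⟩
  have hclo : IsAlgClosure E Ω := ⟨inferInstance, inferInstance⟩
  have hnorm : Normal E Ω := IsAlgClosure.normal E Ω
  obtain ⟨K, hK⟩ : ∃ K : IntermediateField E Ω, K = separableClosure E Ω := ⟨_, rfl⟩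
  have hgal : IsGalois E K := by rw [hK]; infer_instance
  let ιE : R →+* E :=
    { toFun := fun a => ⟨a, hRE a a.2⟩
      map_one' := rfl
      map_mul' := fun _ _ => rfl
      map_zero' := rfl
      map_add' := fun _ _ => rfl }
  let ι : R →+* K := (algebraMap E K).comp ιE
  have hι : ∀ a : R, ((ι a : K) : Ω) = a := fun a => rfl
  have hint : ∀ x : K, IsIntegral R (x : Ω) ↔ ι.IsIntegralElem x := by
    intro x
    have h1 : ∀ p : Polynomial R, eval₂ (algebraMap R Ω) (x : Ω) p = ((eval₂ ι x p : K) : Ω) := by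
      intro p
      have h2 := Polynomial.hom_eval₂ p ι (K.val : K →+* Ω) x
      exact h2.symm
    constructor
    · rintro ⟨p, hp, hpx⟩
      refine ⟨p, hp, Subtype.ext ?_⟩
      rw [← h1]
      exact hpx
    · rintro ⟨p, hp, hpx⟩
      refine ⟨p, hp, ?_⟩
      rw [h1, hpx]
      rfl
  have hgint : ∀ (g : K ≃ₐ[E] K) (x : K), IsIntegral R (x : Ω) → IsIntegral R ((g x : K) : Ω) := by
    intro g x hx
    rw [hint] at hx ⊢
    obtain ⟨p, hp, hpx⟩ := hx
    refine ⟨p, hp, ?_⟩
    have h1 := Polynomial.hom_eval₂ p ι (g : K →+* K) x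
    rw [hpx, map_zero] at h1
    have h2 : (g : K →+* K).comp ι = ι := RingHom.ext fun a => g.commutes (ιE a)
    rw [h2] at h1
    exact h1.symm
  let B : Subring K :=
    { carrier := {x | IsIntegral R (x : Ω)}
      mul_mem' := fun ha hb => IsIntegral.mul ha hb
      one_mem' := isIntegral_one
      add_mem' := fun ha hb => IsIntegral.add ha hb
      zero_mem' := isIntegral_zero
      neg_mem' := fun ha => IsIntegral.neg ha }
  have hB : ∀ x : B, IsIntegral R ((x : K) : Ω) := fun x => x.2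
  let _ : MulSemiringAction (K ≃ₐ[E] K) B :=
    { smul := fun g x => ⟨g x, hgint g x (hB x)⟩
      one_smul := fun x => rfl
      mul_smul := fun g g' x => rfl
      smul_zero := fun g => Subtype.ext (map_zero g)
      smul_add := fun g x y => Subtype.ext (map_add g _ _)
      smul_one := fun g => Subtype.ext (map_one g)
      smul_mul := fun g x y => Subtype.ext (map_mul g _ _) }
  have hsmul : ∀ (g : K ≃ₐ[E] K) (x : B), ((g • x : B) : K) = g x := fun _ _ => rfl
  let ιB : R →+* B :=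
    { toFun := fun a => ⟨ι a, isIntegral_algebraMap (R := R) (A := Ω) (x := a)⟩
      map_one' := rfl
      map_mul' := fun _ _ => rfl
      map_zero' := rfl
      map_add' := fun _ _ => rfl }
  let _ : Algebra R B := ιB.toAlgebra
  have hcomm : SMulCommClass (K ≃ₐ[E] K) R B := by
    refine ⟨fun g a x => Subtype.ext ?_⟩
    rw [Algebra.smul_def, Algebra.smul_def, hsmul]
    change g (ι a * x) = ι a * g x
    rw [map_mul]
    congr 1
    exact g.commutes (ιE a)
  have hinv : Algebra.IsInvariant R B (K ≃ₐ[E] K) := by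
    refine ⟨fun b hb => ?_⟩
    have h1 : (b : K) ∈ (⊥ : IntermediateField E K) :=
      (InfiniteGalois.mem_bot_iff_fixed _).2 fun g => congrArg (fun x : B => (x : K)) (hb g)
    rw [IntermediateField.mem_bot] at h1
    obtain ⟨e, he⟩ := h1
    have h2 : ((b : K) : Ω) = e := by
      rw [← he]
      rfl
    have h3 : ((b : K) : Ω) ∈ R := hN _ (by rw [h2]; exact hE e e.2) (hB b)
    exact ⟨⟨_, h3⟩, Subtype.ext (Subtype.ext rfl)⟩
  let _ : TopologicalSpace B := ⊥
  have hdisc : DiscreteTopology B := ⟨rfl⟩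
  have hcont : ContinuousSMul (K ≃ₐ[E] K) B := by
    refine ⟨continuous_iff_continuousAt.2 ?_⟩
    rintro ⟨g₀, b₀⟩
    have h1 : ∀ᶠ g in nhds g₀, g • b₀ = g₀ • b₀ := by
      have hfd : FiniteDimensional E (IntermediateField.adjoin E {(b₀ : K)}) :=
        IntermediateField.adjoin.finiteDimensional
          (Algebra.IsIntegral.isIntegral (R := E) (b₀ : K))
      have h2 := IntermediateField.fixingSubgroup_isOpen
        (IntermediateField.adjoin E {(b₀ : K)})
      have h3 : g₀ • ((IntermediateField.adjoin E {(b₀ : K)}).fixingSubgroup :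
          Set (K ≃ₐ[E] K)) ∈ nhds g₀ :=
        (h2.leftCoset g₀).mem_nhds ⟨1, Subgroup.one_mem _, mul_one _⟩
      refine Filter.mem_of_superset h3 ?_
      rintro _ ⟨σ, hσ, rfl⟩
      refine Subtype.ext ?_
      change (g₀ * σ) (b₀ : K) = g₀ (b₀ : K)
      rw [AlgEquiv.mul_apply]
      congr 1
      exact (IntermediateField.mem_fixingSubgroup_iff _ _).1 hσ _
        (IntermediateField.mem_adjoin_simple_self E _)
    rw [ContinuousAt, nhds_discrete B, nhds_prod_eq, nhds_discrete B]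
    rw [Filter.tendsto_pure]
    rw [Filter.prod_pure, Filter.eventually_map]
    exact h1
  -- the ideals
  have hvB : ∀ x : B, v.Ge 0 ((x : K) : Ω) := fun x => ge_of_isIntegral hv (hB x)
  have hVB : ∀ x : B, V.Ge 0 ((x : K) : Ω) := fun x => ge_of_isIntegral hV (hB x)
  let j : B →+* Ω := (K.val : K →+* Ω).comp B.subtype
  have hj : ∀ x : B, j x = ((x : K) : Ω) := fun _ => rfl
  have hP1 := posIdeal_prime (v := v) j hvB
  have hP2 := posIdeal_prime (v := V) j hVB
  obtain ⟨g, hg⟩ := Algebra.IsInvariant.exists_smul_of_under_eq_of_profinite (A := R) (B := B)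
    (G := K ≃ₐ[E] K) (posIdeal (v := v) j hvB) (posIdeal (v := V) j hVB) (by
      ext a
      exact hvV a a.2)
  refine ⟨g.liftNormal Ω, fun f hf hfi => ?_⟩
  have hfK : f ∈ K := by
    rw [hK, mem_separableClosure_iff]
    exact hf
  have h1 : g.liftNormal Ω f = ((g ⟨f, hfK⟩ : K) : Ω) := AlgEquiv.liftNormal_commutes g Ω ⟨f, hfK⟩
  rw [h1]
  let b : B := ⟨⟨f, hfK⟩, hfi⟩
  have h2 : g • b ∈ posIdeal (v := V) j hVB ↔ b ∈ posIdeal (v := v) j hvB := by
    rw [hg, Ideal.mem_pointwise_smul_iff_inv_smul_mem, inv_smul_smul]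
  exact h2.symm

theorem mapped_eval {R : Subring Ω} (φ : Ω ≃ₐ[k] Ω) (p : Polynomial R) (θ : Ω) :
    (p.map ((φ : Ω →+* Ω).comp (algebraMap R Ω))).eval (φ θ) = φ (aeval θ p) := by
  rw [eval_map, aeval_def]
  exact (Polynomial.hom_eval₂ p (algebraMap R Ω) (φ : Ω →+* Ω) θ).symm

/-- **Motions.**  A local homomorphism from the normal ring `R` to its henselization extends to an
automorphism of `Ω` which maps the henselization to itself. -/
theorem exists_aut [IsAlgClosed Ω] {v : RVal Ω} (h : Ctx0 k v) {R : Subring Ω}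
    (hR : ∀ a ∈ R, v.Ge 0 a) (hk : ∀ c : k, algebraMap k Ω c ∈ R) (hN : Nor R)
    (E : IntermediateField k Ω) (hRE : ∀ a ∈ R, a ∈ E) (hE : ∀ a ∈ E, InFrac R a)
    (hΩ : ∀ g : Ω, IsAlgebraic E g) (σ : E →ₐ[k] Ω)
    (hσR : ∀ a : E, (a : Ω) ∈ R → σ a ∈ hensA v R)
    (hσv : ∀ a : E, (a : Ω) ∈ R → VPos v (a : Ω) → VPos v (σ a))
    (hΩσ : ∀ g : Ω, IsAlgebraic σ.fieldRange g) :
    ∃ φ : Ω ≃ₐ[k] Ω, (∀ a : E, φ a = σ a) ∧ ∀ f ∈ hensA v R, φ f ∈ hensA v R := by
  classical
  have hB := hclosed_hensA hR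
  have halg : Algebra.IsAlgebraic E Ω := ⟨hΩ⟩
  have halg' : Algebra.IsAlgebraic σ.fieldRange Ω := ⟨hΩσ⟩
  have hc1 : IsAlgClosure E Ω := ⟨inferInstance, inferInstance⟩
  have hc2 : IsAlgClosure σ.fieldRange Ω := ⟨inferInstance, inferInstance⟩
  let e : E ≃+* σ.fieldRange := (AlgEquiv.ofInjectiveField σ).toRingEquiv
  let Φ : Ω ≃+* Ω := IsAlgClosure.equivOfEquiv Ω Ω e
  have hΦ : ∀ a : E, Φ a = σ a := fun a => IsAlgClosure.equivOfEquiv_algebraMap Ω Ω e a
  have hΦk : ∀ c : k, Φ (algebraMap k Ω c) = algebraMap k Ω c := by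
    intro c
    have h1 := hΦ (algebraMap k E c)
    rw [σ.commutes] at h1
    exact h1
  obtain ⟨V, hV⟩ : ∃ V : RVal Ω, V = TWT.cm v Φ := ⟨_, rfl⟩
  have hVge : ∀ (c : ℝ) (f : Ω), V.Ge c f ↔ v.Ge c (Φ f) := fun c f => by
    rw [hV]
    exact TWT.cm_ge
  have hVpos : ∀ f : Ω, VPos V f ↔ VPos v (Φ f) := fun f => by
    rw [hV]
    exact TWT.cm_vpos
  have hVR : ∀ a ∈ R, V.Ge 0 a := by
    intro a ha
    rw [hVge]
    have h1 := hΦ ⟨a, hRE a ha⟩
    rw [h1]
    exact hB.nonneg _ (hσR _ ha)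
  have hvV : ∀ a ∈ R, VPos v a ↔ VPos V a := by
    intro a ha
    constructor
    · intro h1
      rw [hVpos]
      have h2 := hσv ⟨a, hRE a ha⟩ ha h1
      rwa [← hΦ] at h2
    · intro h1
      obtain ⟨c, hc⟩ := h.residue (hR a ha)
      have h2 : VPos V (a - algebraMap k Ω c) := by
        rw [hVpos]
        have h3 := hσv ⟨a - algebraMap k Ω c, hRE _ (sub_mem ha (hk c))⟩ (sub_mem ha (hk c)) hc
        rwa [← hΦ] at h3
      have h3 : VPos V (algebraMap k Ω c) := by
        have h4 := h1.sub h2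
        rwa [sub_sub_cancel] at h4
      rw [hVpos, hΦk] at h3
      have h4 := h.const_eq_zero h3
      rw [h4, map_zero, sub_zero] at hc
      exact hc
  obtain ⟨τ, hτ⟩ := exists_conj hR hVR hN hvV E hRE hE hΩ
  let Φk : Ω ≃ₐ[k] Ω := AlgEquiv.ofRingEquiv (f := Φ) hΦk
  let φ : Ω ≃ₐ[k] Ω := (τ.restrictScalars k).trans Φk
  have hφ : ∀ f, φ f = Φ (τ f) := fun f => rfl
  have hφE : ∀ a : E, φ a = σ a := by
    intro a
    rw [hφ, ← hΦ]
    congr 1
    exact τ.commutes a
  refine ⟨φ, hφE, fun f hf => ?_⟩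
  obtain ⟨g, θ, hg, hθ, h1, h2, h3, Q, hQ0, hQv, hP⟩ := exists_common hR {f} (by simpa using hf)
  obtain ⟨P, hP⟩ := hP f (Finset.mem_singleton_self f)
  have hθm := root_mem_hensA hR hθ h1 h2 h3
  have hθi : IsIntegral R θ := ⟨g, hg, h1⟩
  -- separability
  have hle : hensA v R ≤ OV v (D2P.hen v E) := hensA_le (fun a ha =>
    ⟨D2P.le_hen E (hRE a ha), hR a ha⟩) (H2aux.hclosed_OV_hen h E)
  have hsep : ∀ x ∈ hensA v R, IsSeparable E x := fun x hx => (D2P.mem_hen.1 (hle hx).1).2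
  have hRint : ∀ p : Polynomial R, IsIntegral R (aeval θ p) := by
    intro p
    have h4 : aeval θ p ∈ Algebra.adjoin R {θ} := aeval_mem_adjoin_singleton R θ
    exact IsIntegral.of_mem_of_fg _ hθi.fg_adjoin_singleton _ h4
  -- integral elements have nonnegative value
  have hτint : ∀ x : Ω, IsIntegral R x → V.Ge 0 (τ x) := by
    rintro x ⟨p, hp, hpx⟩
    refine ge_of_isIntegral hVR ⟨p, hp, ?_⟩
    have h4 := Polynomial.hom_eval₂ p (algebraMap R Ω) (τ : Ω →+* Ω) x
    rw [hpx, map_zero] at h4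
    have h5 : (τ : Ω →+* Ω).comp (algebraMap R Ω) = algebraMap R Ω :=
      RingHom.ext fun a => τ.commutes (⟨a, hRE a a.2⟩ : E)
    rw [h5] at h4
    exact h4.symm
  have hunit : ∀ p : Polynomial R, aeval θ p ≠ 0 → v (aeval θ p) = 0 →
      φ (aeval θ p) ≠ 0 ∧ v (φ (aeval θ p)) = 0 := by
    intro p hp0 hpv
    have h4 : ¬ VPos v (aeval θ p) := not_VPos_of_unit hp0 hpv
    rw [hτ _ (hsep _ (aeval_mem (le_hensA R) hθm p)) (hRint p), hVpos, ← hφ] at h4
    refine unit_of_not_VPos ?_ h4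
    rw [hφ, ← hVge]
    exact hτint _ (hRint p)
  have hcoef : ∀ (p : Polynomial R) (i : ℕ),
      (p.map ((φ : Ω →+* Ω).comp (algebraMap R Ω))).coeff i ∈ hensA v R := by
    intro p i
    rw [coeff_map]
    change φ ((p.coeff i : R) : Ω) ∈ hensA v R
    have h4 := hφE ⟨(p.coeff i : R), hRE _ (p.coeff i).2⟩
    rw [h4]
    exact hσR _ (p.coeff i).2
  have hφθ : φ θ ∈ hensA v R := by
    refine hB.root (g.map ((φ : Ω →+* Ω).comp (algebraMap R Ω))) (φ θ) (hcoef g) ?_ ?_ ?_ ?_
    · rw [hφ, ← hVge]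
      exact hτint θ hθi
    · rw [mapped_eval, h1, map_zero]
    · rw [derivative_map, mapped_eval]
      exact (hunit _ h2 h3).1
    · rw [derivative_map, mapped_eval]
      exact (hunit _ h2 h3).2
  have hφp : ∀ p : Polynomial R, φ (aeval θ p) ∈ hensA v R := by
    intro p
    rw [← mapped_eval, eval_eq_sum_range]
    exact sum_mem fun i _ => mul_mem (hcoef p i) (pow_mem hφθ i)
  rw [hP, map_div₀, div_eq_mul_inv]
  obtain ⟨h4, h5⟩ := hunit Q hQ0 hQv
  exact mul_mem (hφp P) (hB.inv _ (hφp Q) h4 h5)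

end

end Pool.Agent.TW
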