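import Pool.Agent.Lib.TWG.G5
import Pool.Agent.Lib.TW.E8
import Pool.Agent.Lib.TW.X1a

/-!
# TANK W, motions: change of coordinates of a regular local ring `lv v k[s]`
-/

set_option autoImplicit false

open Polynomial

namespace Pool.Agent.TW

open Pool.Agent.H15JM (RVal)
open Pool.Agent.LU1 (VPos)
open Pool.Agent.LUC (lv adj le_lv mem_lv lv_mono lv_le lv_inv lv_nonneg lv_lv base_le_adj mem_adj)
open Pool.Agent.D2 (Ctx0)

universe u

variable {k Ω : Type u} [Field k] [Field Ω] [Algebra k Ω] {v : RVal Ω}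

theorem adj_eq_ksub (S : Set Ω) : adj (algebraMap k Ω).range S = ksub k S := by
  rw [adj, ksub, RingHom.coe_range]

/-- The value of a polynomial at elements of positive value. -/
theorem aeval_vpos (h : Ctx0 k v) {n : ℕ} {s : Fin n → Ω} (hpos : ∀ i, VPos v (s i))
    (P : MvPolynomial (Fin n) k) :
    VPos v (MvPolynomial.aeval s P - algebraMap k Ω (MvPolynomial.constantCoeff P)) := by
  induction P using MvPolynomial.induction_on with
  | C c =>
    rw [MvPolynomial.aeval_C, MvPolynomial.constantCoeff_C, sub_self]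
    exact LU1.VPos.zero
  | add P Q hP hQ =>
    have e : MvPolynomial.aeval s (P + Q) - algebraMap k Ω (MvPolynomial.constantCoeff (P + Q)) =
        (MvPolynomial.aeval s P - algebraMap k Ω (MvPolynomial.constantCoeff P)) +
        (MvPolynomial.aeval s Q - algebraMap k Ω (MvPolynomial.constantCoeff Q)) := by
      simp only [map_add]
      ring
    rw [e]
    exact hP.add hQ
  | mul_X P i hP =>
    have e : MvPolynomial.aeval s (P * MvPolynomial.X i) -
        algebraMap k Ω (MvPolynomial.constantCoeff (P * MvPolynomial.X i)) =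
        MvPolynomial.aeval s P * s i := by
      simp
    rw [e]
    refine LU1.VPos.mul' ?_ (hpos i)
    have e2 : MvPolynomial.aeval s P = (MvPolynomial.aeval s P -
        algebraMap k Ω (MvPolynomial.constantCoeff P)) +
        algebraMap k Ω (MvPolynomial.constantCoeff P) := by ring
    rw [e2]
    exact hP.ge.add (h.ge _)

/-- **Change of coordinates.**  `s` algebraically independent of positive values, `Ω` algebraic over
`k(s)`, `s'` algebraically independent elements of positive value of the henselization of `k[s]`: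
there is an automorphism of `Ω` which maps `s` to `s'` and the henselization to itself. -/
theorem exists_motion [IsAlgClosed Ω] (h : Ctx0 k v) {n : ℕ} {s s' : Fin n → Ω}
    (hs : AlgebraicIndependent k s) (hs' : AlgebraicIndependent k s')
    (hpos : ∀ i, VPos v (s i)) (hpos' : ∀ i, VPos v (s' i))
    (hs'm : ∀ i, s' i ∈ hensA v (lv v (adj (algebraMap k Ω).range (Set.range s))))
    (hΩ : ∀ g : Ω, IsAlgebraic (IntermediateField.adjoin k (Set.range s)) g) :
    ∃ φ : Ω ≃ₐ[k] Ω, (∀ i, φ (s i) = s' i) ∧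
      ∀ f ∈ hensA v (lv v (adj (algebraMap k Ω).range (Set.range s))),
        φ f ∈ hensA v (lv v (adj (algebraMap k Ω).range (Set.range s))) := by
  classical
  obtain ⟨R₀, hR₀⟩ : ∃ R₀ : Subring Ω, R₀ = adj (algebraMap k Ω).range (Set.range s) := ⟨_, rfl⟩
  have hR₀k : R₀ = ksub k (Set.range s) := by rw [hR₀, adj_eq_ksub]
  obtain ⟨R, hRdef⟩ : ∃ R : Subring Ω, R = lv v R₀ := ⟨_, rfl⟩
  rw [← hR₀, ← hRdef] at hs'm ⊢
  have hkR₀ : ∀ c : k, algebraMap k Ω c ∈ R₀ := fun c => by
    rw [hR₀]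
    exact base_le_adj _ _ ⟨c, rfl⟩
  have hR₀0 : ∀ f ∈ R₀, v.Ge 0 f := by
    rw [hR₀]
    refine LUC.adj_nonneg ?_ ?_
    · rintro _ ⟨c, rfl⟩
      exact h.ge c
    · rintro _ ⟨i, rfl⟩
      exact (hpos i).ge
  have hR0 : ∀ f ∈ R, v.Ge 0 f := by rw [hRdef]; exact lv_nonneg hR₀0
  have hN : Nor R := by
    rw [hRdef]
    refine nor_lv ?_
    rw [hR₀k]
    exact nor_ksub hs
  have hB := hclosed_hensA hR0
  have hRB := le_hensA (v := v) R
  have hkB : ∀ c : k, algebraMap k Ω c ∈ hensA v R := fun c => hRB (by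
    rw [hRdef]
    exact le_lv v _ (hkR₀ c))
  obtain ⟨E, hE⟩ : ∃ E : IntermediateField k Ω, E = IntermediateField.adjoin k (Set.range s) :=
    ⟨_, rfl⟩
  rw [← hE] at hΩ
  have hmem₀ : ∀ f ∈ R₀, ∃ P : MvPolynomial (Fin n) k, MvPolynomial.aeval s P = f := by
    intro f hf
    rw [hR₀k] at hf
    exact mem_ksub_iff.1 hf
  have hPR₀ : ∀ P : MvPolynomial (Fin n) k, MvPolynomial.aeval s P ∈ R₀ := fun P => by
    rw [hR₀k]
    exact mem_ksub_iff.2 ⟨P, rfl⟩
  have hsE : ∀ i, s i ∈ E := fun i => by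
    rw [hE]
    exact IntermediateField.subset_adjoin k _ ⟨i, rfl⟩
  have hR₀E : ∀ f ∈ R₀, f ∈ E := by
    intro f hf
    rw [hR₀] at hf
    exact LUC.adj_le (B := E.toSubfield.toSubring) (by
      rintro _ ⟨c, rfl⟩
      exact E.algebraMap_mem c) (by
      rintro _ ⟨i, rfl⟩
      exact hsE i) hf
  have hRE : ∀ f ∈ R, f ∈ E := by
    intro f hf
    rw [hRdef] at hf
    obtain ⟨a, ha, b, hb, -, -, rfl⟩ := hf
    exact E.div_mem (hR₀E a ha) (hR₀E b hb)
  have hEfr : ∀ a ∈ E, InFrac R a := by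
    intro a ha
    have h1 : E ≤ { (fracF R) with
        algebraMap_mem' := fun c => le_fracF (by
          rw [hRdef]
          exact le_lv v _ (hkR₀ c)) } := by
      rw [hE, IntermediateField.adjoin_le_iff]
      rintro _ ⟨i, rfl⟩
      refine le_fracF (B := R) ?_
      rw [hRdef]
      exact le_lv v _ (by rw [hR₀]; exact mem_adj ⟨i, rfl⟩)
    exact h1 ha
  -- the homomorphism
  let e := hs.aevalEquivField
  let e' := hs'.aevalEquivField
  let ρ : IntermediateField.adjoin k (Set.range s) ≃ₐ[k]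
      IntermediateField.adjoin k (Set.range s') := e.symm.trans e'
  subst hE
  let σ : IntermediateField.adjoin k (Set.range s) →ₐ[k] Ω :=
    (IntermediateField.adjoin k (Set.range s')).val.comp ρ.toAlgHom
  have hρ : ∀ P : MvPolynomial (Fin n) k, ∀ a : IntermediateField.adjoin k (Set.range s),
      (a : Ω) = MvPolynomial.aeval s P → σ a = MvPolynomial.aeval s' P := by
    intro P a ha
    have h1 : a = e (algebraMap (MvPolynomial (Fin n) k) _ P) := by
      apply Subtype.ext
      rw [ha]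
      exact (hs.aevalEquivField_algebraMap_apply_coe P).symm
    change ((e' (e.symm a) : IntermediateField.adjoin k (Set.range s')) : Ω) = _
    rw [h1, AlgEquiv.symm_apply_apply]
    exact hs'.aevalEquivField_algebraMap_apply_coe P
  have hσs : ∀ i, σ ⟨s i, hsE i⟩ = s' i := by
    intro i
    have h1 := hρ (MvPolynomial.X i) ⟨s i, hsE i⟩ (by rw [MvPolynomial.aeval_X])
    rwa [MvPolynomial.aeval_X] at h1
  have hs'B : ∀ P : MvPolynomial (Fin n) k, MvPolynomial.aeval s' P ∈ hensA v R := by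
    intro P
    induction P using MvPolynomial.induction_on with
    | C c => rw [MvPolynomial.aeval_C]; exact hkB c
    | add P Q hP hQ => rw [map_add]; exact add_mem hP hQ
    | mul_X P i hP => rw [map_mul, MvPolynomial.aeval_X]; exact mul_mem hP (hs'm i)
  -- constant coefficients
  have hcc : ∀ P : MvPolynomial (Fin n) k, VPos v (MvPolynomial.aeval s P) →
      VPos v (MvPolynomial.aeval s' P) := by
    intro P hP
    have h1 := aeval_vpos h hpos P
    have h2 : VPos v (algebraMap k Ω (MvPolynomial.constantCoeff P)) := by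
      have h3 := hP.sub h1
      rwa [sub_sub_cancel] at h3
    have h3 := h.const_eq_zero h2
    have h4 := aeval_vpos h hpos' P
    rwa [h3, map_zero, sub_zero] at h4
  have hcu : ∀ P : MvPolynomial (Fin n) k, MvPolynomial.aeval s P ≠ 0 →
      v (MvPolynomial.aeval s P) = 0 →
      MvPolynomial.aeval s' P ≠ 0 ∧ v (MvPolynomial.aeval s' P) = 0 := by
    intro P hP0 hPv
    refine unit_of_not_VPos (hB.nonneg _ (hs'B P)) fun hcon => ?_
    have h1 := aeval_vpos h hpos' P
    have h2 : VPos v (algebraMap k Ω (MvPolynomial.constantCoeff P)) := by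
      have h3 := hcon.sub h1
      rwa [sub_sub_cancel] at h3
    have h3 := h.const_eq_zero h2
    have h4 := aeval_vpos h hpos P
    rw [h3, map_zero, sub_zero] at h4
    exact not_VPos_of_unit hP0 hPv h4
  have hσfr : ∀ a : IntermediateField.adjoin k (Set.range s), (a : Ω) ∈ R →
      ∃ P Q : MvPolynomial (Fin n) k, MvPolynomial.aeval s Q ≠ 0 ∧
        v (MvPolynomial.aeval s Q) = 0 ∧
        (a : Ω) = MvPolynomial.aeval s P / MvPolynomial.aeval s Q ∧
        σ a = MvPolynomial.aeval s' P / MvPolynomial.aeval s' Q := by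
    intro a ha
    rw [hRdef] at ha
    obtain ⟨x, hx, y, hy, hy0, hyv, hxy⟩ := ha
    obtain ⟨P, hP⟩ := hmem₀ x hx
    obtain ⟨Q, hQ⟩ := hmem₀ y hy
    refine ⟨P, Q, by rw [hQ]; exact hy0, by rw [hQ]; exact hyv, by rw [hP, hQ]; exact hxy, ?_⟩
    have h1 : a = ⟨x, hR₀E x hx⟩ / ⟨y, hR₀E y hy⟩ := Subtype.ext hxy
    rw [h1, map_div₀, hρ P ⟨x, hR₀E x hx⟩ hP.symm, hρ Q ⟨y, hR₀E y hy⟩ hQ.symm]
  have hrange : σ.fieldRange = IntermediateField.adjoin k (Set.range s') := by
    ext x
    constructor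
    · rintro ⟨a, rfl⟩
      exact (ρ a).2
    · intro hx
      refine ⟨ρ.symm ⟨x, hx⟩, ?_⟩
      change ((ρ (ρ.symm ⟨x, hx⟩) : IntermediateField.adjoin k (Set.range s')) : Ω) = x
      rw [AlgEquiv.apply_symm_apply]
  obtain ⟨φ, hφ1, hφ2⟩ := exists_aut h hR0 (fun c => by
      rw [hRdef]
      exact le_lv v _ (hkR₀ c)) hN (IntermediateField.adjoin k (Set.range s)) hRE hEfr hΩ σ
    (fun a ha => by
      obtain ⟨P, Q, hQ0, hQv, -, h1⟩ := hσfr a ha
      obtain ⟨h2, h3⟩ := hcu Q hQ0 hQv
      rw [h1, div_eq_mul_inv]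
      exact mul_mem (hs'B P) (hB.inv _ (hs'B Q) h2 h3))
    (fun a ha hav => by
      obtain ⟨P, Q, hQ0, hQv, h0, h1⟩ := hσfr a ha
      obtain ⟨h2, h3⟩ := hcu Q hQ0 hQv
      have h4 : VPos v (MvPolynomial.aeval s P) := by
        have e : MvPolynomial.aeval s P = MvPolynomial.aeval s Q * (a : Ω) := by
          rw [h0, mul_div_cancel₀ _ hQ0]
        rw [e]
        exact LU1.VPos.mul' (hR₀0 _ (hPR₀ Q)) hav
      rw [h1, div_eq_mul_inv]
      exact (hcc P h4).mul (hB.nonneg _ (hB.inv _ (hs'B Q) h2 h3)))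
    (by
      rw [hrange]
      intro g
      exact E8.alg_of_count (s := s') (s' := s) hs' (fun i => hΩ _) (hΩ g))
  exact ⟨φ, fun i => by rw [← hσs i]; exact hφ1 ⟨s i, hsE i⟩, hφ2⟩

end Pool.Agent.TW
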