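import Pool.Agent.Lib.TWG.G6
import Pool.Agent.Lib.TWG.G2
import Pool.Agent.Lib.TW.Nak

/-!
# TANK W, motions: the Jacobian criterion

`s'_i ≡ ∑ J_ij s_j` modulo `(s)²` in the henselization `H` of `k[s]`, `det J` a unit: then `s'` is
algebraically independent, `H` is the henselization of `k[s']`, and there is an automorphism of `Ω`
which maps `s` to `s'` and `H` onto `H`.
-/

set_option autoImplicit false

open Polynomial

namespace Pool.Agent.TW

open Pool.Agent.H15JM (RVal)
open Pool.Agent.LU1 (VPos)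
open Pool.Agent.LUC (lv adj le_lv mem_lv lv_mono lv_le lv_inv lv_nonneg lv_lv base_le_adj mem_adj
  IP idl)
open Pool.Agent.D2 (Ctx0)

universe u

variable {k Ω : Type u} [Field k] [Field Ω] [Algebra k Ω] {v : RVal Ω}

theorem vpos_sumG {ι : Type*} (s : Finset ι) (f : ι → Ω) (h : ∀ i ∈ s, VPos v (f i)) :
    VPos v (∑ i ∈ s, f i) := by
  classical
  induction s using Finset.induction_on with
  | empty => simpa using LU1.VPos.zero
  | insert a s ha ih =>
    rw [Finset.sum_insert ha]
    exact (h a (Finset.mem_insert_self a s)).add (ih fun i hi => h i (Finset.mem_insert_of_mem hi))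

open NakAux in
/-- Nakayama's lemma for henselian rings, an ideal generated by several elements. -/
theorem mem_of_nakL [IsAlgClosed Ω] {B : Subring Ω} (hB : HClosed v B) {n m : ℕ}
    (τ : Fin n → Ω) (hτ0 : ∀ i, v.Ge 0 (τ i)) (w : Fin m → Ω) (hw : ∀ j, w j ∈ B)
    (hw0 : ∀ j, VPos v (w j))
    (hτ : ∀ i, ∃ a : Fin m → Ω,
      (∀ j, a j ∈ hensA v (Subring.closure ((B : Set Ω) ∪ Set.range τ))) ∧
      τ i = ∑ j, w j * a j) :
    ∀ i, τ i ∈ B := by
  classical
  have hA : ∀ a ∈ Subring.closure ((B : Set Ω) ∪ Set.range τ), v.Ge 0 a := by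
    intro a ha
    have hle : Subring.closure ((B : Set Ω) ∪ Set.range τ) ≤ OVt v := by
      rw [Subring.closure_le]
      rintro x (hx | ⟨i, rfl⟩)
      · exact hB.nonneg x hx
      · exact hτ0 i
    exact hle ha
  choose a ha hτa using hτ
  obtain ⟨g, θ, -, hθ, hg0, hg1, hg2, Q, hQ, hvQ, hPQ⟩ := exists_common hA
    (Finset.univ.image fun ij : Fin n × Fin m => a ij.1 ij.2) (by
      intro f hf
      obtain ⟨ij, -, rfl⟩ := Finset.mem_image.1 hf
      exact ha ij.1 ij.2)
  have h1 : ∀ i j, ∃ P : Polynomial (Subring.closure ((B : Set Ω) ∪ Set.range τ)),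
      a i j = aeval θ P / aeval θ Q := fun i j =>
    hPQ _ (Finset.mem_image.2 ⟨(i, j), Finset.mem_univ _, rfl⟩)
  choose P haPQ using h1
  choose LP hLP hLP1 hLP2 using fun i j => NakAux.exists_lift τ (P i j)
  obtain ⟨LQ, hLQ, hLQ1, hLQ2⟩ := NakAux.exists_lift τ Q
  obtain ⟨LG, hLG, hLG1, hLG2⟩ := NakAux.exists_lift τ g
  set x : Fin (n + 1) → Ω := Fin.snoc τ θ with hx
  have hxc : ∀ i : Fin n, x i.castSucc = τ i := fun i => by rw [hx, Fin.snoc_castSucc]
  have hx0 : ∀ i, v.Ge 0 (x i) := by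
    intro i
    refine Fin.lastCases ?_ (fun i => ?_) i
    · rw [hx, Fin.snoc_last]
      exact hθ
    · rw [hxc]
      exact hτ0 i
  have hτpos : ∀ i, VPos v (τ i) := by
    intro i
    rw [hτa i]
    refine vpos_sumG _ _ fun j _ => ?_
    rw [mul_comm]
    exact LU1.VPos.mul' ((hclosed_hensA hA).nonneg _ (ha i j)) (hw0 j)
  set F : Fin (n + 1) → MvPolynomial (Fin (n + 1)) Ω := Fin.snoc
    (fun i : Fin n => MvPolynomial.X i.castSucc * LQ -
      ∑ j, MvPolynomial.C (w j) * LP i j) LG with hF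
  have hFc : ∀ i : Fin n, F i.castSucc =
      MvPolynomial.X i.castSucc * LQ - ∑ j, MvPolynomial.C (w j) * LP i j := fun i => by
    rw [hF, Fin.snoc_castSucc]
  have hFl : F (Fin.last n) = LG := by rw [hF, Fin.snoc_last]
  have hFm : ∀ i, F i ∈ CB B (Fin (n + 1)) := by
    intro i
    refine Fin.lastCases ?_ (fun i => ?_) i
    · rw [hFl]
      exact hLG
    · rw [hFc]
      exact sub_mem (mul_mem (X_mem _) hLQ)
        (sum_mem fun j _ => mul_mem (C_mem (hw j)) (hLP i j))
  have hder : ∀ (i : Fin n) (j : Fin (n + 1)), ∃ e : Ω, VPos v e ∧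
      MvPolynomial.eval x (MvPolynomial.pderiv j (F i.castSucc)) =
        (if j = i.castSucc then aeval θ Q else 0) + e := by
    intro i j
    refine ⟨τ i * MvPolynomial.eval x (MvPolynomial.pderiv j LQ) -
      ∑ l, w l * MvPolynomial.eval x (MvPolynomial.pderiv j (LP i l)), ?_, ?_⟩
    · refine LU1.VPos.sub ?_ ?_
      · rw [mul_comm]
        exact LU1.VPos.mul' (eval_ge hB.nonneg hx0 (pderiv_mem hLQ j)) (hτpos i)
      · refine vpos_sumG _ _ fun l _ => ?_
        rw [mul_comm]
        exact LU1.VPos.mul' (eval_ge hB.nonneg hx0 (pderiv_mem (hLP i l) j)) (hw0 l)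
    · have hsum : MvPolynomial.eval x (MvPolynomial.pderiv j
          (∑ l, MvPolynomial.C (w l) * LP i l)) =
          ∑ l, w l * MvPolynomial.eval x (MvPolynomial.pderiv j (LP i l)) := by
        rw [map_sum, map_sum]
        refine Finset.sum_congr rfl fun l _ => ?_
        rw [MvPolynomial.pderiv_C_mul, map_mul, MvPolynomial.eval_C]
      rw [hFc, map_sub, map_sub, hsum, MvPolynomial.pderiv_mul, map_add,
        map_mul, map_mul, MvPolynomial.eval_X, hxc]
      by_cases hj : j = i.castSucc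
      · subst hj
        rw [MvPolynomial.pderiv_X_self, if_pos rfl, map_one, one_mul]
        have h4 : MvPolynomial.eval x LQ = aeval θ Q := hLQ1 θ
        rw [h4]
        ring
      · rw [MvPolynomial.pderiv_X_of_ne (Ne.symm hj), if_neg hj, map_zero, zero_mul]
        ring
  have key := mem_of_system hB F (fun i m => coeff_mem (hFm i) m) x hx0 ?_ ?_ ?_
  · intro i
    have := key i.castSucc
    rwa [hxc] at this
  · intro i
    refine Fin.lastCases ?_ (fun i => ?_) i
    · rw [hFl]
      exact (hLG1 θ).trans hg0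
    · have h4 : MvPolynomial.eval x LQ = aeval θ Q := hLQ1 θ
      have hsum : MvPolynomial.eval x (∑ l, MvPolynomial.C (w l) * LP i l) =
          ∑ l, w l * aeval θ (P i l) := by
        rw [map_sum]
        refine Finset.sum_congr rfl fun l _ => ?_
        have h5 : MvPolynomial.eval x (LP i l) = aeval θ (P i l) := hLP1 i l θ
        rw [map_mul, MvPolynomial.eval_C, h5]
      rw [hFc, map_sub, map_mul, MvPolynomial.eval_X, hxc, h4, hsum, hτa i, Finset.sum_mul,
        sub_eq_zero]
      refine Finset.sum_congr rfl fun l _ => ?_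
      rw [haPQ i l]
      field_simp [hQ]
  all_goals
    have hdet := det_unit (v := v)
      (Matrix.of fun i j => MvPolynomial.eval x (MvPolynomial.pderiv j (F i)))
      (fun i j => eval_ge hB.nonneg hx0 (pderiv_mem (hFm i) j)) (fun i => by
        refine Fin.lastCases ?_ (fun i => ?_) i
        · rw [Matrix.of_apply, hFl]
          have h4 : MvPolynomial.eval x (MvPolynomial.pderiv (Fin.last n) LG) =
              aeval θ (derivative g) := hLG2 θ
          rw [h4]
          exact ⟨hg1, hg2⟩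
        · obtain ⟨e, he, h2⟩ := hder i i.castSucc
          rw [Matrix.of_apply, h2, if_pos rfl]
          by_cases he0 : e = 0
          · rw [he0, add_zero]
            exact ⟨hQ, hvQ⟩
          · have h3 := v.add_of_lt hQ he0 (by rw [hvQ]; exact he he0)
            exact ⟨h3.1, h3.2.trans hvQ⟩) (fun i j hij => by
        have hi : i ≠ Fin.last n := fun h2 => by
          rw [h2] at hij
          exact absurd hij (not_lt.2 (Fin.le_last j))
        obtain ⟨i', rfl⟩ := Fin.exists_castSucc_eq.2 hi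
        obtain ⟨e, he, h2⟩ := hder i' j
        rw [Matrix.of_apply, h2, if_neg hij.ne', zero_add]
        exact he)
  · exact hdet.1
  · exact hdet.2

/-- `s_i ∈ ∑ w_j H`, `w_j ∈ B` of positive value, `H` the henselization of `A₀[s]`, `A₀ ≤ B`:
then `H ≤ B`. -/
theorem hensA_le_of_nak [IsAlgClosed Ω] {A₀ B : Subring Ω} (hB : HClosed v B) (hA₀ : A₀ ≤ B)
    {n m : ℕ} {s : Fin n → Ω} (hs : ∀ i, v.Ge 0 (s i)) (w : Fin m → Ω) (hw : ∀ j, w j ∈ B)
    (hw0 : ∀ j, VPos v (w j))
    (hτ : ∀ i, ∃ a : Fin m → Ω, (∀ j, a j ∈ hensA v (lv v (adj A₀ (Set.range s)))) ∧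
      s i = ∑ j, w j * a j) :
    hensA v (lv v (adj A₀ (Set.range s))) ≤ B := by
  have hX : ∀ f ∈ Subring.closure ((B : Set Ω) ∪ Set.range s), v.Ge 0 f := by
    intro f hf
    have hle : Subring.closure ((B : Set Ω) ∪ Set.range s) ≤ OVt v := by
      rw [Subring.closure_le]
      rintro x (hx | ⟨i, rfl⟩)
      · exact hB.nonneg x hx
      · exact hs i
    exact hle hf
  have h1 : adj A₀ (Set.range s) ≤ Subring.closure ((B : Set Ω) ∪ Set.range s) :=
    LUC.adj_le (fun a ha => Subring.subset_closure (Or.inl (hA₀ ha)))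
      fun a ha => Subring.subset_closure (Or.inr ha)
  have hC := hclosed_hensA hX
  have h2 : hensA v (lv v (adj A₀ (Set.range s))) ≤
      hensA v (Subring.closure ((B : Set Ω) ∪ Set.range s)) :=
    hensA_le (lv_le (h1.trans (le_hensA _)) hC.inv) hC
  have h3 := mem_of_nakL hB s hs w hw hw0 fun i => by
    obtain ⟨a, ha, e⟩ := hτ i
    exact ⟨a, fun j => h2 (ha j), e⟩
  refine hensA_le (lv_le (LUC.adj_le hA₀ ?_) hB.inv) hB
  rintro _ ⟨i, rfl⟩
  exact h3 i

open E8 in
/-- The henselization is algebraic over the field of fractions. -/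
theorem hensA_algebraic {A : Subring Ω} {E : IntermediateField k Ω} (hA : ∀ a ∈ A, v.Ge 0 a)
    (hAE : ∀ a ∈ A, a ∈ E) : ∀ f ∈ hensA v A, IsAlgebraic E f := by
  have h1 : HClosed v (OV v (algF E)) := by
    refine ⟨fun f hf => hf.2, ?_, ?_⟩
    · intro f hf h0 hv
      refine ⟨(algF E).inv_mem hf.1, fun _ => ?_⟩
      rw [v.map_inv h0, hv, neg_zero]
    · intro g a hg ha h0 hd0 _
      refine ⟨algF_closed ?_, ha⟩
      have h2 : g ∈ Polynomial.lifts (algebraMap (algF E) Ω) := by
        rw [Polynomial.lifts_iff_coeff_lifts]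
        intro i
        exact ⟨⟨g.coeff i, (hg i).1⟩, rfl⟩
      obtain ⟨P, hP⟩ := h2
      have hP' : P.map (algebraMap (algF E) Ω) = g := hP
      refine ⟨P, ?_, ?_⟩
      · rintro rfl
        apply hd0
        rw [← hP', Polynomial.map_zero, derivative_zero, eval_zero]
      · rw [aeval_def, ← eval_map, hP', h0]
  intro f hf
  have h2 := hensA_le (v := v) (A := A) (B := OV v (algF E)) (fun a ha =>
    ⟨le_algF E (hAE a ha), hA a ha⟩) h1 hf
  exact mem_algF.1 h2.1

open E8 in
open scoped IntermediateField.algebraAdjoinAdjoin in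
/-- `s` algebraically independent and algebraic over `k(s')`: `s'` is algebraically independent. -/
theorem algInd_of_alg {n : ℕ} {s s' : Fin n → Ω} (hs : AlgebraicIndependent k s)
    (h : ∀ i, IsAlgebraic (IntermediateField.adjoin k (Set.range s')) (s i)) :
    AlgebraicIndependent k s' := by
  set E := IntermediateField.adjoin k (Set.range s') with hE
  let z : Fin n → E := fun i => ⟨s' i, IntermediateField.subset_adjoin _ _ ⟨i, rfl⟩⟩
  have htop : IntermediateField.adjoin k (Set.range z) = ⊤ := by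
    apply IntermediateField.map_injective E.val
    rw [IntermediateField.adjoin_map, ← Set.range_comp, ← AlgHom.fieldRange_eq_map,
      IntermediateField.fieldRange_val]
    rfl
  have h4 : AlgebraicIndependent k (fun i => (⟨s i, mem_algF.2 (h i)⟩ : algF E)) :=
    AlgebraicIndependent.of_comp (algF E).val hs
  have h5 := h4.lift_cardinalMk_le_trdeg
  rw [trdeg_eq_of_alg (le_algF E) fun a ha => mem_algF.1 ha] at h5
  have halg : Algebra.IsAlgebraic (Algebra.adjoin k (Set.range z)) E := by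
    have h1 : Algebra.IsAlgebraic (Algebra.adjoin k (Set.range z))
        (IntermediateField.adjoin k (Set.range z)) :=
      IsLocalization.isAlgebraic _ (nonZeroDivisors (Algebra.adjoin k (Set.range z)))
    refine ⟨fun e => ?_⟩
    have he : e ∈ IntermediateField.adjoin k (Set.range z) := by rw [htop]; trivial
    have h2 := h1.isAlgebraic ⟨e, he⟩
    exact h2.algHom (IsScalarTower.toAlgHom (Algebra.adjoin k (Set.range z))
      (IntermediateField.adjoin k (Set.range z)) E)
  have h1 := (Algebra.IsAlgebraic.isTranscendenceBasis_of_lift_le_trdeg_of_finite k z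
    (by simpa using h5)).1
  have h2 := h1.map' (f := E.val) Subtype.val_injective
  exact h2

/-- **Jacobian criterion.** -/
theorem jac_hensA [IsAlgClosed Ω] (h : Ctx0 k v) {n : ℕ} {s s' : Fin n → Ω}
    (hpos : ∀ i, VPos v (s i)) (hpos' : ∀ i, VPos v (s' i))
    (hs'm : ∀ i, s' i ∈ hensA v (lv v (adj (algebraMap k Ω).range (Set.range s))))
    (hJ : ∀ i, IP (hensA v (lv v (adj (algebraMap k Ω).range (Set.range s)))) s' 1 (s i)) :
    hensA v (lv v (adj (algebraMap k Ω).range (Set.range s'))) =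
      hensA v (lv v (adj (algebraMap k Ω).range (Set.range s))) := by
  have hnn : ∀ {t : Fin n → Ω}, (∀ i, VPos v (t i)) →
      ∀ f ∈ lv v (adj (algebraMap k Ω).range (Set.range t)), v.Ge 0 f := by
    intro t ht
    refine lv_nonneg (LUC.adj_nonneg ?_ ?_)
    · rintro _ ⟨c, rfl⟩
      exact h.ge c
    · rintro _ ⟨i, rfl⟩
      exact (ht i).ge
  have hH := hclosed_hensA (hnn hpos)
  have hB := hclosed_hensA (hnn hpos')
  have hk : ∀ (t : Fin n → Ω), (algebraMap k Ω).range ≤
      hensA v (lv v (adj (algebraMap k Ω).range (Set.range t))) := fun t a ha =>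
    le_hensA _ (le_lv v _ (base_le_adj _ _ ha))
  refine le_antisymm (hensA_le (lv_le (LUC.adj_le (hk s) ?_) hH.inv) hH) ?_
  · rintro _ ⟨i, rfl⟩
    exact hs'm i
  · refine hensA_le_of_nak hB (hk s') (fun i => (hpos i).ge) s'
      (fun j => le_hensA _ (le_lv v _ (mem_adj ⟨j, rfl⟩))) hpos' fun i => ?_
    obtain ⟨a, ha, e⟩ := (IP.one_iff hs'm).1 (hJ i)
    exact ⟨a, ha, e.trans (Finset.sum_congr rfl fun j _ => mul_comm _ _)⟩

/-- `s'_i ≡ ∑ J_ij s_j` modulo `(s)²`, `det J` a unit: the `s_i` are in the ideal of the `s'_j`. -/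
theorem ip_of_det {B : Subring Ω} (hB : HClosed v B) {n : ℕ} {s s' : Fin n → Ω}
    (hs : ∀ i, s i ∈ B) (hpos : ∀ i, VPos v (s i)) (J : Fin n → Fin n → Ω)
    (hJ : ∀ i j, J i j ∈ B) (hd0 : (Matrix.of J).det ≠ 0) (hdv : v (Matrix.of J).det = 0)
    (hs' : ∀ i, IP B s 2 (s' i - ∑ j, J i j * s j)) : ∀ i, IP B s' 1 (s i) := by
  classical
  -- the elements of `(s)²`
  have h1 : ∀ f, IP B s 2 f → ∃ c : Fin n → Ω, (∀ j, c j ∈ B ∧ VPos v (c j)) ∧
      f = ∑ j, c j * s j := by
    intro f hf
    obtain ⟨c, hc, e⟩ := (IP.sum_iff hs).1 hf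
    refine ⟨fun j => ∑ φ : Fin 2 → Fin n, if φ 0 = j then c φ * s (φ 1) else 0,
      fun j => ⟨sum_mem fun φ _ => ?_, vpos_sumG _ _ fun φ _ => ?_⟩, ?_⟩
    · split_ifs
      · exact mul_mem (hc φ) (hs _)
      · exact zero_mem _
    · split_ifs
      · exact LU1.VPos.mul' (hB.nonneg _ (hc φ)) (hpos _)
      · exact LU1.VPos.zero
    · rw [e]
      simp only [Finset.sum_mul]
      rw [Finset.sum_comm]
      refine Finset.sum_congr rfl fun φ _ => ?_
      rw [Finset.sum_eq_single (φ 0)]
      · rw [if_pos rfl, Fin.prod_univ_two]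
        ring
      · intro b _ hb
        rw [if_neg (Ne.symm hb), zero_mul]
      · intro hcon
        exact absurd (Finset.mem_univ _) hcon
  choose c hc e using fun i => h1 _ (hs' i)
  obtain ⟨M, hM⟩ : ∃ M : Matrix (Fin n) (Fin n) Ω, M = Matrix.of fun i j => J i j + c i j :=
    ⟨_, rfl⟩
  have hMB : ∀ i j, M i j ∈ B := fun i j => by
    rw [hM, Matrix.of_apply]
    exact add_mem (hJ i j) (hc i j).1
  have hMs : ∀ i, s' i = ∑ j, M i j * s j := by
    intro i
    have h2 := e i
    have h3 : ∑ j, M i j * s j = ∑ j, J i j * s j + ∑ j, c i j * s j := by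
      rw [← Finset.sum_add_distrib]
      refine Finset.sum_congr rfl fun j _ => ?_
      rw [hM, Matrix.of_apply]
      ring
    rw [h3, ← h2]
    ring
  -- the matrices over `B`
  obtain ⟨M₀, hM₀⟩ : ∃ M₀ : Matrix (Fin n) (Fin n) B, M₀ = Matrix.of fun i j => ⟨M i j, hMB i j⟩ :=
    ⟨_, rfl⟩
  obtain ⟨J₀, hJ₀⟩ : ∃ J₀ : Matrix (Fin n) (Fin n) B, J₀ = Matrix.of fun i j => ⟨J i j, hJ i j⟩ :=
    ⟨_, rfl⟩
  have hMd : ((M₀.det : B) : Ω) = M.det := by
    have h2 := RingHom.map_det B.subtype M₀
    rw [show B.subtype M₀.det = ((M₀.det : B) : Ω) from rfl] at h2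
    rw [h2]
    congr 1
    ext i j
    rw [hM₀]
    rfl
  have hJd : ((J₀.det : B) : Ω) = (Matrix.of J).det := by
    have h2 := RingHom.map_det B.subtype J₀
    rw [show B.subtype J₀.det = ((J₀.det : B) : Ω) from rfl] at h2
    rw [h2]
    congr 1
    ext i j
    rw [hJ₀]
    rfl
  -- the ideal of the elements of positive value
  let I : Ideal B :=
    { carrier := {b | VPos v (b : Ω)}
      add_mem' := fun {a b} ha hb => LU1.VPos.add ha hb
      zero_mem' := LU1.VPos.zero
      smul_mem' := fun a b hb => LU1.VPos.mul' (hB.nonneg _ a.2) hb }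
  have hdet : M₀.det - J₀.det ∈ I := by
    rw [← Ideal.Quotient.mk_eq_mk_iff_sub_mem, RingHom.map_det, RingHom.map_det]
    congr 1
    ext i j
    change Ideal.Quotient.mk I (M₀ i j) = Ideal.Quotient.mk I (J₀ i j)
    rw [Ideal.Quotient.mk_eq_mk_iff_sub_mem]
    change VPos v (((M₀ i j - J₀ i j : B)) : Ω)
    have h2 : ((M₀ i j - J₀ i j : B) : Ω) = c i j := by
      rw [hM₀, hJ₀, Matrix.of_apply, Matrix.of_apply]
      change M i j - J i j = c i j
      rw [hM, Matrix.of_apply]
      ring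
    rw [h2]
    exact (hc i j).2
  have hdet' : VPos v (M.det - (Matrix.of J).det) := by
    rw [← hMd, ← hJd]
    exact hdet
  have hu : M.det ≠ 0 ∧ v M.det = 0 := by
    refine unit_of_not_VPos ?_ fun hcon => ?_
    · rw [← hMd]
      exact hB.nonneg _ M₀.det.2
    · refine not_VPos_of_unit hd0 hdv ?_
      have h2 := hcon.sub hdet'
      rwa [sub_sub_cancel] at h2
  have hui : (M.det)⁻¹ ∈ B := by
    refine hB.inv _ ?_ hu.1 hu.2
    rw [← hMd]
    exact M₀.det.2
  have hs'B : ∀ i, s' i ∈ B := fun i => by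
    rw [hMs]
    exact sum_mem fun j _ => mul_mem (hMB i j) (hs j)
  intro i
  refine (IP.one_iff hs'B).2 ⟨fun l => (M.det)⁻¹ * M.adjugate i l, fun l => ?_, ?_⟩
  · refine mul_mem hui ?_
    have h2 := RingHom.map_adjugate B.subtype M₀
    have h3 : B.subtype.mapMatrix M₀ = M := by
      ext a b
      rw [hM₀]
      rfl
    rw [h3] at h2
    rw [← h2]
    exact (M₀.adjugate i l).2
  · have h2 : M.adjugate.mulVec (M.mulVec s) = M.det • s := by
      rw [Matrix.mulVec_mulVec, Matrix.adjugate_mul, Matrix.smul_mulVec, Matrix.one_mulVec]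
    have h3 : M.mulVec s = s' := by
      ext l
      rw [hMs l]
      rfl
    rw [h3] at h2
    have h4 := congrFun h2 i
    rw [Pi.smul_apply, smul_eq_mul] at h4
    have h5 : ∑ l, (M.det)⁻¹ * M.adjugate i l * s' l = (M.det)⁻¹ * ∑ l, M.adjugate i l * s' l := by
      rw [Finset.mul_sum]
      exact Finset.sum_congr rfl fun l _ => mul_assoc _ _ _
    rw [h5]
    change s i = _
    have h6 : ∑ l, M.adjugate i l * s' l = M.det * s i := h4
    rw [h6, ← mul_assoc, inv_mul_cancel₀ hu.1, one_mul]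

/-- A simple root is determined by its residue. -/
theorem root_unique {g : Polynomial Ω} (hg : ∀ i, v.Ge 0 (g.coeff i)) {a b : Ω} (ha : v.Ge 0 a)
    (ha0 : g.eval a = 0) (hb0 : g.eval b = 0) (hd0 : g.derivative.eval a ≠ 0)
    (hdv : v (g.derivative.eval a) = 0) (hab : VPos v (b - a)) : b = a := by
  have hgI : g ∈ PolyIn (OVt v) := by
    rw [mem_PolyIn]
    exact hg
  obtain ⟨q, hq, e⟩ := taylor2 hgI (x := a) (y := b - a) ha hab.ge
  rw [add_sub_cancel, ha0, hb0, zero_add] at e
  by_contra hcon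
  have h0 : b - a ≠ 0 := sub_ne_zero.2 hcon
  have h1 : g.derivative.eval a = -(q * (b - a)) := by
    have h2 : (b - a) * (g.derivative.eval a + q * (b - a)) = 0 := by
      linear_combination -e
    rcases mul_eq_zero.1 h2 with h3 | h3
    · exact absurd h3 h0
    · linear_combination h3
  refine not_VPos_of_unit hd0 hdv ?_
  rw [h1]
  exact (LU1.VPos.mul' hq hab).neg

/-- **Uniqueness.**  An automorphism of `Ω` which fixes `R` and the residues of the henselization of
`R` is the identity on the henselization. -/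
theorem aut_fix (h : Ctx0 k v) {R : Subring Ω} (hR : ∀ a ∈ R, v.Ge 0 a)
    (hk : ∀ c : k, algebraMap k Ω c ∈ R) (χ : Ω ≃ₐ[k] Ω) (hχ : ∀ a ∈ R, χ a = a)
    (hres : ∀ f ∈ hensA v R, VPos v f → VPos v (χ f)) : ∀ f ∈ hensA v R, χ f = f := by
  intro f hf
  obtain ⟨g, θ, -, hθ, hg0, hg1, hg2, Q, hQ, hvQ, hPQ⟩ := exists_common hR {f} (by simpa using hf)
  obtain ⟨P, hP⟩ := hPQ f (Finset.mem_singleton_self f)
  have hθm := root_mem_hensA hR hθ hg0 hg1 hg2
  have hev : ∀ (p : Polynomial R) (x : Ω), (p.map (algebraMap R Ω)).eval x = aeval x p := by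
    intro p x
    rw [eval_map_algebraMap]
  have hχp : ∀ (p : Polynomial R) (x : Ω), aeval (χ x) p = χ (aeval x p) := by
    intro p x
    induction p using Polynomial.induction_on' with
    | add p q h1 h2 => rw [map_add, map_add, map_add, h1, h2]
    | monomial m a =>
      rw [aeval_monomial, aeval_monomial, map_mul, map_pow]
      congr 1
      exact (hχ _ a.2).symm
  obtain ⟨c, hc⟩ := h.residue hθ
  have h1 : VPos v (χ θ - algebraMap k Ω c) := by
    have h2 := hres _ (sub_mem hθm (le_hensA R (hk c))) hc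
    rwa [map_sub, AlgEquiv.commutes] at h2
  have h3 : χ θ = θ := by
    refine root_unique (g := g.map (algebraMap R Ω)) (fun i => ?_) hθ ?_ ?_ ?_ ?_ ?_
    · rw [coeff_map]
      exact hR _ (g.coeff i).2
    · rw [hev, hg0]
    · rw [hev, hχp, hg0, map_zero]
    · rw [derivative_map, hev]
      exact hg1
    · rw [derivative_map, hev]
      exact hg2
    · have h4 := h1.sub hc
      rwa [sub_sub_sub_cancel_right] at h4
  rw [hP, map_div₀, ← hχp, ← hχp, h3]

/-- **THEOREM (motions from a Jacobian).** -/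
theorem jac_motion [IsAlgClosed Ω] (h : Ctx0 k v) {n : ℕ} {s s' : Fin n → Ω}
    (hs : AlgebraicIndependent k s) (hpos : ∀ i, VPos v (s i))
    (hΩ : ∀ g : Ω, IsAlgebraic (IntermediateField.adjoin k (Set.range s)) g)
    (J : Fin n → Fin n → Ω)
    (hJ : ∀ i j, J i j ∈ hensA v (lv v (adj (algebraMap k Ω).range (Set.range s))))
    (hd0 : (Matrix.of J).det ≠ 0) (hdv : v (Matrix.of J).det = 0)
    (hs' : ∀ i, IP (hensA v (lv v (adj (algebraMap k Ω).range (Set.range s)))) s 2
      (s' i - ∑ j, J i j * s j)) :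
    AlgebraicIndependent k s' ∧ (∀ i, VPos v (s' i)) ∧
    hensA v (lv v (adj (algebraMap k Ω).range (Set.range s'))) =
      hensA v (lv v (adj (algebraMap k Ω).range (Set.range s))) ∧
    ∃ φ : Ω ≃ₐ[k] Ω, (∀ i, φ (s i) = s' i) ∧
      ∀ f, φ f ∈ hensA v (lv v (adj (algebraMap k Ω).range (Set.range s))) ↔
        f ∈ hensA v (lv v (adj (algebraMap k Ω).range (Set.range s))) := by
  have hnn : ∀ {t : Fin n → Ω}, (∀ i, VPos v (t i)) →
      ∀ f ∈ lv v (adj (algebraMap k Ω).range (Set.range t)), v.Ge 0 f := by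
    intro t ht
    refine lv_nonneg (LUC.adj_nonneg ?_ ?_)
    · rintro _ ⟨c, rfl⟩
      exact h.ge c
    · rintro _ ⟨i, rfl⟩
      exact (ht i).ge
  have hH := hclosed_hensA (hnn hpos)
  have hsm : ∀ (t : Fin n → Ω) (i : Fin n), t i ∈ lv v (adj (algebraMap k Ω).range (Set.range t)) :=
    fun t i => le_lv v _ (mem_adj ⟨i, rfl⟩)
  have hsH : ∀ i, s i ∈ hensA v (lv v (adj (algebraMap k Ω).range (Set.range s))) := fun i =>
    le_hensA _ (hsm s i)
  have hkm : ∀ (t : Fin n → Ω) (c : k),
      algebraMap k Ω c ∈ lv v (adj (algebraMap k Ω).range (Set.range t)) := fun t c =>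
    le_lv v _ (base_le_adj _ _ ⟨c, rfl⟩)
  have hdec : ∀ i, s' i = (s' i - ∑ j, J i j * s j) + ∑ j, J i j * s j := fun i => by ring
  have hs'm : ∀ i, s' i ∈ hensA v (lv v (adj (algebraMap k Ω).range (Set.range s))) := fun i => by
    rw [hdec i]
    exact add_mem (hs' i).mem (sum_mem fun j _ => mul_mem (hJ i j) (hsH j))
  have hpos' : ∀ i, VPos v (s' i) := fun i => by
    rw [hdec i]
    refine (((hs' i).anti (M := 1) (by norm_num)).vpos hH.nonneg hpos hsH).add
      (vpos_sumG _ _ fun j _ => LU1.VPos.mul' (hH.nonneg _ (hJ i j)) (hpos j))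
  have hIP := ip_of_det hH hsH hpos J hJ hd0 hdv hs'
  have hEq := jac_hensA h hpos hpos' hs'm hIP
  have hsE : ∀ f ∈ lv v (adj (algebraMap k Ω).range (Set.range s')),
      f ∈ IntermediateField.adjoin k (Set.range s') := by
    have h1 : adj (algebraMap k Ω).range (Set.range s') ≤
        (IntermediateField.adjoin k (Set.range s')).toSubfield.toSubring :=
      LUC.adj_le (by
        rintro _ ⟨c, rfl⟩
        exact (IntermediateField.adjoin k (Set.range s')).algebraMap_mem c) (by
        rintro _ ⟨i, rfl⟩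
        exact IntermediateField.subset_adjoin k _ ⟨i, rfl⟩)
    rintro f ⟨a, ha, b, hb, -, -, rfl⟩
    exact div_mem (h1 ha) (h1 hb)
  have halg : ∀ f ∈ hensA v (lv v (adj (algebraMap k Ω).range (Set.range s))),
      IsAlgebraic (IntermediateField.adjoin k (Set.range s')) f := by
    intro f hf
    rw [← hEq] at hf
    exact hensA_algebraic (hnn hpos') hsE f hf
  have hind := algInd_of_alg hs fun i => halg _ (hsH i)
  have hΩ' : ∀ g : Ω, IsAlgebraic (IntermediateField.adjoin k (Set.range s')) g := by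
    intro g
    have h1 : IntermediateField.adjoin k (Set.range s) ≤
        E8.algF (IntermediateField.adjoin k (Set.range s')) := by
      rw [IntermediateField.adjoin_le_iff]
      rintro _ ⟨i, rfl⟩
      exact E8.mem_algF.2 (halg _ (hsH i))
    have h2 : IsAlgebraic (E8.algF (IntermediateField.adjoin k (Set.range s'))) g := by
      obtain ⟨P, hP0, hP⟩ := hΩ g
      refine ⟨P.map (IntermediateField.inclusion h1).toRingHom,
        (Polynomial.map_ne_zero_iff (IntermediateField.inclusion h1).toRingHom.injective).2 hP0, ?_⟩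
      rw [aeval_def, eval₂_map]
      exact hP
    exact E8.mem_algF.1 (E8.algF_closed h2)
  obtain ⟨φ, hφs, hφH⟩ := exists_motion h hs hind hpos hpos' hs'm hΩ
  obtain ⟨ψ, hψs, hψH⟩ := exists_motion h hind hs hpos' hpos (fun i => by
    rw [hEq]
    exact hsH i) hΩ'
  rw [hEq] at hψH
  -- the maximal ideals
  have hgen : ∀ (t : Fin n → Ω), (∀ i, VPos v (t i)) →
      ∀ f ∈ lv v (adj (algebraMap k Ω).range (Set.range t)), VPos v f →
        IP (lv v (adj (algebraMap k Ω).range (Set.range t))) t 1 f := by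
    intro t ht f hf hfv
    obtain ⟨a, ha, b, hb, hb0, hbv, rfl⟩ := hf
    rw [adj_eq_ksub] at ha
    obtain ⟨P, rfl⟩ := mem_ksub_iff.1 ha
    have h1 := aeval_vpos h ht P
    have h2 : VPos v (MvPolynomial.aeval t P) := by
      have h3 : MvPolynomial.aeval t P = b * (MvPolynomial.aeval t P / b) := by
        field_simp
      rw [h3]
      refine LU1.VPos.mul' (fun _ => ?_) hfv
      rw [hbv]
    have h3 : VPos v (algebraMap k Ω (MvPolynomial.constantCoeff P)) := by
      have h4 := h2.sub h1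
      rwa [sub_sub_cancel] at h4
    have h4 := h.const_eq_zero h3
    have h5 : ∀ Q : MvPolynomial (Fin n) k,
        IP (lv v (adj (algebraMap k Ω).range (Set.range t))) t 1
          (MvPolynomial.aeval t Q - algebraMap k Ω (MvPolynomial.constantCoeff Q)) := by
      intro Q
      induction Q using MvPolynomial.induction_on with
      | C c =>
        rw [MvPolynomial.aeval_C, MvPolynomial.constantCoeff_C, sub_self]
        exact IP.zero
      | add P Q hP hQ =>
        have e : MvPolynomial.aeval t (P + Q) -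
            algebraMap k Ω (MvPolynomial.constantCoeff (P + Q)) =
            (MvPolynomial.aeval t P - algebraMap k Ω (MvPolynomial.constantCoeff P)) +
            (MvPolynomial.aeval t Q - algebraMap k Ω (MvPolynomial.constantCoeff Q)) := by
          simp only [map_add]
          ring
        rw [e]
        exact hP.add hQ
      | mul_X P i hP =>
        have e : MvPolynomial.aeval t (P * MvPolynomial.X i) -
            algebraMap k Ω (MvPolynomial.constantCoeff (P * MvPolynomial.X i)) =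
            MvPolynomial.aeval t P * t i := by
          simp
        rw [e]
        refine (IP.gen (hsm t i)).mul_left ?_
        refine le_lv v _ ?_
        rw [adj_eq_ksub]
        exact mem_ksub_iff.2 ⟨P, rfl⟩
    have h6 := h5 P
    rw [h4, map_zero, sub_zero] at h6
    rw [div_eq_mul_inv]
    exact h6.mul_right (lv_inv (le_lv v _ hb) hb0 hbv)
  have hloc : ∀ (χ : Ω ≃ₐ[k] Ω) (t t' : Fin n → Ω), (∀ i, VPos v (t i)) → (∀ i, VPos v (t' i)) →
      (∀ i, χ (t i) = t' i) →
      (∀ f ∈ hensA v (lv v (adj (algebraMap k Ω).range (Set.range t))), v.Ge 0 (χ f)) →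
      ∀ f ∈ hensA v (lv v (adj (algebraMap k Ω).range (Set.range t))), VPos v f →
        VPos v (χ f) := by
    intro χ t t' ht ht' hχ hχH f hf hfv
    have h1 := hensA_gen h (hnn ht) (hkm t) (hsm t) (hgen t ht) f hf hfv
    obtain ⟨a, ha, e⟩ := (IP.one_iff fun i => le_hensA _ (hsm t i)).1 h1
    rw [e, map_sum]
    refine vpos_sumG _ _ fun i _ => ?_
    rw [map_mul, hχ]
    exact LU1.VPos.mul' (hχH _ (ha i)) (ht' i)
  have hfix : ∀ (χ : Ω ≃ₐ[k] Ω) (t : Fin n → Ω), (∀ i, VPos v (t i)) → (∀ i, χ (t i) = t i) →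
      (∀ f ∈ hensA v (lv v (adj (algebraMap k Ω).range (Set.range t))), v.Ge 0 (χ f)) →
      ∀ f ∈ hensA v (lv v (adj (algebraMap k Ω).range (Set.range t))), χ f = f := by
    intro χ t ht hχ hχH
    refine aut_fix h (hnn ht) (hkm t) χ (fun a ha => ?_) (hloc χ t t ht ht hχ hχH)
    have h1 : ∀ b ∈ adj (algebraMap k Ω).range (Set.range t), χ b = b := by
      intro b hb
      rw [adj_eq_ksub] at hb
      obtain ⟨P, rfl⟩ := mem_ksub_iff.1 hb
      induction P using MvPolynomial.induction_on with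
      | C c => rw [MvPolynomial.aeval_C, AlgEquiv.commutes]
      | add P Q hP hQ =>
        rw [map_add, map_add, hP (mem_ksub_iff.2 ⟨P, rfl⟩),
          hQ (mem_ksub_iff.2 ⟨Q, rfl⟩)]
      | mul_X P i hP =>
        rw [map_mul, map_mul, MvPolynomial.aeval_X, hχ,
          hP (mem_ksub_iff.2 ⟨P, rfl⟩)]
    obtain ⟨x, hx, y, hy, -, -, rfl⟩ := ha
    rw [map_div₀, h1 x hx, h1 y hy]
  refine ⟨hind, hpos', hEq, φ, hφs, fun f => ⟨fun hf => ?_, fun hf => hφH f hf⟩⟩
  -- `φ ψ` is the identity on `H`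
  have h1 := hfix (ψ.trans φ) s' hpos' (fun i => by
    rw [AlgEquiv.trans_apply, hψs, hφs]) (fun g hg => by
    rw [hEq] at hg
    exact hH.nonneg _ (hφH _ (hψH g hg)))
  rw [hEq] at h1
  have h2 := h1 (φ f) hf
  rw [AlgEquiv.trans_apply] at h2
  have h3 := φ.injective h2
  rw [← h3]
  exact hψH _ hf

end Pool.Agent.TW
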