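import Pool.Agent.Lib.TWG.GDd

/-!
# TANK W, Gauss descent

`gauss_descent`: if the residue of `u` is generic over `L`, the residue field of `L` is finitely
generated over `k`, and `L(u)` is log uniformizable, then `L` is log uniformizable.
-/

set_option autoImplicit false

open Polynomial

namespace Pool.Agent.TW

open Pool.Agent.H15JM (RVal)
open Pool.Agent.LU1 (VPos adj val_add_vpos)
open Pool.Agent.LUC (LUs QuoIs lv le_lv lv_inv lv_nonneg Par SM IP IsMod)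
open Pool.Agent.TWT (cen mem_cen notMem_cen)

universe u

variable {k Ω : Type u} [Field k] [Field Ω] [Algebra k Ω] {v : RVal Ω}

open GD in
/-- **Gauss descent.** -/
theorem gauss_descent [Infinite k] [IsAlgClosed Ω] (ht : Triv k v) {L : IntermediateField k Ω}
    {Y : Finset Ω} (hY : ResGen k v L Y) {u : Ω} (hg : GenRes v L u)
    (hLU : LUs v (algebraMap k Ω).range (adj L u).toSubfield) :
    LUs v (algebraMap k Ω).range L.toSubfield := by
  classical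
  have hresG := resGen_gauss ht hY hg
  have hQins := fun (A : Set Ω) (h : QuoIs (LUC.adj (algebraMap k Ω).range A) L.toSubfield) =>
    quoIs_insert (u := u) h
  obtain ⟨hY1, -⟩ := hY
  obtain ⟨hu0, huv⟩ := genRes_val hg
  have hu : v.Ge 0 u := fun _ => huv.ge
  obtain ⟨R, hR⟩ : ∃ R : Subring Ω, R = (algebraMap k Ω).range := ⟨_, rfl⟩
  have hRv : ∀ a ∈ R, v.Ge 0 a := by
    rw [hR]
    rintro _ ⟨a, rfl⟩ ha
    rw [ht a (by rintro rfl; simp at ha)]
  have hRL : ∀ a ∈ R, a ∈ L := by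
    rw [hR]
    rintro _ ⟨a, rfl⟩
    exact L.algebraMap_mem a
  have hkR : ∀ c : k, algebraMap k Ω c ∈ R := by
    intro c
    rw [hR]
    exact ⟨c, rfl⟩
  have hRn : IsNoetherianRing R := by
    rw [hR]
    exact isNoetherianRing_range (algebraMap k Ω)
  unfold ResGen at hresG
  rw [← hR] at hresG hLU ⊢
  intro A hA hQ T hT
  have hQins' := hQins A (by rw [← hR]; exact hQ)
  rw [← hR] at hQins'
  -- denominators of the elements of `Y`
  have hβ0 : ∀ y : Ω, ∃ β : Ω, y ∈ Y → β ∈ LUC.adj R (A : Set Ω) ∧ β ≠ 0 ∧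
      ∃ α ∈ LUC.adj R (A : Set Ω), y = α / β := by
    intro y
    by_cases hy : y ∈ Y
    · obtain ⟨α, hα, β, hβ, hβ0, h1⟩ := hQ.2 y (hY1 y hy).1
      exact ⟨β, fun _ => ⟨hβ, hβ0, α, hα, h1⟩⟩
    · exact ⟨0, fun h => absurd h hy⟩
  choose β hβ using hβ0
  obtain ⟨A₁, hA₁⟩ : ∃ A₁ : Finset Ω, A₁ = A ∪ Y := ⟨_, rfl⟩
  obtain ⟨A₂, hA₂⟩ : ∃ A₂ : Finset Ω, A₂ = insert u A₁ := ⟨_, rfl⟩
  obtain ⟨T₁, hT₁⟩ : ∃ T₁ : Finset Ω, T₁ = T ∪ Y.image β := ⟨_, rfl⟩
  have hA₁L : ∀ a ∈ A₁, a ∈ L := by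
    intro a ha
    rw [hA₁, Finset.mem_union] at ha
    rcases ha with ha | ha
    · exact hQ.1 a (LUC.mem_adj ha)
    · exact (hY1 a ha).1
  have hA₁v : ∀ a ∈ A₁, v.Ge 0 a := by
    intro a ha
    rw [hA₁, Finset.mem_union] at ha
    rcases ha with ha | ha
    · exact hA a ha
    · exact (hY1 a ha).2
  have hAA₁ : LUC.adj R (A : Set Ω) ≤ LUC.adj R (A₁ : Set Ω) :=
    LUC.adj_mono le_rfl (by
      rw [hA₁, Finset.coe_union]
      exact Set.subset_union_left)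
  have hQ₁ : QuoIs (LUC.adj R (A₁ : Set Ω)) L.toSubfield := by
    refine ⟨fun f hf => ?_, fun f hf => ?_⟩
    · exact LUC.adj_induction (p := fun f => f ∈ L.toSubfield) hRL hA₁L (fun _ _ => add_mem)
        (fun _ _ => mul_mem) hf
    · obtain ⟨a, ha, b, hb, h1⟩ := hQ.2 f hf
      exact ⟨a, hAA₁ ha, b, hAA₁ hb, h1⟩
  have hcoe₂ : (A₂ : Set Ω) = insert u (A₁ : Set Ω) := by rw [hA₂, Finset.coe_insert]
  have hQ₂ : QuoIs (LUC.adj R (A₂ : Set Ω)) (adj L u).toSubfield := by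
    have h1 := hQins (A₁ : Set Ω) (by rw [← hR]; exact hQ₁)
    rw [← hR] at h1
    rw [hcoe₂]
    exact h1
  have hA₂v : ∀ a ∈ A₂, v.Ge 0 a := by
    intro a ha
    rw [hA₂, Finset.mem_insert] at ha
    rcases ha with rfl | ha
    · exact hu
    · exact hA₁v a ha
  have hA₁A₂ : LUC.adj R (A₁ : Set Ω) ≤ LUC.adj R (A₂ : Set Ω) :=
    LUC.adj_mono le_rfl (by rw [hcoe₂]; exact Set.subset_insert _ _)
  have hβL : ∀ y ∈ Y, β y ∈ L := fun y hy => hQ.1 _ (hβ y hy).1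
  have hT₁L : ∀ t ∈ T₁, t ∈ L ∧ t ≠ 0 := by
    intro t ht'
    rw [hT₁, Finset.mem_union, Finset.mem_image] at ht'
    rcases ht' with h1 | ⟨y, hy, rfl⟩
    · exact hT t h1
    · exact ⟨hβL y hy, (hβ y hy).2.1⟩
  obtain ⟨n, z, J, O, hmod, hdim⟩ := hLU A₂ hA₂v hQ₂ T₁
    (fun t h1 => ⟨LU1.mem_adj_left (hT₁L t h1).1, (hT₁L t h1).2⟩)
  obtain ⟨g, hgA, hg0, hgm, G, hG, hO⟩ := hmod.chart
  have hset : ((A₂ : Set Ω) ∪ (fun x => x / g) '' (G : Set Ω)) =
      ((A₂ ∪ G.image fun x => x / g : Finset Ω) : Set Ω) := by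
    rw [Finset.coe_union, Finset.coe_image]
  obtain ⟨F, hF⟩ : ∃ F : Finset Ω, F = A₂ ∪ G.image fun x => x / g := ⟨_, rfl⟩
  rw [← hF] at hset
  rw [hset] at hO
  -- everything is in `L(u)`
  have hA₂E : ∀ f ∈ LUC.adj R (A₂ : Set Ω), f ∈ adj L u := hQ₂.1
  have hFE : ∀ f ∈ F, f ∈ adj L u := by
    intro f hf
    rw [hF, Finset.mem_union, Finset.mem_image] at hf
    rcases hf with hf | ⟨x, hx, rfl⟩
    · exact hA₂E f (LUC.mem_adj hf)
    · exact div_mem (hA₂E x (hG x hx).1) (hA₂E g hgA)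
  obtain ⟨B, hB⟩ : ∃ B : Subring Ω, B = LUC.adj R (F : Set Ω) := ⟨_, rfl⟩
  rw [← hB] at hO
  have hRE : ∀ a ∈ R, a ∈ adj L u := fun a ha => LU1.mem_adj_left (hRL a ha)
  have hBE : ∀ f ∈ B, f ∈ adj L u := by
    rw [hB]
    exact fun f hf => LUC.adj_induction (p := fun f => f ∈ adj L u) hRE hFE
      (fun _ _ => add_mem) (fun _ _ => mul_mem) hf
  have hFw : ∀ f ∈ F, v.Ge 0 f := by
    intro f hf
    rw [hF, Finset.mem_union, Finset.mem_image] at hf
    rcases hf with hf | ⟨x, hx, rfl⟩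
    · exact hA₂v f hf
    · intro hxg
      have hx0 : x ≠ 0 := by
        rintro rfl
        simp at hxg
      rw [v.map_div hx0 hg0]
      have := (hG x hx).2 hx0
      linarith
  have hBw : ∀ f ∈ B, v.Ge 0 f := by
    rw [hB]
    exact LUC.adj_nonneg hRv hFw
  have hBn : IsNoetherianRing B := by
    rw [hB]
    exact LUC.adj_isNoetherian _ _
  have hRB : R ≤ B := by
    rw [hB]
    exact LUC.base_le_adj _ _
  have hFB : ∀ f ∈ F, f ∈ B := by
    rw [hB]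
    exact fun f hf => LUC.mem_adj hf
  have hA₂F : ∀ a ∈ A₂, a ∈ F := fun a ha => by
    rw [hF]
    exact Finset.mem_union_left _ ha
  have hA₁F : ∀ a ∈ A₁, a ∈ F := fun a ha => hA₂F a (by
    rw [hA₂]
    exact Finset.mem_insert_of_mem ha)
  have huF : u ∈ F := hA₂F u (by
    rw [hA₂]
    exact Finset.mem_insert_self _ _)
  have hYF : ∀ y ∈ Y, y ∈ F := fun y hy => hA₁F y (by
    rw [hA₁]
    exact Finset.mem_union_right _ hy)
  have hOE : ∀ f ∈ O, f ∈ adj L u := by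
    rw [hO]
    rintro _ ⟨a, ha, b, hb, -, -, rfl⟩
    exact div_mem (hBE a ha) (hBE b hb)
  -- the parameters
  have hzf : ∀ i, ∃ p ∈ B, ∃ d ∈ B, d ≠ 0 ∧ v d = 0 ∧ z i = p / d := by
    intro i
    have h1 := hmod.par.mem i
    rw [hO] at h1
    exact h1
  choose pn hpn pd hpd hpd0 hpdv hzp using hzf
  have hpn' : ∀ i, pn i = z i * pd i := fun i => by
    rw [hzp i, div_mul_cancel₀ _ (hpd0 i)]
  have hpn0 : ∀ i, pn i ≠ 0 := fun i => by
    rw [hpn' i]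
    exact mul_ne_zero (hmod.par.ne i) (hpd0 i)
  -- generators of the centre
  obtain ⟨NP, hNP⟩ := (isNoetherianRing_iff_ideal_fg B).1 hBn (cen v B hBw)
  have hNPw : ∀ b ∈ NP, VPos v (b : Ω) := fun b hb => by
    rw [← mem_cen (hB := hBw), ← hNP]
    exact Ideal.subset_span hb
  have hδ : ∀ b : B, ∃ δ : Ω, b ∈ NP → δ ∈ B ∧ δ ≠ 0 ∧ v δ = 0 ∧
      ∃ r : Fin n → Ω, (∀ i, r i ∈ B) ∧ δ * (b : Ω) = ∑ i, r i * pn i := by
    intro b
    by_cases hb : b ∈ NP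
    · have h1 := hmod.par.gen b (by rw [hO]; exact le_lv v B b.2) (hNPw b hb)
      obtain ⟨a, ha, hab⟩ := (IP.one_iff hmod.par.mem).1 h1
      have h2 : ∀ i, a i / pd i ∈ lv v B := fun i => by
        rw [div_eq_mul_inv]
        have h3 := ha i
        rw [hO] at h3
        exact Subring.mul_mem _ h3 (lv_inv (le_lv v B (hpd i)) (hpd0 i) (hpdv i))
      obtain ⟨δ, hδ, hδ0, hδv, h3⟩ := lv_clear Finset.univ (fun i => a i / pd i)
        fun i _ => h2 i
      refine ⟨δ, fun _ => ⟨hδ, hδ0, hδv, fun i => δ * (a i / pd i), fun i => h3 i (Finset.mem_univ i),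
        ?_⟩⟩
      rw [hab, Finset.mul_sum]
      refine Finset.sum_congr rfl fun i _ => ?_
      rw [hpn' i]
      field_simp [hpd0 i]
    · exact ⟨0, fun h => absurd h hb⟩
  choose δ hδ using hδ
  -- monomials
  have hmono : ∀ t : Ω, ∃ (e : Fin n → ℤ) (yn yd : Ω), t ∈ insert g T₁ → yn ∈ B ∧ yd ∈ B ∧
      yn ≠ 0 ∧ yd ≠ 0 ∧ v yn = 0 ∧ v yd = 0 ∧
      t = (∏ i, z i ^ e i) * (yn / yd) ∧ (∀ i, i ∉ J → e i = 0) ∧ (0 < v t → ∀ i ∈ J, 0 < e i) ∧
      (v t < 0 → ∀ i ∈ J, e i < 0) ∧ (v t = 0 → ∀ i, e i = 0) := by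
    intro t
    by_cases ht' : t ∈ insert g T₁
    · have h1 : SM v O z J t := by
        rcases Finset.mem_insert.1 ht' with rfl | ht'
        · exact hgm
        · exact hmod.mono t ht'
      obtain ⟨e, y, hy, hy0, hyv, h2⟩ := h1
      rw [hO] at hy
      obtain ⟨yn, hyn, yd, hyd, hyd0, hydv, rfl⟩ := hy
      have hyn0 : yn ≠ 0 := by
        rintro rfl
        rw [zero_div] at hy0
        exact hy0 rfl
      rw [v.map_div hyn0 hyd0, hydv, sub_zero] at hyv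
      exact ⟨e, yn, yd, fun _ => ⟨hyn, hyd, hyn0, hyd0, hyv, hydv, h2⟩⟩
    · exact ⟨0, 0, 0, fun h => absurd h ht'⟩
  choose e yn yd hmono using hmono
  -- residues
  have hYu : LUC.adj R ((insert u Y : Finset Ω) : Set Ω) ≤ B := by
    refine LUC.adj_le hRB ?_
    intro f hf
    rcases Finset.mem_insert.1 (Finset.mem_coe.1 hf) with rfl | hf
    · exact hFB _ huF
    · exact hFB _ (hYF f hf)
  have hres : ∀ f : Ω, ∃ a b : Ω, f ∈ F → a ∈ LUC.adj R ((insert u Y : Finset Ω) : Set Ω) ∧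
      b ∈ LUC.adj R ((insert u Y : Finset Ω) : Set Ω) ∧ b ≠ 0 ∧ v b = 0 ∧
      VPos v (f * b - a) := by
    intro f
    by_cases hf : f ∈ F
    · obtain ⟨a, ha, b, hb, h1⟩ := hresG.2 f (hFE f hf) (hFw f hf)
      exact ⟨a, b, fun _ => ⟨ha, hb, h1⟩⟩
    · exact ⟨0, 0, fun h => absurd h hf⟩
  choose ra rb hres using hres
  -- the finite set
  obtain ⟨S, hS⟩ : ∃ S : Finset Ω, S = F ∪ NP.image (fun b : B => (b : Ω)) ∪
      Finset.univ.image z ∪ Finset.univ.image pd ∪ NP.image δ ∪ (insert g T₁).image yn ∪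
      (insert g T₁).image yd ∪ F.image rb ∪ insert g T₁ ∪ G := ⟨_, rfl⟩
  have hSF : ∀ f ∈ F, f ∈ S := fun f hf => by
    rw [hS]; simp only [Finset.mem_union]; tauto
  have hSN : ∀ b ∈ NP, (b : Ω) ∈ S := fun b hb => by
    have h1 := Finset.mem_image_of_mem (fun b : B => (b : Ω)) hb
    rw [hS]; simp only [Finset.mem_union]; tauto
  have hSz : ∀ i, z i ∈ S := fun i => by
    have h1 := Finset.mem_image_of_mem z (Finset.mem_univ i)
    rw [hS]; simp only [Finset.mem_union]; tauto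
  have hSpd : ∀ i, pd i ∈ S := fun i => by
    have h1 := Finset.mem_image_of_mem pd (Finset.mem_univ i)
    rw [hS]; simp only [Finset.mem_union]; tauto
  have hSδ : ∀ b ∈ NP, δ b ∈ S := fun b hb => by
    have h1 := Finset.mem_image_of_mem δ hb
    rw [hS]; simp only [Finset.mem_union]; tauto
  have hSyn : ∀ t ∈ insert g T₁, yn t ∈ S := fun b hb => by
    have h1 := Finset.mem_image_of_mem yn hb
    rw [hS]; simp only [Finset.mem_union]; tauto
  have hSyd : ∀ t ∈ insert g T₁, yd t ∈ S := fun b hb => by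
    have h1 := Finset.mem_image_of_mem yd hb
    rw [hS]; simp only [Finset.mem_union]; tauto
  have hSrb : ∀ f ∈ F, rb f ∈ S := fun b hb => by
    have h1 := Finset.mem_image_of_mem rb hb
    rw [hS]; simp only [Finset.mem_union]; tauto
  have hSt : ∀ t ∈ insert g T₁, t ∈ S := fun b hb => by
    rw [hS]; simp only [Finset.mem_union]; tauto
  have hSG : ∀ x ∈ G, x ∈ S := fun b hb => by
    rw [hS]; simp only [Finset.mem_union]; tauto
  have hSE : ∀ f ∈ S, f ∈ adj L u := by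
    intro f hf
    rw [hS] at hf
    simp only [Finset.mem_union] at hf
    rcases hf with ((((((((hf | hf) | hf) | hf) | hf) | hf) | hf) | hf) | hf) | hf
    · exact hFE f hf
    · obtain ⟨b, -, rfl⟩ := Finset.mem_image.1 hf
      exact hBE b b.2
    · obtain ⟨i, -, rfl⟩ := Finset.mem_image.1 hf
      exact hOE _ (hmod.par.mem i)
    · obtain ⟨i, -, rfl⟩ := Finset.mem_image.1 hf
      exact hBE _ (hpd i)
    · obtain ⟨b, hb, rfl⟩ := Finset.mem_image.1 hf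
      exact hBE _ (hδ b hb).1
    · obtain ⟨t, ht', rfl⟩ := Finset.mem_image.1 hf
      exact hBE _ (hmono t ht').1
    · obtain ⟨t, ht', rfl⟩ := Finset.mem_image.1 hf
      exact hBE _ (hmono t ht').2.1
    · obtain ⟨x, hx, rfl⟩ := Finset.mem_image.1 hf
      exact hBE _ (hYu (hres x hx).2.1)
    · rcases Finset.mem_insert.1 hf with rfl | hf
      · exact hA₂E _ hgA
      · exact LU1.mem_adj_left (hT₁L f hf).1
    · exact hA₂E _ (hG f hf).1
  obtain ⟨c, D, σ, hP, hgood⟩ := exists_good ht hg S hSE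
  obtain ⟨c', hc'⟩ : ∃ c' : Ω, c' = algebraMap k Ω c := ⟨_, rfl⟩
  rw [← hc'] at hP
  have hc'R : c' ∈ R := by
    rw [hc']
    exact hkR c
  have hc'L : c' ∈ L := hRL _ hc'R
  have hRσ : ∀ a ∈ R, a ∈ D ∧ σ a = a := fun a ha => hP.base a (hRL a ha)
  have hBD : ∀ b ∈ B, b ∈ D := by
    rw [hB]
    exact fun b hb => LUC.adj_le (fun a ha => (hRσ a ha).1) (fun f hf => (hgood f (hSF f hf)).1) hb
  -- the image
  obtain ⟨F', hF'⟩ : ∃ F' : Finset Ω, F' = F.image σ := ⟨_, rfl⟩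
  obtain ⟨B', hB'⟩ : ∃ B' : Subring Ω, B' = LUC.adj R (F' : Set Ω) := ⟨_, rfl⟩
  have hRB' : R ≤ B' := by
    rw [hB']
    exact LUC.base_le_adj _ _
  have hF'B' : ∀ f ∈ F, σ f ∈ B' := by
    intro f hf
    rw [hB', hF']
    exact LUC.mem_adj (Finset.mem_coe.2 (Finset.mem_image_of_mem _ hf))
  have hσB : ∀ b ∈ B, σ b ∈ B' := by
    have h1 : ∀ b ∈ B, b ∈ D ∧ σ b ∈ B' := by
      rw [hB]
      intro b hb
      refine LUC.adj_induction (p := fun b => b ∈ D ∧ σ b ∈ B') ?_ ?_ ?_ ?_ hb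
      · intro a ha
        obtain ⟨h1, h2⟩ := hRσ a ha
        rw [h2]
        exact ⟨h1, hRB' ha⟩
      · exact fun f hf => ⟨(hgood f (hSF f hf)).1, hF'B' f hf⟩
      · rintro a b ⟨ha, ha'⟩ ⟨hb, hb'⟩
        rw [hP.add a ha b hb]
        exact ⟨D.add_mem ha hb, B'.add_mem ha' hb'⟩
      · rintro a b ⟨ha, ha'⟩ ⟨hb, hb'⟩
        rw [hP.mul a ha b hb]
        exact ⟨D.mul_mem ha hb, B'.mul_mem ha' hb'⟩
    exact fun b hb => (h1 b hb).2
  have hsurj : ∀ b' ∈ B', ∃ b ∈ B, σ b = b' := by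
    intro b' hb'
    rw [hB'] at hb'
    refine LUC.adj_induction (p := fun b' => ∃ b ∈ B, σ b = b') ?_ ?_ ?_ ?_ hb'
    · intro a ha
      exact ⟨a, hRB ha, (hRσ a ha).2⟩
    · intro f hf
      rw [hF'] at hf
      obtain ⟨x, hx, rfl⟩ := Finset.mem_image.1 (Finset.mem_coe.1 hf)
      exact ⟨x, hFB x hx, rfl⟩
    · rintro _ _ ⟨a, ha, rfl⟩ ⟨b, hb, rfl⟩
      exact ⟨a + b, B.add_mem ha hb, hP.add a (hBD a ha) b (hBD b hb)⟩
    · rintro _ _ ⟨a, ha, rfl⟩ ⟨b, hb, rfl⟩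
      exact ⟨a * b, B.mul_mem ha hb, hP.mul a (hBD a ha) b (hBD b hb)⟩
  have hgeS : ∀ f ∈ S, v.Ge 0 f → v.Ge 0 (σ f) := by
    intro f hf h0 h1
    have hf0 : f ≠ 0 := hP.ne_of_map h1
    rw [((hgood f hf).2 hf0).2]
    exact h0 hf0
  have hunS : ∀ f ∈ S, f ≠ 0 → v f = 0 → σ f ≠ 0 ∧ v (σ f) = 0 := by
    intro f hf h0 h1
    obtain ⟨h2, h3⟩ := (hgood f hf).2 h0
    exact ⟨h2, h3.trans h1⟩
  have hvpS : ∀ f ∈ S, VPos v f → VPos v (σ f) := by
    intro f hf h0 h1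
    have hf0 : f ≠ 0 := hP.ne_of_map h1
    rw [((hgood f hf).2 hf0).2]
    exact h0 hf0
  have hF'v : ∀ f ∈ F', v.Ge 0 f := by
    intro f hf
    rw [hF'] at hf
    obtain ⟨x, hx, rfl⟩ := Finset.mem_image.1 hf
    exact hgeS x (hSF x hx) (hFw x hx)
  have hB'v : ∀ b ∈ B', v.Ge 0 b := by
    rw [hB']
    exact LUC.adj_nonneg hRv hF'v
  obtain ⟨O', hO'⟩ : ∃ O' : Subring Ω, O' = lv v B' := ⟨_, rfl⟩
  have hO'v : ∀ f ∈ O', v.Ge 0 f := by
    rw [hO']
    exact lv_nonneg hB'v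
  have hO'inv : ∀ f ∈ O', f ≠ 0 → v f = 0 → f⁻¹ ∈ O' := by
    rw [hO']
    exact fun f => lv_inv
  have hB'O' : B' ≤ O' := by
    rw [hO']
    exact le_lv v B'
  have hσO : ∀ b ∈ B, σ b ∈ O' := fun b hb => hB'O' (hσB b hb)
  -- the homomorphism
  let gB : B →+* O' :=
    { toFun := fun b => ⟨σ b, hσO b b.2⟩
      map_one' := Subtype.ext hP.one
      map_mul' := fun a b => Subtype.ext (hP.mul a (hBD a a.2) b (hBD b b.2))
      map_zero' := Subtype.ext hP.zero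
      map_add' := fun a b => Subtype.ext (hP.add a (hBD a a.2) b (hBD b b.2)) }
  have hgB : ∀ b : B, ((gB b : O') : Ω) = σ b := fun _ => rfl
  obtain ⟨Q, hQdef⟩ : ∃ Q : Ideal B, Q = (cen v O' hO'v).comap gB := ⟨_, rfl⟩
  have hQp : Q.IsPrime := by
    rw [hQdef]
    exact Ideal.comap_isPrime _ _
  have hQmem : ∀ b : B, b ∈ Q ↔ VPos v (σ b) := by
    intro b
    rw [hQdef, Ideal.mem_comap, mem_cen, hgB]
  have hQunit : ∀ b : B, b ∉ Q ↔ σ b ≠ 0 ∧ v (σ b) = 0 := by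
    intro b
    rw [hQdef, Ideal.mem_comap, notMem_cen, hgB]
  have hPQ : cen v B hBw ≤ Q := by
    rw [← hNP, Ideal.span_le]
    intro b hb
    exact (hQmem b).2 (hvpS b (hSN b hb) (hNPw b hb))
  -- the element `u - c`
  have huB : u ∈ B := hFB u huF
  have hc'B : c' ∈ B := hRB hc'R
  obtain ⟨x, hx⟩ : ∃ x : B, x = ⟨u - c', B.sub_mem huB hc'B⟩ := ⟨_, rfl⟩
  have hxσ : σ (x : Ω) = 0 := by
    rw [hx]
    change σ (u - c') = 0
    rw [hP.sub (hBD u huB) (hBD c' hc'B), hP.mem_u.2, (hRσ c' hc'R).2, sub_self]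
  have hxQ : x ∈ Q := by
    rw [hQmem, hxσ]
    exact VPos.zero
  have hxP : x ∉ cen v B hBw := by
    rw [notMem_cen, hx]
    change u - c' ≠ 0 ∧ v (u - c') = 0
    have h1 : IsAlgebraic L c' := isAlgebraic_algebraMap (⟨c', hc'L⟩ : L)
    obtain ⟨h2, h3⟩ := hg c' h1 (hRv c' hc'R)
    exact ⟨sub_ne_zero.2 h2, h3⟩
  have hlt : cen v B hBw < Q := lt_of_le_of_ne hPQ fun h1 => hxP (by rw [h1]; exact hxQ)
  -- the product of the denominators
  obtain ⟨dd, hdd, hdQ, hdP⟩ : ∃ dd : B, dd = (∏ b ∈ NP.attach, ⟨δ b, (hδ b b.2).1⟩ : B) ∧ dd ∉ Q ∧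
      ∀ y ∈ cen v B hBw, dd * y ∈ Ideal.span (Set.range fun i => (⟨pn i, hpn i⟩ : B)) := by
    refine ⟨_, rfl, ?_, ?_⟩
    · intro h1
      obtain ⟨b, -, hb⟩ := (Ideal.IsPrime.prod_mem_iff (p := Q)).1 h1
      have h2 := hδ b b.2
      exact ((hQunit _).2 (hunS _ (hSδ b b.2) h2.2.1 h2.2.2.1)) hb
    · intro y hy
      have h1 : cen v B hBw ≤ Submodule.comap (LinearMap.mulLeft B
          (∏ b ∈ NP.attach, ⟨δ b, (hδ b b.2).1⟩ : B))
          (Ideal.span (Set.range fun i => (⟨pn i, hpn i⟩ : B))) := by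
        rw [← hNP]
        refine Submodule.span_le.2 fun b hb => ?_
        change (∏ b ∈ NP.attach, ⟨δ b, (hδ b b.2).1⟩ : B) * b ∈
          Ideal.span (Set.range fun i => (⟨pn i, hpn i⟩ : B))
        obtain ⟨h2, h3, h4, r, hr, h5⟩ := hδ b hb
        rw [← Finset.mul_prod_erase NP.attach _ (Finset.mem_attach NP ⟨b, hb⟩), mul_comm, ← mul_assoc,
          mul_comm b]
        refine Ideal.mul_mem_right _ _ ?_
        have h6 : (⟨δ b, h2⟩ : B) * b = ∑ i, (⟨r i, hr i⟩ : B) * ⟨pn i, hpn i⟩ := by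
          apply Subtype.ext
          push_cast
          rw [h5]
        rw [h6]
        exact Ideal.sum_mem _ fun i _ => Ideal.mul_mem_left _ _ (Ideal.subset_span ⟨i, rfl⟩)
      exact h1 hy
  -- the residues of the elements of `B`
  have hEv : ∀ q ∈ LUC.adj R ((insert u Y : Finset Ω) : Set Ω), q ∈ B := fun q hq => hYu hq
  have hapr : ∀ b ∈ B, b ∈ B ∧ ∃ q ∈ LUC.adj R ((insert u Y : Finset Ω) : Set Ω),
      ∃ p ∈ LUC.adj R ((insert u Y : Finset Ω) : Set Ω), σ q ≠ 0 ∧ v (σ q) = 0 ∧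
        VPos v (q * b - p) := by
    intro b hb
    have hb2 := hb
    rw [hB] at hb2
    refine LUC.adj_induction (p := fun b => b ∈ B ∧
      ∃ q ∈ LUC.adj R ((insert u Y : Finset Ω) : Set Ω),
      ∃ p ∈ LUC.adj R ((insert u Y : Finset Ω) : Set Ω), σ q ≠ 0 ∧ v (σ q) = 0 ∧
        VPos v (q * b - p)) ?_ ?_ ?_ ?_ hb2
    · intro a ha
      refine ⟨hRB ha, 1, Subring.one_mem _, a, LUC.base_le_adj _ _ ha, ?_, ?_, ?_⟩
      · rw [hP.one]
        exact one_ne_zero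
      · rw [hP.one, v.map_one]
      · rw [one_mul, sub_self]
        exact VPos.zero
    · intro f hf
      obtain ⟨h1, h2, h3, h4, h5⟩ := hres f hf
      obtain ⟨h6, h7⟩ := hunS _ (hSrb f hf) h3 h4
      refine ⟨hFB f hf, rb f, h2, ra f, h1, h6, h7, ?_⟩
      rw [mul_comm]
      exact h5
    · rintro a b ⟨haB, q, hq, p, hp, hq0, hqv, hqa⟩ ⟨hbB, q', hq', p', hp', hq0', hqv', hqb⟩
      refine ⟨B.add_mem haB hbB, q * q', Subring.mul_mem _ hq hq', q' * p + q * p',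
        Subring.add_mem _ (Subring.mul_mem _ hq' hp) (Subring.mul_mem _ hq hp'), ?_, ?_, ?_⟩
      · rw [hP.mul q (hBD q (hEv q hq)) q' (hBD q' (hEv q' hq'))]
        exact mul_ne_zero hq0 hq0'
      · rw [hP.mul q (hBD q (hEv q hq)) q' (hBD q' (hEv q' hq')), v.map_mul hq0 hq0', hqv, hqv',
          add_zero]
      · have e1 : q * q' * (a + b) - (q' * p + q * p') =
            q' * (q * a - p) + q * (q' * b - p') := by ring
        rw [e1]
        exact (VPos.mul' (hBw _ (hEv q' hq')) hqa).add (VPos.mul' (hBw _ (hEv q hq)) hqb)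
    · rintro a b ⟨haB, q, hq, p, hp, hq0, hqv, hqa⟩ ⟨hbB, q', hq', p', hp', hq0', hqv', hqb⟩
      refine ⟨B.mul_mem haB hbB, q * q', Subring.mul_mem _ hq hq', p * p',
        Subring.mul_mem _ hp hp', ?_, ?_, ?_⟩
      · rw [hP.mul q (hBD q (hEv q hq)) q' (hBD q' (hEv q' hq'))]
        exact mul_ne_zero hq0 hq0'
      · rw [hP.mul q (hBD q (hEv q hq)) q' (hBD q' (hEv q' hq')), v.map_mul hq0 hq0', hqv, hqv',
          add_zero]
      · have e1 : q * q' * (a * b) - p * p' =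
            (q' * b) * (q * a - p) + p * (q' * b - p') := by ring
        rw [e1]
        exact (VPos.mul' (hBw _ (B.mul_mem (hEv q' hq') hbB)) hqa).add
          (VPos.mul' (hBw _ (hEv p hp)) hqb)
  -- the elements of `k[Y, u]`
  have hYB : LUC.adj R (Y : Set Ω) ≤ B := LUC.adj_le hRB fun y hy => hFB y (hYF y hy)
  have hdec : ∀ p ∈ LUC.adj R ((insert u Y : Finset Ω) : Set Ω),
      p ∈ B ∧ σ p ∈ LUC.adj R (Y : Set Ω) ∧ ∃ p' ∈ B, p = σ p + (u - c') * p' := by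
    intro p hp
    refine LUC.adj_induction (p := fun p => p ∈ B ∧ σ p ∈ LUC.adj R (Y : Set Ω) ∧
      ∃ p' ∈ B, p = σ p + (u - c') * p') ?_ ?_ ?_ ?_ hp
    · intro a ha
      rw [(hRσ a ha).2]
      exact ⟨hRB ha, LUC.base_le_adj _ _ ha, 0, B.zero_mem, by rw [mul_zero, add_zero]⟩
    · intro f hf
      rcases Finset.mem_insert.1 (Finset.mem_coe.1 hf) with rfl | hf
      · rw [hP.mem_u.2]
        exact ⟨huB, LUC.base_le_adj _ _ hc'R, 1, B.one_mem, by ring⟩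
      · rw [(hP.base f (hY1 f hf).1).2]
        exact ⟨hFB f (hYF f hf), LUC.mem_adj hf, 0, B.zero_mem, by rw [mul_zero, add_zero]⟩
    · rintro a b ⟨ha, ha', a', haB, ea⟩ ⟨hb, hb', b', hbB, eb⟩
      rw [hP.add a (hBD a ha) b (hBD b hb)]
      refine ⟨B.add_mem ha hb, Subring.add_mem _ ha' hb', a' + b', B.add_mem haB hbB, ?_⟩
      linear_combination ea + eb
    · rintro a b ⟨ha, ha', a', haB, ea⟩ ⟨hb, hb', b', hbB, eb⟩
      rw [hP.mul a (hBD a ha) b (hBD b hb)]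
      refine ⟨B.mul_mem ha hb, Subring.mul_mem _ ha' hb', a' * b + σ a * b',
        B.add_mem (B.mul_mem haB hb) (B.mul_mem (hYB ha') hbB), ?_⟩
      linear_combination b * ea + σ a * eb
  -- generation of the ideal `Q`
  have hgen : ∀ b ∈ Q, ∃ s ∉ Q, s * b ∈
      Ideal.span (insert x (Set.range fun i => (⟨pn i, hpn i⟩ : B))) := by
    intro b hb
    obtain ⟨-, q, hq, p, hp, hq0, hqv, hqb⟩ := hapr b b.2
    obtain ⟨hpB, hσp, p', hp'B, ep⟩ := hdec p hp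
    have hqQ : (⟨q, hEv q hq⟩ : B) ∉ Q := (hQunit _).2 ⟨hq0, hqv⟩
    -- the element of the centre
    have h1 : (⟨q, hEv q hq⟩ * b - ⟨p, hpB⟩ : B) ∈ cen v B hBw := by
      rw [mem_cen]
      exact hqb
    have h2 : (⟨p, hpB⟩ : B) ∈ Q := by
      have h3 := Q.sub_mem (Q.mul_mem_left ⟨q, hEv q hq⟩ hb) (hPQ h1)
      rwa [sub_sub_cancel] at h3
    have h3 : (⟨σ p, hYB hσp⟩ : B) ∈ cen v B hBw := by
      rw [mem_cen]
      exact (hQmem _).1 h2
    refine ⟨dd * ⟨q, hEv q hq⟩, fun h4 => (hQp.mem_or_mem h4).elim hdQ hqQ, ?_⟩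
    have h4 : dd * ⟨q, hEv q hq⟩ * b = dd * ((⟨q, hEv q hq⟩ * b - ⟨p, hpB⟩) + ⟨σ p, hYB hσp⟩) +
        (dd * ⟨p', hp'B⟩) * x := by
      have h5 : (⟨p, hpB⟩ : B) = ⟨σ p, hYB hσp⟩ + x * ⟨p', hp'B⟩ := by
        apply Subtype.ext
        rw [hx]
        exact ep
      rw [h5]
      ring
    rw [h4]
    refine Ideal.add_mem _ ?_ (Ideal.mul_mem_left _ _ (Ideal.subset_span (Set.mem_insert _ _)))
    exact Ideal.span_mono (Set.subset_insert _ _) (hdP _ (Ideal.add_mem _ h1 h3))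
  -- the dimension
  have hpnQ : ∀ i, (⟨pn i, hpn i⟩ : B) ∈ Q := by
    intro i
    apply hPQ
    rw [mem_cen]
    intro _
    change 0 < v (pn i)
    rw [hpn' i, v.map_mul (hmod.par.ne i) (hpd0 i), hpdv i, add_zero]
    exact hmod.par.pos i
  have hheight : (n : ℕ∞) ≤ (cen v B hBw).height := by
    have h2 := TWT.dim_lv v B hBw
    rw [← hO, hdim] at h2
    exact_mod_cast h2.le
  have hdim' : ringKrullDim O' = n := by
    refine dim_loc hlt hheight hxQ hpnQ hgen gB ?_ ?_ ?_ ?_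
    · intro b hb
      obtain ⟨h1, h2⟩ := (hQunit b).1 hb
      refine IsUnit.of_mul_eq_one ⟨(σ b)⁻¹, hO'inv _ (hσO b b.2) h1 h2⟩ ?_
      exact Subtype.ext (mul_inv_cancel₀ h1)
    · rintro ⟨y, hy⟩
      have hy' := hy
      rw [hO'] at hy'
      obtain ⟨a', ha', b', hb', hb0, hbv, hab⟩ := hy'
      obtain ⟨a, ha, rfl⟩ := hsurj a' ha'
      obtain ⟨b, hb, rfl⟩ := hsurj b' hb'
      refine ⟨⟨a, ha⟩, ⟨b, hb⟩, (hQunit _).2 ⟨hb0, hbv⟩, ?_⟩
      apply Subtype.ext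
      change σ b * y = σ a
      rw [hab, mul_div_cancel₀ _ hb0]
    · exact Subtype.ext hxσ
    · intro I hI hxI hIk
      refine le_antisymm hIk fun f hf => ?_
      have hf0 : σ (f : Ω) = 0 := congrArg (fun y : O' => (y : Ω)) ((RingHom.mem_ker).1 hf)
      obtain ⟨P₁, Q₁, hQc, hQu, heq⟩ := hP.ker hc'L (hBD f f.2) hf0
      have hB₁ : LUC.adj R (A₁ : Set Ω) ≤ B := LUC.adj_le hRB fun a ha => hFB a (hA₁F a ha)
      obtain ⟨s, hs, hs0, hsP⟩ := clear_poly hQ₁ hB₁ huB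
        (c := fun i => (P₁.coeff i : Ω)) (fun i => (P₁.coeff i).2)
        (Finset.range (P₁.natDegree + 1))
      obtain ⟨s', hs', hs0', hsQ⟩ := clear_poly hQ₁ hB₁ huB
        (c := fun i => (Q₁.coeff i : Ω)) (fun i => (Q₁.coeff i).2)
        (Finset.range (Q₁.natDegree + 1))
      have eP : ∀ P : L[X], ∑ i ∈ Finset.range (P.natDegree + 1), (P.coeff i : Ω) * u ^ i =
          aeval u P := by
        intro P
        rw [aeval_eq_sum_range]
        refine Finset.sum_congr rfl fun i _ => ?_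
        rw [Algebra.smul_def]
        rfl
      rw [eP] at hsP hsQ
      have h1 : (⟨s * (s' * aeval u Q₁), B.mul_mem (hB₁ hs) hsQ⟩ : B) * f =
          (⟨s', hB₁ hs'⟩ * ⟨s * aeval u P₁, hsP⟩) * x := by
        apply Subtype.ext
        rw [hx]
        change s * (s' * aeval u Q₁) * (f : Ω) = s' * (s * aeval u P₁) * (u - c')
        linear_combination s * s' * heq
      have h2 : (⟨s * (s' * aeval u Q₁), B.mul_mem (hB₁ hs) hsQ⟩ : B) * f ∈ I := by
        rw [h1]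
        exact Ideal.mul_mem_left _ _ hxI
      rcases hI.mem_or_mem h2 with h3 | h3
      · exfalso
        have h4 := (RingHom.mem_ker).1 (hIk h3)
        have h5 : σ (s * (s' * aeval u Q₁)) = 0 := congrArg (fun y : O' => (y : Ω)) h4
        have hsL : s ∈ L := hQ₁.1 s hs
        have hsL' : s' ∈ L := hQ₁.1 s' hs'
        obtain ⟨h6, h7⟩ := hP.frac Q₁ 1 (by rw [map_one]; exact one_ne_zero)
        rw [map_one, map_one, div_one, div_one] at h7
        rw [map_one, div_one] at h6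
        rw [hP.mul s (hP.base s hsL).1 _ (D.mul_mem (hP.base s' hsL').1 h6),
          hP.mul s' (hP.base s' hsL').1 _ h6, h7, (hP.base s hsL).2, (hP.base s' hsL').2] at h5
        exact mul_ne_zero hs0 (mul_ne_zero hs0' hQc) h5
      · exact h3
  -- the parameters
  have hzD : ∀ i, z i ∈ D := fun i => (hgood _ (hSz i)).1
  have hz'0 : ∀ i, σ (z i) ≠ 0 := fun i => ((hgood _ (hSz i)).2 (hmod.par.ne i)).1
  have hz'v : ∀ i, v (σ (z i)) = v (z i) := fun i => ((hgood _ (hSz i)).2 (hmod.par.ne i)).2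
  have hpdσ : ∀ i, σ (pd i) ≠ 0 ∧ v (σ (pd i)) = 0 := fun i =>
    hunS _ (hSpd i) (hpd0 i) (hpdv i)
  have hpnσ : ∀ i, σ (pn i) = σ (pd i) * σ (z i) := by
    intro i
    rw [hpn' i, hP.mul _ (hzD i) _ (hBD _ (hpd i)), mul_comm]
  have hz'O : ∀ i, σ (z i) ∈ O' := by
    intro i
    have h1 : σ (z i) = (σ (pd i))⁻¹ * σ (pn i) := by
      rw [hpnσ i, inv_mul_cancel_left₀ (hpdσ i).1]
    rw [h1]
    exact O'.mul_mem (hO'inv _ (hσO _ (hpd i)) (hpdσ i).1 (hpdσ i).2) (hσO _ (hpn i))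
  have hpar : Par v O' fun i => σ (z i) := by
    refine ⟨hz'O, hz'0, fun i => ?_, ?_⟩
    · rw [hz'v i]
      exact hmod.par.pos i
    · intro f hf hfv
      have hf' := hf
      rw [hO'] at hf'
      obtain ⟨a', ha', b', hb', hb0, hbv, rfl⟩ := hf'
      obtain ⟨a, ha, rfl⟩ := hsurj a' ha'
      have haQ : (⟨a, ha⟩ : B) ∈ Q := by
        rw [hQmem]
        intro ha0
        have h1 := hfv (div_ne_zero ha0 hb0)
        rw [v.map_div ha0 hb0, hbv, sub_zero] at h1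
        exact h1
      obtain ⟨s, hs, hsa⟩ := hgen _ haQ
      obtain ⟨hs0, hsv⟩ := (hQunit s).1 hs
      -- the ideal
      have hI : Ideal.span (insert x (Set.range fun i => (⟨pn i, hpn i⟩ : B))) ≤
          (LUC.idl O' fun i => σ (z i)).comap gB := by
        rw [Ideal.span_le]
        rintro y (hy | ⟨i, rfl⟩)
        · change gB y ∈ (LUC.idl O' fun i => σ (z i))
          have h1 : gB y = 0 := by
            rw [hy]
            exact Subtype.ext hxσ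
          rw [h1]
          exact Ideal.zero_mem _
        · change gB ⟨pn i, hpn i⟩ ∈ (LUC.idl O' fun i => σ (z i))
          have h1 : gB ⟨pn i, hpn i⟩ = ⟨σ (pd i), hσO _ (hpd i)⟩ * ⟨σ (z i), hz'O i⟩ :=
            Subtype.ext (hpnσ i)
          rw [h1]
          exact Ideal.mul_mem_left _ _ (Ideal.subset_span ⟨i, rfl⟩)
      have h1 := hI hsa
      rw [Ideal.mem_comap, map_mul] at h1
      have h2 : IP O' (fun i => σ (z i)) 1 (σ (s : Ω) * σ a) := by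
        refine ⟨gB s * gB ⟨a, ha⟩, rfl, ?_⟩
        rw [pow_one]
        exact h1
      have h3 : σ a / b' = ((σ (s : Ω))⁻¹ * b'⁻¹) * (σ (s : Ω) * σ a) := by
        field_simp
      rw [h3]
      exact h2.mul_left (O'.mul_mem (hO'inv _ (hσO s s.2) hs0 hsv)
        (hO'inv _ (hB'O' hb') hb0 hbv))
  -- monomials
  have hSM : ∀ t ∈ insert g T₁, SM v O' (fun i => σ (z i)) J (σ t) := by
    intro t ht'
    obtain ⟨h1, h2, h3, h4, h5, h6, h7, h8, h9, h10, h11⟩ := hmono t ht'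
    have ht0 : t ≠ 0 := by
      rcases Finset.mem_insert.1 ht' with rfl | ht'
      · exact hg0
      · exact (hT₁L t ht').2
    obtain ⟨-, htv⟩ := (hgood t (hSt t ht')).2 ht0
    obtain ⟨hyn0, hynv⟩ := hunS _ (hSyn t ht') h3 h5
    obtain ⟨hyd0, hydv⟩ := hunS _ (hSyd t ht') h4 h6
    obtain ⟨hqD, hqσ⟩ := hP.div (hBD _ h1) (hBD _ h2) hyd0
    refine ⟨e t, σ (yn t / yd t), ?_, ?_, ?_, ?_, h8, ?_, ?_, ?_⟩
    · rw [hqσ, div_eq_mul_inv]
      exact O'.mul_mem (hσO _ h1) (hO'inv _ (hσO _ h2) hyd0 hydv)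
    · rw [hqσ]
      exact div_ne_zero hyn0 hyd0
    · rw [hqσ, v.map_div hyn0 hyd0, hynv, hydv, sub_zero]
    · have hzp : ∀ i ∈ Finset.univ, z i ^ e t i ∈ D := fun i _ =>
        (hP.zpow (hzD i) (hz'0 i) (e t i)).1
      conv_lhs => rw [h7]
      rw [hP.mul _ (D.prod_mem hzp) _ hqD, hP.prod _ _ hzp]
      congr 1
      exact Finset.prod_congr rfl fun i _ => (hP.zpow (hzD i) (hz'0 i) (e t i)).2
    · rw [htv]; exact h9
    · rw [htv]; exact h10
    · rw [htv]; exact h11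
  have hSMT : ∀ t ∈ T₁, SM v O' (fun i => σ (z i)) J t := by
    intro t ht'
    have h1 := hSM t (Finset.mem_insert_of_mem ht')
    rwa [(hP.base t (hT₁L t ht').1).2] at h1
  -- the chart
  have hAA : ∀ a ∈ LUC.adj R (A : Set Ω), v.Ge 0 a := LUC.adj_nonneg hRv hA
  obtain ⟨M, hM⟩ : ∃ M : Subring Ω, M = LUC.QM v O' (fun i => σ (z i)) J hz'0
    (LUC.adj R (A : Set Ω)) hAA := ⟨_, rfl⟩
  have hAM : LUC.adj R (A : Set Ω) ≤ M := by
    rw [hM]
    exact LUC.le_QM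
  have hRM : R ≤ M := (LUC.base_le_adj R _).trans hAM
  have hσA₂ : ∀ f ∈ LUC.adj R (A₂ : Set Ω), f ∈ D ∧ σ f ∈ M := by
    intro f hf
    refine LUC.adj_induction (p := fun f => f ∈ D ∧ σ f ∈ M) ?_ ?_ ?_ ?_ hf
    · intro a ha
      rw [(hRσ a ha).2]
      exact ⟨(hRσ a ha).1, hRM ha⟩
    · intro a ha
      rw [hcoe₂] at ha
      rcases Set.mem_insert_iff.1 ha with rfl | ha
      · rw [hP.mem_u.2]
        exact ⟨hP.mem_u.1, hRM hc'R⟩
      · obtain ⟨h1, h2⟩ := hP.base a (hA₁L a ha)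
        rw [h2]
        refine ⟨h1, ?_⟩
        have ha' : a ∈ A₁ := ha
        rw [hA₁, Finset.mem_union] at ha'
        rcases ha' with ha' | ha'
        · exact hAM (LUC.mem_adj ha')
        · obtain ⟨h3, h4, α, hα, h5⟩ := hβ a ha'
          rw [hM]
          refine ⟨α, hα, β a, h3, hSMT _ ?_, h5⟩
          rw [hT₁]
          exact Finset.mem_union_right _ (Finset.mem_image_of_mem _ ha')
    · rintro a b ⟨ha, ha'⟩ ⟨hb, hb'⟩
      rw [hP.add a ha b hb]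
      exact ⟨D.add_mem ha hb, M.add_mem ha' hb'⟩
    · rintro a b ⟨ha, ha'⟩ ⟨hb, hb'⟩
      rw [hP.mul a ha b hb]
      exact ⟨D.mul_mem ha hb, M.mul_mem ha' hb'⟩
  have hF'M : ∀ f ∈ F', f ∈ M := by
    intro f hf
    rw [hF'] at hf
    obtain ⟨x, hx, rfl⟩ := Finset.mem_image.1 hf
    rw [hF, Finset.mem_union, Finset.mem_image] at hx
    rcases hx with hx | ⟨y, hy, rfl⟩
    · exact (hσA₂ x (LUC.mem_adj hx)).2
    · obtain ⟨h1, h2⟩ := hσA₂ y (hG y hy).1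
      obtain ⟨h3, h4⟩ := hσA₂ g hgA
      have hgS := hSt g (Finset.mem_insert_self _ _)
      obtain ⟨h5, h6⟩ := (hgood g hgS).2 hg0
      rw [(hP.div h1 h3 h5).2, div_eq_mul_inv]
      refine M.mul_mem h2 ?_
      have h7 : 0 ≤ v (σ g) := by
        rw [h6]
        exact (LUC.adj_nonneg hRv hA₂v g hgA) hg0
      rw [hM] at h4 ⊢
      exact LUC.qm_inv hO'inv h4 h7 (hSM g (Finset.mem_insert_self _ _))
  have hchart := LUC.chart_of (hz := hz'0) (J := J) hO'inv hO'v A hAA (fun a ha => by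
    have h1 : a ∈ A₁ := by
      rw [hA₁]
      exact Finset.mem_union_left _ ha
    have h2 := hσO a (hFB a (hA₁F a h1))
    rwa [(hP.base a (hA₁L a h1)).2] at h2) F' (by rw [hO', hB'])
    (fun f hf => by rw [← hM]; exact hF'M f hf)
  refine ⟨n, fun i => σ (z i), J, O', ⟨hpar, hchart, fun t ht' => hSMT t ?_⟩, hdim'⟩
  rw [hT₁]
  exact Finset.mem_union_left _ ht'

end Pool.Agent.TW
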