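import Pool.Agent.Lib.TWQ.Defs
import Pool.Agent.Lib.TWN.WTa

/-!
# TANK W, Gauss descent (1): the places `u ↦ c` and the Gauss valuation
-/

set_option autoImplicit false

open Polynomial

namespace Pool.Agent.TW

open Pool.Agent.H15JM (RVal)
open Pool.Agent.LU1 (VPos adj val_add_vpos)

universe u

variable {k Ω : Type u} [Field k] [Field Ω] [Algebra k Ω] {v : RVal Ω}

namespace GD

/-! ### The place -/

/-- `σ`, on the ring `D`, is the place `u ↦ c` of `L(u)`. -/
structure Place (L : IntermediateField k Ω) (u c : Ω) (D : Subring Ω) (σ : Ω → Ω) : Prop where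
  add : ∀ a ∈ D, ∀ b ∈ D, σ (a + b) = σ a + σ b
  mul : ∀ a ∈ D, ∀ b ∈ D, σ (a * b) = σ a * σ b
  base : ∀ x ∈ L, x ∈ D ∧ σ x = x
  frac : ∀ P Q : L[X], aeval c Q ≠ 0 → aeval u P / aeval u Q ∈ D ∧
    σ (aeval u P / aeval u Q) = aeval c P / aeval c Q
  exi : ∀ d ∈ D, ∃ P Q : L[X], aeval c Q ≠ 0 ∧ aeval u Q ≠ 0 ∧ d = aeval u P / aeval u Q ∧
    σ d = aeval c P / aeval c Q

theorem exists_place {L : IntermediateField k Ω} {u : Ω} (c : Ω) (hu : Transcendental L u) :
    ∃ (D : Subring Ω) (σ : Ω → Ω), Place L u c D σ := by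
  classical
  have hu0 : ∀ Q : L[X], Q ≠ 0 → aeval u Q ≠ 0 := fun Q hQ h0 => hu ⟨Q, hQ, h0⟩
  obtain ⟨M, hM⟩ : ∃ M : Submonoid L[X], ∀ Q, Q ∈ M ↔ aeval c Q ≠ 0 := by
    refine ⟨(nonZeroDivisors Ω).comap ((aeval c : L[X] →ₐ[L] Ω) : L[X] →* Ω), fun Q => ?_⟩
    rw [Submonoid.mem_comap, mem_nonZeroDivisors_iff_ne_zero]
    rfl
  have hMu : ∀ Q ∈ M, aeval u Q ≠ 0 := by
    intro Q hQ
    refine hu0 Q ?_
    rintro rfl
    rw [hM, map_zero] at hQ
    exact hQ rfl
  have hgu : ∀ y : M, IsUnit ((aeval u : L[X] →ₐ[L] Ω).toRingHom y) := fun y =>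
    (hMu y y.2).isUnit
  have hgc : ∀ y : M, IsUnit ((aeval c : L[X] →ₐ[L] Ω).toRingHom y) := fun y =>
    ((hM y).1 y.2).isUnit
  obtain ⟨iu, hiu⟩ : ∃ iu : Localization M →+* Ω, iu = IsLocalization.lift hgu := ⟨_, rfl⟩
  obtain ⟨ic, hic⟩ : ∃ ic : Localization M →+* Ω, ic = IsLocalization.lift hgc := ⟨_, rfl⟩
  have hiu' : ∀ (P : L[X]) (Q : M), iu (IsLocalization.mk' (Localization M) P Q) =
      aeval u P / aeval u (Q : L[X]) := by
    intro P Q
    rw [hiu, IsLocalization.lift_mk'_spec, mul_div_assoc']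
    change aeval u P = aeval u (Q : L[X]) * aeval u P / aeval u (Q : L[X])
    rw [mul_div_cancel_left₀ _ (hMu Q Q.2)]
  have hic' : ∀ (P : L[X]) (Q : M), ic (IsLocalization.mk' (Localization M) P Q) =
      aeval c P / aeval c (Q : L[X]) := by
    intro P Q
    rw [hic, IsLocalization.lift_mk'_spec, mul_div_assoc']
    change aeval c P = aeval c (Q : L[X]) * aeval c P / aeval c (Q : L[X])
    rw [mul_div_cancel_left₀ _ ((hM Q).1 Q.2)]
  have hinj : Function.Injective iu := by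
    rw [injective_iff_map_eq_zero]
    intro a ha
    obtain ⟨P, Q, rfl⟩ := IsLocalization.exists_mk'_eq M a
    rw [hiu'] at ha
    have h1 : aeval u P = 0 := (div_eq_zero_iff.1 ha).resolve_right (hMu Q Q.2)
    have h2 : P = 0 := by
      by_contra hP
      exact hu0 P hP h1
    rw [h2, IsLocalization.mk'_zero]
  -- the function
  have hσ : ∀ f : Ω, ∃ f' : Ω, ∀ a, iu a = f → f' = ic a := by
    intro f
    by_cases hf : ∃ a, iu a = f
    · obtain ⟨a, ha⟩ := hf
      exact ⟨ic a, fun b hb => by rw [hinj (ha.trans hb.symm)]⟩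
    · exact ⟨0, fun a ha => absurd ⟨a, ha⟩ hf⟩
  choose σ hσ using hσ
  have hσ' : ∀ a, σ (iu a) = ic a := fun a => hσ _ a rfl
  refine ⟨iu.range, σ, ?_, ?_, ?_, ?_, ?_⟩
  · rintro _ ⟨a, rfl⟩ _ ⟨b, rfl⟩
    rw [← map_add, hσ', hσ', hσ', map_add]
  · rintro _ ⟨a, rfl⟩ _ ⟨b, rfl⟩
    rw [← map_mul, hσ', hσ', hσ', map_mul]
  · intro x hx
    have h1 : iu (IsLocalization.mk' (Localization M) (C (⟨x, hx⟩ : L) : L[X]) (1 : M)) = x := by
      rw [hiu', aeval_C]
      change x / aeval u (1 : L[X]) = x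
      rw [map_one, div_one]
    have h2 : ic (IsLocalization.mk' (Localization M) (C (⟨x, hx⟩ : L) : L[X]) (1 : M)) = x := by
      rw [hic', aeval_C]
      change x / aeval c (1 : L[X]) = x
      rw [map_one, div_one]
    refine ⟨⟨_, h1⟩, ?_⟩
    rw [hσ x _ h1, h2]
  · intro P Q hQ
    have h1 := hiu' P ⟨Q, (hM Q).2 hQ⟩
    refine ⟨⟨_, h1⟩, ?_⟩
    rw [hσ _ _ h1, hic']
  · rintro _ ⟨a, rfl⟩
    obtain ⟨P, Q, rfl⟩ := IsLocalization.exists_mk'_eq M a
    refine ⟨P, Q, (hM Q).1 Q.2, hMu Q Q.2, hiu' P Q, ?_⟩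
    rw [hσ', hic']

namespace Place

variable {L : IntermediateField k Ω} {u c : Ω} {D : Subring Ω} {σ : Ω → Ω}

theorem zero (h : Place L u c D σ) : σ 0 = 0 := (h.base 0 L.zero_mem).2

theorem one (h : Place L u c D σ) : σ 1 = 1 := (h.base 1 L.one_mem).2

theorem neg (h : Place L u c D σ) {a : Ω} (ha : a ∈ D) : σ (-a) = -σ a := by
  have h1 := h.add a ha (-a) (neg_mem ha)
  rw [add_neg_cancel, h.zero] at h1
  linear_combination h1.symm

theorem sub (h : Place L u c D σ) {a b : Ω} (ha : a ∈ D) (hb : b ∈ D) :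
    σ (a - b) = σ a - σ b := by
  rw [sub_eq_add_neg, h.add a ha (-b) (neg_mem hb), h.neg hb, sub_eq_add_neg]

/-- The ring homomorphism. -/
def hom (h : Place L u c D σ) : D →+* Ω where
  toFun d := σ d
  map_one' := h.one
  map_mul' a b := h.mul a a.2 b b.2
  map_zero' := h.zero
  map_add' a b := h.add a a.2 b b.2

theorem hom_apply (h : Place L u c D σ) (d : D) : h.hom d = σ d := rfl

theorem inv (h : Place L u c D σ) {a : Ω} (ha : a ∈ D) (h0 : σ a ≠ 0) :
    a⁻¹ ∈ D ∧ σ a⁻¹ = (σ a)⁻¹ := by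
  obtain ⟨P, Q, hQ, hQu, rfl, hσ⟩ := h.exi a ha
  have hP : aeval c P ≠ 0 := by
    intro h1
    rw [h1, zero_div] at hσ
    exact h0 hσ
  obtain ⟨h1, h2⟩ := h.frac Q P hP
  rw [inv_div, hσ, inv_div]
  exact ⟨h1, h2⟩

theorem div (h : Place L u c D σ) {a b : Ω} (ha : a ∈ D) (hb : b ∈ D) (h0 : σ b ≠ 0) :
    a / b ∈ D ∧ σ (a / b) = σ a / σ b := by
  obtain ⟨h1, h2⟩ := h.inv hb h0
  rw [div_eq_mul_inv, h.mul a ha _ h1, h2, div_eq_mul_inv]
  exact ⟨D.mul_mem ha h1, rfl⟩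

theorem mem_u (h : Place L u c D σ) : u ∈ D ∧ σ u = c := by
  obtain ⟨h1, h2⟩ := h.frac X 1 (by rw [map_one]; exact one_ne_zero)
  rw [aeval_X, aeval_X, map_one, map_one, div_one, div_one] at h2
  rw [aeval_X, map_one, div_one] at h1
  exact ⟨h1, h2⟩

theorem ne_of_map (h : Place L u c D σ) {a : Ω} (h0 : σ a ≠ 0) : a ≠ 0 := by
  rintro rfl
  exact h0 h.zero

theorem sum (h : Place L u c D σ) {ι : Type*} (s : Finset ι) (f : ι → Ω) (hf : ∀ i ∈ s, f i ∈ D) :
    σ (∑ i ∈ s, f i) = ∑ i ∈ s, σ (f i) := by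
  classical
  induction s using Finset.induction_on with
  | empty => rw [Finset.sum_empty, Finset.sum_empty, h.zero]
  | insert a s ha ih =>
    rw [Finset.sum_insert ha, Finset.sum_insert ha,
      h.add _ (hf a (Finset.mem_insert_self a s)) _
        (D.sum_mem fun i hi => hf i (Finset.mem_insert_of_mem hi)),
      ih fun i hi => hf i (Finset.mem_insert_of_mem hi)]

theorem prod (h : Place L u c D σ) {ι : Type*} (s : Finset ι) (f : ι → Ω) (hf : ∀ i ∈ s, f i ∈ D) :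
    σ (∏ i ∈ s, f i) = ∏ i ∈ s, σ (f i) := by
  classical
  induction s using Finset.induction_on with
  | empty => rw [Finset.prod_empty, Finset.prod_empty, h.one]
  | insert a s ha ih =>
    rw [Finset.prod_insert ha, Finset.prod_insert ha,
      h.mul _ (hf a (Finset.mem_insert_self a s)) _
        (D.prod_mem fun i hi => hf i (Finset.mem_insert_of_mem hi)),
      ih fun i hi => hf i (Finset.mem_insert_of_mem hi)]

theorem pow (h : Place L u c D σ) {a : Ω} (ha : a ∈ D) (n : ℕ) : σ (a ^ n) = σ a ^ n := by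
  induction n with
  | zero => rw [pow_zero, pow_zero, h.one]
  | succ n ih => rw [pow_succ, pow_succ, h.mul _ (D.pow_mem ha n) _ ha, ih]

theorem zpow (h : Place L u c D σ) {a : Ω} (ha : a ∈ D) (h0 : σ a ≠ 0) (n : ℤ) :
    a ^ n ∈ D ∧ σ (a ^ n) = σ a ^ n := by
  rcases n with n | n
  · rw [Int.ofNat_eq_natCast, zpow_natCast, zpow_natCast]
    exact ⟨D.pow_mem ha n, h.pow ha n⟩
  · obtain ⟨h1, h2⟩ := h.inv ha h0
    rw [zpow_negSucc, zpow_negSucc, ← inv_pow, ← inv_pow, ← h2]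
    exact ⟨D.pow_mem h1 _, h.pow h1 _⟩

/-- The kernel of the place is generated by `u - c`, if `c ∈ L`. -/
theorem ker (h : Place L u c D σ) (hc : c ∈ L) {d : Ω} (hd : d ∈ D) (h0 : σ d = 0) :
    ∃ P Q : L[X], aeval c Q ≠ 0 ∧ aeval u Q ≠ 0 ∧ aeval u Q * d = (u - c) * aeval u P := by
  obtain ⟨P, Q, hQ, hQu, rfl, hσ⟩ := h.exi d hd
  rw [h0] at hσ
  have h1 : aeval c P = 0 := (div_eq_zero_iff.1 hσ.symm).resolve_right hQ
  have h2 : P.eval (⟨c, hc⟩ : L) = 0 := by
    have h3 : algebraMap L Ω (P.eval (⟨c, hc⟩ : L)) = aeval c P := by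
      have h4 : (algebraMap L Ω) (⟨c, hc⟩ : L) = c := rfl
      rw [← aeval_algebraMap_apply_eq_algebraMap_eval, h4]
    rw [h1] at h3
    exact (map_eq_zero_iff _ (algebraMap L Ω).injective).1 h3
  obtain ⟨P', hP'⟩ := dvd_iff_isRoot.2 h2
  refine ⟨P', Q, hQ, hQu, ?_⟩
  rw [mul_div_cancel₀ _ hQu, hP', map_mul, map_sub, aeval_X, aeval_C]
  rfl

end Place

/-! ### The Gauss valuation -/

theorem genRes_val {L : IntermediateField k Ω} {u : Ω} (hg : GenRes v L u) : u ≠ 0 ∧ v u = 0 := by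
  obtain ⟨h1, h2⟩ := hg 0 (isAlgebraic_zero) RVal.Ge.zero
  rw [sub_zero] at h2
  exact ⟨h1, h2⟩

theorem genRes_sub {L : IntermediateField k Ω} {u : Ω} (hg : GenRes v L u) {β : Ω}
    (hβ : IsAlgebraic L β) : u ≠ β ∧ v (u - β) ≤ 0 ∧ (¬ v.Ge 0 β → v (u - β) = v β) := by
  by_cases hβ0 : v.Ge 0 β
  · obtain ⟨h1, h2⟩ := hg β hβ hβ0
    exact ⟨h1, h2.le, fun h => absurd hβ0 h⟩
  · obtain ⟨hu0, huv⟩ := genRes_val hg
    have h1 : β ≠ 0 ∧ v β < 0 := by
      rw [RVal.Ge] at hβ0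
      push Not at hβ0
      exact hβ0
    have h3 : -β ≠ 0 := neg_ne_zero.2 h1.1
    have h4 := v.add_of_lt h3 hu0 (by rw [v.map_neg _ h1.1]; linarith)
    have h5 : u - β = -β + u := by ring
    rw [h5, h4.2, v.map_neg _ h1.1]
    exact ⟨fun h6 => h4.1 (by rw [h6]; ring), h1.2.le, fun _ => rfl⟩

theorem aeval_eq_prod [IsAlgClosed Ω] {L : IntermediateField k Ω} (Q : L[X]) (x : Ω) :
    aeval x Q = (Q.leadingCoeff : Ω) *
      ((Q.map (algebraMap L Ω)).roots.map fun β => x - β).prod := by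
  obtain ⟨Q', hQ'⟩ : ∃ Q' : Polynomial Ω, Q' = Q.map (algebraMap L Ω) := ⟨_, rfl⟩
  have h1 : Q' = C Q'.leadingCoeff * (Q'.roots.map fun a : Ω => (X - C a : Polynomial Ω)).prod :=
    (IsAlgClosed.splits Q').eq_prod_roots
  have h2 : aeval x Q = Q'.eval x := by
    rw [hQ', eval_map, aeval_def]
  have h3 : Q'.leadingCoeff = (Q.leadingCoeff : Ω) := by
    rw [hQ', leadingCoeff_map]
    rfl
  rw [h2, ← hQ']
  conv_lhs => rw [h1]
  rw [eval_mul, eval_C, h3, eval_multiset_prod, Multiset.map_map]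
  congr 2
  refine Multiset.map_congr rfl fun β _ => ?_
  simp

theorem root_alg' {L : IntermediateField k Ω} {Q : L[X]} {β : Ω}
    (hβ : β ∈ (Q.map (algebraMap L Ω)).roots) : IsAlgebraic L β := by
  obtain ⟨h1, h2⟩ := mem_roots'.1 hβ
  refine ⟨Q, ?_, ?_⟩
  · rintro rfl
    exact h1 (Polynomial.map_zero _)
  · rw [aeval_def, ← eval_map]
    exact h2

/-- Almost all the values at elements of `k`. -/
theorem ev_sub (ht : Triv k v) {L : IntermediateField k Ω} {u : Ω} (hg : GenRes v L u) {β : Ω}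
    (hβ : IsAlgebraic L β) :
    ∀ᶠ c : k in Filter.cofinite, algebraMap k Ω c ≠ β ∧ v (algebraMap k Ω c - β) = v (u - β) := by
  have hk : ∀ c : k, v.Ge 0 (algebraMap k Ω c) := by
    intro c hc
    rw [ht c (by rintro rfl; simp at hc)]
  by_cases hβ0 : v.Ge 0 β
  · obtain ⟨h1, h2⟩ := hg β hβ hβ0
    rw [Filter.eventually_cofinite]
    refine Set.Subsingleton.finite ?_
    have key : ∀ c : k, ¬ (algebraMap k Ω c ≠ β ∧ v (algebraMap k Ω c - β) = v (u - β)) →
        VPos v (algebraMap k Ω c - β) := by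
      intro c hc h0
      by_contra h3
      apply hc
      refine ⟨fun h4 => h0 (by rw [h4, sub_self]), ?_⟩
      rw [h2]
      exact le_antisymm (not_lt.1 h3) ((hk c).sub hβ0 h0)
    intro c hc d hd
    by_contra hcd
    have h3 := (key c hc).sub (key d hd)
    have h4 : algebraMap k Ω c - β - (algebraMap k Ω d - β) = algebraMap k Ω (c - d) := by
      rw [map_sub]; ring
    rw [h4] at h3
    have h5 : algebraMap k Ω (c - d) ≠ 0 := by
      rw [_root_.map_ne_zero]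
      exact sub_ne_zero.2 hcd
    have h6 := h3 h5
    rw [ht _ (sub_ne_zero.2 hcd)] at h6
    exact lt_irrefl _ h6
  · obtain ⟨-, -, h2⟩ := genRes_sub hg hβ
    have h1 : β ≠ 0 ∧ v β < 0 := by
      rw [RVal.Ge] at hβ0
      push Not at hβ0
      exact hβ0
    refine Filter.Eventually.of_forall fun c => ?_
    rw [h2 hβ0]
    by_cases hc : algebraMap k Ω c = 0
    · rw [hc, zero_sub, v.map_neg _ h1.1]
      exact ⟨h1.1.symm, rfl⟩
    · have h3 : -β ≠ 0 := neg_ne_zero.2 h1.1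
      have h4 := v.add_of_lt h3 hc (by rw [v.map_neg _ h1.1]; linarith [hk c hc])
      have h5 : algebraMap k Ω c - β = -β + algebraMap k Ω c := by ring
      rw [h5, h4.2, v.map_neg _ h1.1]
      exact ⟨fun h6 => h4.1 (by rw [h6]; ring), rfl⟩

theorem ev_val [IsAlgClosed Ω] (ht : Triv k v) {L : IntermediateField k Ω} {u : Ω}
    (hg : GenRes v L u) {Q : L[X]} (hQ : Q ≠ 0) :
    ∀ᶠ c : k in Filter.cofinite, aeval (algebraMap k Ω c) Q ≠ 0 ∧
      v (aeval (algebraMap k Ω c) Q) = v (aeval u Q) := by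
  have hl : (Q.leadingCoeff : Ω) ≠ 0 := by
    intro h0
    exact leadingCoeff_ne_zero.2 hQ (Subtype.ext h0)
  have key : ∀ s : Multiset Ω, (∀ β ∈ s, IsAlgebraic L β) →
      ∀ᶠ c : k in Filter.cofinite, (s.map fun β => algebraMap k Ω c - β).prod ≠ 0 ∧
        (s.map fun β => u - β).prod ≠ 0 ∧
        v (s.map fun β => algebraMap k Ω c - β).prod = v (s.map fun β => u - β).prod := by
    intro s
    induction s using Multiset.induction_on with
    | empty =>
      intro _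
      refine Filter.Eventually.of_forall fun c => ?_
      simp
    | cons β s ih =>
      intro hs
      filter_upwards [ih fun β hβ => hs β (Multiset.mem_cons_of_mem hβ),
        ev_sub ht hg (hs β (Multiset.mem_cons_self β s))] with c hc hc'
      have h1 : algebraMap k Ω c - β ≠ 0 := sub_ne_zero.2 hc'.1
      have h2 : u - β ≠ 0 := sub_ne_zero.2 (genRes_sub hg (hs β (Multiset.mem_cons_self β s))).1
      rw [Multiset.map_cons, Multiset.prod_cons, Multiset.map_cons, Multiset.prod_cons]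
      refine ⟨mul_ne_zero h1 hc.1, mul_ne_zero h2 hc.2.1, ?_⟩
      rw [v.map_mul h1 hc.1, v.map_mul h2 hc.2.1, hc'.2, hc.2.2]
  filter_upwards [key _ fun β hβ => root_alg' hβ] with c hc
  rw [aeval_eq_prod Q (algebraMap k Ω c), aeval_eq_prod Q u]
  refine ⟨mul_ne_zero hl hc.1, ?_⟩
  rw [v.map_mul hl hc.1, v.map_mul hl hc.2.1, hc.2.2]

theorem le_lead [IsAlgClosed Ω] {L : IntermediateField k Ω} {u : Ω}
    (hg : GenRes v L u) {Q : L[X]} (hQ : Q ≠ 0) :
    aeval u Q ≠ 0 ∧ v (aeval u Q) ≤ v (Q.leadingCoeff : Ω) := by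
  have hl : (Q.leadingCoeff : Ω) ≠ 0 := by
    intro h0
    exact leadingCoeff_ne_zero.2 hQ (Subtype.ext h0)
  have key : ∀ s : Multiset Ω, (∀ β ∈ s, IsAlgebraic L β) →
      (s.map fun β => u - β).prod ≠ 0 ∧ v (s.map fun β => u - β).prod ≤ 0 := by
    intro s
    induction s using Multiset.induction_on with
    | empty =>
      intro _
      rw [Multiset.map_zero, Multiset.prod_zero]
      exact ⟨one_ne_zero, v.map_one.le⟩
    | cons β s ih =>
      intro hs
      obtain ⟨h1, h2⟩ := ih fun β hβ => hs β (Multiset.mem_cons_of_mem hβ)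
      obtain ⟨h3, h4, -⟩ := genRes_sub hg (hs β (Multiset.mem_cons_self β s))
      have h5 : u - β ≠ 0 := sub_ne_zero.2 h3
      rw [Multiset.map_cons, Multiset.prod_cons]
      refine ⟨mul_ne_zero h5 h1, ?_⟩
      rw [v.map_mul h5 h1]
      linarith
  obtain ⟨h1, h2⟩ := key _ fun β (hβ : β ∈ (Q.map (algebraMap L Ω)).roots) => root_alg' hβ
  rw [aeval_eq_prod Q u]
  refine ⟨mul_ne_zero hl h1, ?_⟩
  rw [v.map_mul hl h1]
  linarith

theorem trans_of_genRes [IsAlgClosed Ω] {L : IntermediateField k Ω} {u : Ω}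
    (hg : GenRes v L u) : Transcendental L u := by
  rintro ⟨Q, hQ, h0⟩
  exact (le_lead hg hQ).1 h0

theorem adj_pow_ge {u : Ω} (hu : v.Ge 0 u) (i : ℕ) : v.Ge 0 (u ^ i) := by
  intro h0
  have hu0 : u ≠ 0 ∨ i = 0 := by
    by_contra hcon
    push Not at hcon
    rw [hcon.1, zero_pow hcon.2] at h0
    exact h0 rfl
  rcases hu0 with hu0 | hi
  · rw [v.map_pow hu0]
    exact mul_nonneg (Nat.cast_nonneg _) (hu hu0)
  · rw [hi, pow_zero, v.map_one]

theorem ge_aeval' {L : IntermediateField k Ω} {u : Ω} (hu : v.Ge 0 u) {Q : L[X]}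
    (hQ : ∀ i, v.Ge 0 (Q.coeff i : Ω)) : v.Ge 0 (aeval u Q) := by
  rw [aeval_eq_sum_range]
  refine RVal.Ge.sum _ _ fun i _ => ?_
  rw [Algebra.smul_def]
  have h1 : v.Ge 0 (u ^ i) := adj_pow_ge hu i
  have h2 := (hQ i).mul h1
  rwa [add_zero] at h2

/-- The Gauss valuation, for polynomials with integral coefficients. -/
theorem gauss_unit [IsAlgClosed Ω] {L : IntermediateField k Ω} {u : Ω} (hg : GenRes v L u) :
    ∀ (n : ℕ) (Q : L[X]), Q.support.card ≤ n → (∀ i, v.Ge 0 (Q.coeff i : Ω)) → ∀ i,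
      (Q.coeff i : Ω) ≠ 0 → v (Q.coeff i : Ω) = 0 → aeval u Q ≠ 0 ∧ v (aeval u Q) = 0 := by
  obtain ⟨hu0, huv⟩ := genRes_val hg
  have hu : v.Ge 0 u := fun _ => huv.ge
  intro n
  induction n with
  | zero =>
    intro Q hn _ i hi _
    exfalso
    apply hi
    have h1 : Q.support = ∅ := Finset.card_eq_zero.1 (Nat.le_zero.1 hn)
    rw [support_eq_empty.1 h1, coeff_zero]
    rfl
  | succ n ih =>
    intro Q hn hQ i hi hiv
    have hQ0 : Q ≠ 0 := by
      rintro rfl
      apply hi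
      rw [coeff_zero]
      rfl
    obtain ⟨h1, h2⟩ := le_lead hg hQ0
    have h3 : v.Ge 0 (aeval u Q) := ge_aeval' hu hQ
    have hl : (Q.leadingCoeff : Ω) ≠ 0 := by
      intro h0
      exact leadingCoeff_ne_zero.2 hQ0 (Subtype.ext h0)
    refine ⟨h1, le_antisymm ?_ (h3 h1)⟩
    rcases (hQ Q.natDegree hl).lt_or_eq with h4 | h4
    · -- the leading coefficient has positive value
      have h5 : i ≠ Q.natDegree := by
        rintro rfl
        rw [hiv] at h4
        exact lt_irrefl _ h4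
      have hec : ∀ j, j ≠ Q.natDegree → Q.eraseLead.coeff j = Q.coeff j := fun j hj =>
        eraseLead_coeff_of_ne j hj
      obtain ⟨h6, h7⟩ := ih Q.eraseLead
        (Nat.le_of_lt_succ ((eraseLead_support_card_lt hQ0).trans_le hn)) (by
        intro j
        by_cases hj : j = Q.natDegree
        · rw [hj, eraseLead_coeff_natDegree]
          exact RVal.Ge.zero
        · rw [hec j hj]
          exact hQ j) i (by rwa [hec i h5]) (by rwa [hec i h5])
      have h8 : aeval u Q = aeval u Q.eraseLead + (Q.leadingCoeff : Ω) * u ^ Q.natDegree := by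
        conv_lhs => rw [← eraseLead_add_monomial_natDegree_leadingCoeff Q]
        rw [map_add, aeval_monomial]
        rfl
      have h9 : VPos v ((Q.leadingCoeff : Ω) * u ^ Q.natDegree) := by
        intro _
        rw [v.map_mul hl (pow_ne_zero _ hu0), v.map_pow hu0, huv, mul_zero, add_zero]
        exact h4
      rw [h8]
      exact (val_add_vpos h6 h7 h9).2.le
    · exact h2.trans h4.symm.le

end GD

end Pool.Agent.TW
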