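import Pool.Agent.Lib.TWG.GDa

/-!
# TANK W, Gauss descent (2): generators of the residue field
-/

set_option autoImplicit false

open Polynomial

namespace Pool.Agent.TW

open Pool.Agent.H15JM (RVal)
open Pool.Agent.LU1 (VPos adj val_add_vpos)

universe u

variable {k Ω : Type u} [Field k] [Field Ω] [Algebra k Ω] {v : RVal Ω}

/-- The residue field of `L` is generated by the residues of the elements of `Y`. -/
def ResGen (k : Type u) {Ω : Type u} [Field k] [Field Ω] [Algebra k Ω] (v : RVal Ω)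
    (L : IntermediateField k Ω) (Y : Finset Ω) : Prop :=
  (∀ y ∈ Y, y ∈ L ∧ v.Ge 0 y) ∧ ∀ f ∈ L, v.Ge 0 f →
    ∃ a ∈ LUC.adj (algebraMap k Ω).range (Y : Set Ω),
      ∃ b ∈ LUC.adj (algebraMap k Ω).range (Y : Set Ω), b ≠ 0 ∧ v b = 0 ∧ VPos v (f * b - a)

namespace GD

theorem coeff_ne {L : IntermediateField k Ω} {Q : L[X]} {i : ℕ} (hi : Q.coeff i ≠ 0) :
    (Q.coeff i : Ω) ≠ 0 := fun h0 => hi (Subtype.ext h0)

/-- The Gauss valuation. -/
theorem exists_norm [IsAlgClosed Ω] {L : IntermediateField k Ω} {u : Ω} (hg : GenRes v L u)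
    {Q : L[X]} (hQ : Q ≠ 0) : ∃ m ∈ L, m ≠ 0 ∧ (∀ i, v.Ge (v m) (Q.coeff i : Ω)) ∧
      aeval u Q ≠ 0 ∧ v (aeval u Q) = v m := by
  obtain ⟨i₀, hi₀, hmin⟩ := Finset.exists_min_image Q.support (fun i => v (Q.coeff i : Ω))
    (support_nonempty.2 hQ)
  have hm0 : (Q.coeff i₀ : Ω) ≠ 0 := coeff_ne (mem_support_iff.1 hi₀)
  have hge : ∀ i, v.Ge (v (Q.coeff i₀ : Ω)) (Q.coeff i : Ω) := by
    intro i h0
    refine hmin i (mem_support_iff.2 fun h1 => h0 ?_)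
    rw [h1]
    rfl
  obtain ⟨Q₁, hQ₁⟩ : ∃ Q₁ : L[X], Q₁ = C (Q.coeff i₀)⁻¹ * Q := ⟨_, rfl⟩
  have hc : ∀ i, (Q₁.coeff i : Ω) = (Q.coeff i₀ : Ω)⁻¹ * (Q.coeff i : Ω) := by
    intro i
    rw [hQ₁, coeff_C_mul]
    rfl
  have h1 : ∀ i, v.Ge 0 (Q₁.coeff i : Ω) := by
    intro i h0
    rw [hc] at h0 ⊢
    have h2 := right_ne_zero_of_mul h0
    rw [v.map_mul (inv_ne_zero hm0) h2, v.map_inv hm0]
    linarith [hge i h2]
  have h2 : (Q₁.coeff i₀ : Ω) = 1 := by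
    rw [hc, inv_mul_cancel₀ hm0]
  obtain ⟨h3, h4⟩ := gauss_unit hg _ Q₁ le_rfl h1 i₀ (by rw [h2]; exact one_ne_zero)
    (by rw [h2, v.map_one])
  have h5 : aeval u Q = (Q.coeff i₀ : Ω) * aeval u Q₁ := by
    rw [hQ₁, map_mul, aeval_C]
    change aeval u Q = (Q.coeff i₀ : Ω) * ((Q.coeff i₀ : Ω)⁻¹ * aeval u Q)
    rw [mul_inv_cancel_left₀ hm0]
  refine ⟨_, (Q.coeff i₀).2, hm0, hge, ?_, ?_⟩
  · rw [h5]
    exact mul_ne_zero hm0 h3
  · rw [h5, v.map_mul hm0 h3, h4, add_zero]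

/-- Approximation of the values of integral polynomials. -/
theorem res_poly {L : IntermediateField k Ω} {Y : Finset Ω} (hY : ResGen k v L Y) {u : Ω}
    (hu : v.Ge 0 u) {c : ℕ → Ω} (hc : ∀ i, c i ∈ L ∧ v.Ge 0 (c i)) (s : Finset ℕ)
    (ht : Triv k v) :
    ∃ b ∈ LUC.adj (algebraMap k Ω).range (Y : Set Ω), b ≠ 0 ∧ v b = 0 ∧
      ∃ q ∈ LUC.adj (algebraMap k Ω).range (insert u (Y : Set Ω)),
        VPos v (b * ∑ i ∈ s, c i * u ^ i - q) := by
  classical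
  have hR : ∀ a ∈ (algebraMap k Ω).range, v.Ge 0 a := by
    rintro _ ⟨a, rfl⟩ ha
    rw [ht a (by rintro rfl; simp at ha)]
  have hadj : ∀ a ∈ LUC.adj (algebraMap k Ω).range (Y : Set Ω), v.Ge 0 a :=
    LUC.adj_nonneg hR fun f hf => (hY.1 f hf).2
  have hle : LUC.adj (algebraMap k Ω).range (Y : Set Ω) ≤
      LUC.adj (algebraMap k Ω).range (insert u (Y : Set Ω)) :=
    LUC.adj_mono le_rfl (Set.subset_insert _ _)
  have huA : u ∈ LUC.adj (algebraMap k Ω).range (insert u (Y : Set Ω)) :=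
    LUC.mem_adj (Set.mem_insert _ _)
  have hun : ∀ n : ℕ, v.Ge 0 (u ^ n) := by
    intro n
    have h1 := adj_pow_ge hu n
    exact h1
  induction s using Finset.induction_on with
  | empty =>
    refine ⟨1, Subring.one_mem _, one_ne_zero, v.map_one, 0, Subring.zero_mem _, ?_⟩
    rw [Finset.sum_empty, mul_zero, sub_zero]
    exact VPos.zero
  | insert i s hi ih =>
    obtain ⟨b, hb, hb0, hbv, q, hq, hbq⟩ := ih
    obtain ⟨a, ha, d, hd, hd0, hdv, had⟩ := hY.2 _ (hc i).1 (hc i).2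
    refine ⟨b * d, Subring.mul_mem _ hb hd, mul_ne_zero hb0 hd0, ?_,
      d * q + b * (a * u ^ i), ?_, ?_⟩
    · rw [v.map_mul hb0 hd0, hbv, hdv, add_zero]
    · exact Subring.add_mem _ (Subring.mul_mem _ (hle hd) hq)
        (Subring.mul_mem _ (hle hb) (Subring.mul_mem _ (hle ha) (Subring.pow_mem _ huA i)))
    · rw [Finset.sum_insert hi]
      have e : b * d * (c i * u ^ i + ∑ i ∈ s, c i * u ^ i) - (d * q + b * (a * u ^ i)) =
          d * (b * ∑ i ∈ s, c i * u ^ i - q) + b * (u ^ i * (c i * d - a)) := by ring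
      rw [e]
      exact (VPos.mul' (hadj d hd) hbq).add (VPos.mul' (hadj b hb) (VPos.mul' (hun i) had))

/-- **The residue field of `L(u)`**, for a generic residue. -/
theorem resGen_gauss [IsAlgClosed Ω] (ht : Triv k v) {L : IntermediateField k Ω} {Y : Finset Ω}
    (hY : ResGen k v L Y) {u : Ω} (hg : GenRes v L u) [DecidableEq Ω] :
    ResGen k v (adj L u) (insert u Y) := by
  obtain ⟨hu0, huv⟩ := genRes_val hg
  have hu : v.Ge 0 u := fun _ => huv.ge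
  have hR : ∀ a ∈ (algebraMap k Ω).range, v.Ge 0 a := by
    rintro _ ⟨a, rfl⟩ ha
    rw [ht a (by rintro rfl; simp at ha)]
  have hcoe : ((insert u Y : Finset Ω) : Set Ω) = insert u (Y : Set Ω) := Finset.coe_insert _ _
  refine ⟨?_, ?_⟩
  · intro y hy
    rcases Finset.mem_insert.1 hy with rfl | hy
    · exact ⟨LU1.mem_adj_self L _, hu⟩
    · exact ⟨LU1.mem_adj_left (hY.1 y hy).1, (hY.1 y hy).2⟩
  intro f hf hf0
  rw [hcoe]
  have hadj : ∀ a ∈ LUC.adj (algebraMap k Ω).range (Y : Set Ω), v.Ge 0 a :=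
    LUC.adj_nonneg hR fun f hf => (hY.1 f hf).2
  have hadj' : ∀ a ∈ LUC.adj (algebraMap k Ω).range (insert u (Y : Set Ω)), v.Ge 0 a := by
    refine LUC.adj_nonneg hR fun f hf => ?_
    rcases Set.mem_insert_iff.1 hf with rfl | hf
    · exact hu
    · exact (hY.1 f hf).2
  have hle : LUC.adj (algebraMap k Ω).range (Y : Set Ω) ≤
      LUC.adj (algebraMap k Ω).range (insert u (Y : Set Ω)) :=
    LUC.adj_mono le_rfl (Set.subset_insert _ _)
  by_cases hff : f = 0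
  · refine ⟨0, Subring.zero_mem _, 1, Subring.one_mem _, one_ne_zero, v.map_one, ?_⟩
    rw [hff, zero_mul, sub_zero]
    exact VPos.zero
  obtain ⟨P, Q, hPQ⟩ := D2P.mem_adj_frac hf
  have hP0 : P ≠ 0 := by
    rintro rfl
    rw [map_zero, zero_div] at hPQ
    exact hff hPQ
  have hQ0 : Q ≠ 0 := by
    rintro rfl
    rw [map_zero, div_zero] at hPQ
    exact hff hPQ
  obtain ⟨m, hm, hm0, hmge, hQu, hQv⟩ := exists_norm hg hQ0
  obtain ⟨l, hl, hl0, hlge, hPu, hPv⟩ := exists_norm hg hP0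
  have hlm : v m ≤ v l := by
    have h1 := hf0 hff
    rw [hPQ, v.map_div hPu hQu, hPv, hQv] at h1
    linarith
  -- the normalized coefficients
  have hcP : ∀ i, m⁻¹ * (P.coeff i : Ω) ∈ L ∧ v.Ge 0 (m⁻¹ * (P.coeff i : Ω)) := by
    intro i
    refine ⟨mul_mem (L.inv_mem hm) (P.coeff i).2, fun h0 => ?_⟩
    have h2 := right_ne_zero_of_mul h0
    rw [v.map_mul (inv_ne_zero hm0) h2, v.map_inv hm0]
    linarith [hlge i h2]
  have hcQ : ∀ i, m⁻¹ * (Q.coeff i : Ω) ∈ L ∧ v.Ge 0 (m⁻¹ * (Q.coeff i : Ω)) := by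
    intro i
    refine ⟨mul_mem (L.inv_mem hm) (Q.coeff i).2, fun h0 => ?_⟩
    have h2 := right_ne_zero_of_mul h0
    rw [v.map_mul (inv_ne_zero hm0) h2, v.map_inv hm0]
    linarith [hmge i h2]
  obtain ⟨b, hb, hb0, hbv, p, hp, hbp⟩ := res_poly hY hu hcP (Finset.range (P.natDegree + 1)) ht
  obtain ⟨d, hd, hd0, hdv, q, hq, hdq⟩ := res_poly hY hu hcQ (Finset.range (Q.natDegree + 1)) ht
  have eP : ∑ i ∈ Finset.range (P.natDegree + 1), m⁻¹ * (P.coeff i : Ω) * u ^ i =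
      m⁻¹ * aeval u P := by
    rw [aeval_eq_sum_range, Finset.mul_sum]
    refine Finset.sum_congr rfl fun i _ => ?_
    rw [Algebra.smul_def, mul_assoc]
    rfl
  have eQ : ∑ i ∈ Finset.range (Q.natDegree + 1), m⁻¹ * (Q.coeff i : Ω) * u ^ i =
      m⁻¹ * aeval u Q := by
    rw [aeval_eq_sum_range, Finset.mul_sum]
    refine Finset.sum_congr rfl fun i _ => ?_
    rw [Algebra.smul_def, mul_assoc]
    rfl
  rw [eP] at hbp
  rw [eQ] at hdq
  -- `q` is a unit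
  have hQ1 : d * (m⁻¹ * aeval u Q) ≠ 0 := mul_ne_zero hd0 (mul_ne_zero (inv_ne_zero hm0) hQu)
  have hQ2 : v (d * (m⁻¹ * aeval u Q)) = 0 := by
    rw [v.map_mul hd0 (mul_ne_zero (inv_ne_zero hm0) hQu), hdv,
      v.map_mul (inv_ne_zero hm0) hQu, v.map_inv hm0, hQv]
    ring
  have hq0 : q ≠ 0 ∧ v q = 0 := by
    have h1 := val_add_vpos hQ1 hQ2 hdq.neg
    have h2 : d * (m⁻¹ * aeval u Q) + -(d * (m⁻¹ * aeval u Q) - q) = q := by ring
    rwa [h2] at h1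
  refine ⟨d * p, Subring.mul_mem _ (hle hd) hp, b * q, Subring.mul_mem _ (hle hb) hq,
    mul_ne_zero hb0 hq0.1, ?_, ?_⟩
  · rw [v.map_mul hb0 hq0.1, hbv, hq0.2, add_zero]
  · have e : f * (b * q) - d * p = f * (b * -(d * (m⁻¹ * aeval u Q) - q)) +
        d * (b * (m⁻¹ * aeval u P) - p) := by
      have h1 : aeval u P = f * aeval u Q := by
        rw [hPQ, div_mul_cancel₀ _ hQu]
      rw [h1]
      ring
    rw [e]
    exact (VPos.mul' hf0 (VPos.mul' (hadj b hb) hdq.neg)).add (VPos.mul' (hadj d hd) hbp)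

end GD

end Pool.Agent.TW
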