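import Pool.Agent.Lib.TWG.GDb
import Pool.Agent.Lib.TWG.GDc

/-!
# TANK W, Gauss descent (4): auxiliary lemmas
-/

set_option autoImplicit false

open Polynomial

namespace Pool.Agent.TW

open Pool.Agent.H15JM (RVal)
open Pool.Agent.LU1 (VPos adj val_add_vpos)
open Pool.Agent.LUC (LUs QuoIs lv)

universe u

variable {k Ω : Type u} [Field k] [Field Ω] [Algebra k Ω] {v : RVal Ω}

namespace GD

/-- One more generator. -/
theorem quoIs_insert {L : IntermediateField k Ω} {A : Set Ω} {u : Ω}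
    (hQ : QuoIs (LUC.adj (algebraMap k Ω).range A) L.toSubfield) :
    QuoIs (LUC.adj (algebraMap k Ω).range (insert u A)) (adj L u).toSubfield := by
  obtain ⟨B, hB⟩ : ∃ B : Subring Ω, B = LUC.adj (algebraMap k Ω).range (insert u A) := ⟨_, rfl⟩
  rw [← hB]
  have hAB : LUC.adj (algebraMap k Ω).range A ≤ B := by
    rw [hB]
    exact LUC.adj_mono le_rfl (Set.subset_insert _ _)
  have huB : u ∈ B := by
    rw [hB]
    exact LUC.mem_adj (Set.mem_insert _ _)
  refine TWT.quoIs_of_closure ?_ ?_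
  · intro f hf
    rw [hB] at hf
    refine LUC.adj_induction (p := fun f => f ∈ (adj L u).toSubfield) ?_ ?_
      (fun _ _ => add_mem) (fun _ _ => mul_mem) hf
    · rintro _ ⟨c, rfl⟩
      exact (adj L u).algebraMap_mem c
    · intro x hx
      rcases Set.mem_insert_iff.1 hx with rfl | hx
      · exact LU1.mem_adj_self L _
      · exact LU1.mem_adj_left (hQ.1 x (LUC.mem_adj hx))
  · let M : IntermediateField k Ω := (Subfield.closure (B : Set Ω)).toIntermediateField
      (fun c => Subfield.subset_closure (by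
        rw [hB]
        exact LUC.base_le_adj _ _ (RingHom.mem_range_self _ c)))
    have hM : ∀ x, x ∈ M ↔ x ∈ Subfield.closure (B : Set Ω) := fun _ => Iff.rfl
    have hle : adj L u ≤ M := by
      refine sup_le ?_ ?_
      · intro x hx
        rw [hM]
        obtain ⟨a, ha, b, hb, -, rfl⟩ := hQ.2 x hx
        exact Subfield.div_mem _ (Subfield.subset_closure (hAB ha))
          (Subfield.subset_closure (hAB hb))
      · rw [IntermediateField.adjoin_le_iff, Set.singleton_subset_iff]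
        exact (hM u).2 (Subfield.subset_closure huB)
    intro f hf
    exact (hM f).1 (hle hf)

/-- Clearing denominators. -/
theorem clear_poly {L : Subfield Ω} {B₀ B : Subring Ω} (hQ : QuoIs B₀ L) (hB : B₀ ≤ B) {u : Ω}
    (hu : u ∈ B) {c : ℕ → Ω} (hc : ∀ i, c i ∈ L) (t : Finset ℕ) :
    ∃ s ∈ B₀, s ≠ 0 ∧ s * ∑ i ∈ t, c i * u ^ i ∈ B := by
  classical
  induction t using Finset.induction_on with
  | empty =>
    refine ⟨1, B₀.one_mem, one_ne_zero, ?_⟩
    rw [Finset.sum_empty, mul_zero]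
    exact B.zero_mem
  | insert i t hi ih =>
    obtain ⟨s, hs, hs0, h1⟩ := ih
    obtain ⟨a, ha, b, hb, hb0, hab⟩ := hQ.2 _ (hc i)
    refine ⟨b * s, B₀.mul_mem hb hs, mul_ne_zero hb0 hs0, ?_⟩
    rw [Finset.sum_insert hi]
    have e : b * s * (c i * u ^ i + ∑ i ∈ t, c i * u ^ i) =
        s * (a * u ^ i) + b * (s * ∑ i ∈ t, c i * u ^ i) := by
      have h2 : c i * b = a := by rw [hab, div_mul_cancel₀ _ hb0]
      rw [← h2]
      ring
    rw [e]
    exact B.add_mem (B.mul_mem (hB hs) (B.mul_mem (hB ha) (B.pow_mem hu i)))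
      (B.mul_mem (hB hb) h1)

/-- Common denominators. -/
theorem lv_clear {B : Subring Ω} {ι : Type*} (s : Finset ι) (a : ι → Ω)
    (ha : ∀ i ∈ s, a i ∈ lv v B) : ∃ d ∈ B, d ≠ 0 ∧ v d = 0 ∧ ∀ i ∈ s, d * a i ∈ B := by
  classical
  induction s using Finset.induction_on with
  | empty => exact ⟨1, B.one_mem, one_ne_zero, v.map_one, fun i hi => absurd hi (Finset.notMem_empty i)⟩
  | insert i s hi ih =>
    obtain ⟨d, hd, hd0, hdv, h1⟩ := ih fun j hj => ha j (Finset.mem_insert_of_mem hj)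
    obtain ⟨x, hx, y, hy, hy0, hyv, hxy⟩ := ha i (Finset.mem_insert_self i s)
    refine ⟨d * y, B.mul_mem hd hy, mul_ne_zero hd0 hy0, ?_, ?_⟩
    · rw [v.map_mul hd0 hy0, hdv, hyv, add_zero]
    · intro j hj
      rcases Finset.mem_insert.1 hj with rfl | hj
      · have e : d * y * a j = d * x := by
          rw [hxy]
          field_simp
        rw [e]
        exact B.mul_mem hd hx
      · have e : d * y * a j = y * (d * a j) := by ring
        rw [e]
        exact B.mul_mem hy (h1 j hj)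

/-- Almost all the places preserve the value of `f`. -/
theorem ev_good [IsAlgClosed Ω] (ht : Triv k v) {L : IntermediateField k Ω} {u : Ω}
    (hg : GenRes v L u) {f : Ω} (hf : f ∈ adj L u) :
    ∀ᶠ c : k in Filter.cofinite, ∀ (D : Subring Ω) (σ : Ω → Ω),
      Place L u (algebraMap k Ω c) D σ → f ∈ D ∧ (f ≠ 0 → σ f ≠ 0 ∧ v (σ f) = v f) := by
  by_cases hf0 : f = 0
  · refine Filter.Eventually.of_forall fun c D σ h => ?_
    rw [hf0]
    exact ⟨D.zero_mem, fun h0 => absurd rfl h0⟩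
  obtain ⟨P, Q, hPQ⟩ := D2P.mem_adj_frac hf
  have hP0 : P ≠ 0 := by
    rintro rfl
    rw [map_zero, zero_div] at hPQ
    exact hf0 hPQ
  have hQ0 : Q ≠ 0 := by
    rintro rfl
    rw [map_zero, div_zero] at hPQ
    exact hf0 hPQ
  have hPu := (le_lead hg hP0).1
  have hQu := (le_lead hg hQ0).1
  filter_upwards [ev_val ht hg hP0, ev_val ht hg hQ0] with c hcP hcQ D σ h
  obtain ⟨h1, h2⟩ := h.frac P Q hcQ.1
  rw [← hPQ] at h1 h2
  refine ⟨h1, fun _ => ?_⟩
  rw [h2]
  refine ⟨div_ne_zero hcP.1 hcQ.1, ?_⟩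
  rw [v.map_div hcP.1 hcQ.1, hcP.2, hcQ.2, hPQ, v.map_div hPu hQu]

/-- There are good places, for finite sets. -/
theorem exists_good [Infinite k] [IsAlgClosed Ω] (ht : Triv k v) {L : IntermediateField k Ω}
    {u : Ω} (hg : GenRes v L u) (S : Finset Ω) (hS : ∀ f ∈ S, f ∈ adj L u) :
    ∃ (c : k) (D : Subring Ω) (σ : Ω → Ω), Place L u (algebraMap k Ω c) D σ ∧
      ∀ f ∈ S, f ∈ D ∧ (f ≠ 0 → σ f ≠ 0 ∧ v (σ f) = v f) := by
  have h1 : ∀ᶠ c : k in Filter.cofinite, ∀ f ∈ S, ∀ (D : Subring Ω) (σ : Ω → Ω),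
      Place L u (algebraMap k Ω c) D σ → f ∈ D ∧ (f ≠ 0 → σ f ≠ 0 ∧ v (σ f) = v f) := by
    rw [Filter.eventually_all_finset]
    exact fun f hf => ev_good ht hg (hS f hf)
  obtain ⟨c, hc⟩ := h1.exists
  obtain ⟨D, σ, h⟩ := exists_place (algebraMap k Ω c) (trans_of_genRes hg)
  exact ⟨c, D, σ, h, fun f hf => hc f hf D σ h⟩

end GD

end Pool.Agent.TW
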