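import Pool.Agent.Lib.TWG.GD
import Pool.Agent.Lib.TWH.H2

/-!
# TANK W, Gauss descent (5): henselization and towers
-/

set_option autoImplicit false

open Polynomial

namespace Pool.Agent.TW

open Pool.Agent.H15JM (RVal)
open Pool.Agent.LU1 (VPos adj)
open Pool.Agent.LUC (LUs QuoIs)
open Pool.Agent.D2 (Ctx0)
open Pool.Agent.D2P (hen)

universe u

variable {k Ω : Type u} [Field k] [Field Ω] [Algebra k Ω] {v : RVal Ω}

/-- If the residue field is `k`, no generators are needed. -/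
theorem resGen_empty (h : Ctx0 k v) (L : IntermediateField k Ω) : ResGen k v L ∅ := by
  refine ⟨fun y hy => absurd hy (Finset.notMem_empty y), fun f _ hf0 => ?_⟩
  obtain ⟨c, hc⟩ := h.residue hf0
  refine ⟨algebraMap k Ω c, LUC.base_le_adj _ _ ⟨c, rfl⟩, 1, Subring.one_mem _, one_ne_zero,
    v.map_one, ?_⟩
  rw [mul_one]
  exact hc

/-- The residue field of the henselization. -/
theorem ResGen.of_le_hen (ht : Triv k v) {L M : IntermediateField k Ω} {Y : Finset Ω}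
    (hY : ResGen k v L Y) (hLM : L ≤ M) (hM : M ≤ hen v L) : ResGen k v M Y := by
  have hR : ∀ a ∈ (algebraMap k Ω).range, v.Ge 0 a := by
    rintro _ ⟨a, rfl⟩ ha
    rw [ht a (by rintro rfl; simp at ha)]
  have hadj : ∀ a ∈ LUC.adj (algebraMap k Ω).range (Y : Set Ω), v.Ge 0 a :=
    LUC.adj_nonneg hR fun f hf => (hY.1 f hf).2
  refine ⟨fun y hy => ⟨hLM (hY.1 y hy).1, (hY.1 y hy).2⟩, fun f hf hf0 => ?_⟩
  obtain ⟨f₀, hf₀, h1⟩ := (D2P.mem_hen.1 (hM hf)).1 1
  have h2 : VPos v (f - f₀) := fun h0 => lt_of_lt_of_le one_pos (h1 h0)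
  have h3 : v.Ge 0 f₀ := by
    have h4 := hf0.sub h2.ge
    rwa [sub_sub_cancel] at h4
  obtain ⟨a, ha, b, hb, hb0, hbv, h5⟩ := hY.2 f₀ hf₀ h3
  refine ⟨a, ha, b, hb, hb0, hbv, ?_⟩
  have e : f * b - a = b * (f - f₀) + (f₀ * b - a) := by ring
  rw [e]
  exact (VPos.mul' (hadj b hb) h2).add h5

/-- Generators of the residue field in a smaller field. -/
theorem ResGen.descend (ht : Triv k v) {L M : IntermediateField k Ω} {Y : Finset Ω}
    (hY : ResGen k v M Y) (hLM : L ≤ M) (hM : M ≤ hen v L) :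
    ∃ Y₀ : Finset Ω, ResGen k v L Y₀ := by
  classical
  have hR : ∀ a ∈ (algebraMap k Ω).range, v.Ge 0 a := by
    rintro _ ⟨a, rfl⟩ ha
    rw [ht a (by rintro rfl; simp at ha)]
  have hap : ∀ y : Ω, ∃ y₀ : Ω, y ∈ Y → y₀ ∈ L ∧ v.Ge 0 y₀ ∧ VPos v (y - y₀) := by
    intro y
    by_cases hy : y ∈ Y
    · obtain ⟨y₀, hy₀, h1⟩ := (D2P.mem_hen.1 (hM (hY.1 y hy).1)).1 1
      have h2 : VPos v (y - y₀) := fun h0 => lt_of_lt_of_le one_pos (h1 h0)
      refine ⟨y₀, fun _ => ⟨hy₀, ?_, h2⟩⟩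
      have h4 := (hY.1 y hy).2.sub h2.ge
      rwa [sub_sub_cancel] at h4
    · exact ⟨0, fun h => absurd h hy⟩
  choose y₀ hy₀ using hap
  have hY₀ : ∀ y ∈ Y.image y₀, y ∈ L ∧ v.Ge 0 y := by
    intro y hy
    obtain ⟨x, hx, rfl⟩ := Finset.mem_image.1 hy
    exact ⟨(hy₀ x hx).1, (hy₀ x hx).2.1⟩
  have hadj : ∀ a ∈ LUC.adj (algebraMap k Ω).range ((Y.image y₀ : Finset Ω) : Set Ω), v.Ge 0 a :=
    LUC.adj_nonneg hR fun f hf => (hY₀ f hf).2
  have hpp : ∀ p ∈ LUC.adj (algebraMap k Ω).range (Y : Set Ω), v.Ge 0 p ∧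
      ∃ p₀ ∈ LUC.adj (algebraMap k Ω).range ((Y.image y₀ : Finset Ω) : Set Ω),
        VPos v (p - p₀) := by
    intro p hp
    refine LUC.adj_induction (p := fun p => v.Ge 0 p ∧
      ∃ p₀ ∈ LUC.adj (algebraMap k Ω).range ((Y.image y₀ : Finset Ω) : Set Ω),
        VPos v (p - p₀)) ?_ ?_ ?_ ?_ hp
    · intro a ha
      refine ⟨hR a ha, a, LUC.base_le_adj _ _ ha, ?_⟩
      rw [sub_self]
      exact VPos.zero
    · intro y hy
      exact ⟨(hY.1 y hy).2, y₀ y, LUC.mem_adj (Finset.mem_coe.2 (Finset.mem_image_of_mem _ hy)),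
        (hy₀ y hy).2.2⟩
    · rintro a b ⟨ha, a₀, ha₀, h1⟩ ⟨hb, b₀, hb₀, h2⟩
      refine ⟨ha.add hb, a₀ + b₀, Subring.add_mem _ ha₀ hb₀, ?_⟩
      have e : a + b - (a₀ + b₀) = (a - a₀) + (b - b₀) := by ring
      rw [e]
      exact h1.add h2
    · rintro a b ⟨ha, a₀, ha₀, h1⟩ ⟨hb, b₀, hb₀, h2⟩
      have h3 := ha.mul hb
      rw [add_zero] at h3
      refine ⟨h3, a₀ * b₀, Subring.mul_mem _ ha₀ hb₀, ?_⟩
      have e : a * b - a₀ * b₀ = b * (a - a₀) + a₀ * (b - b₀) := by ring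
      rw [e]
      exact (VPos.mul' hb h1).add (VPos.mul' (hadj a₀ ha₀) h2)
  refine ⟨Y.image y₀, hY₀, fun f hf hf0 => ?_⟩
  obtain ⟨a, ha, b, hb, hb0, hbv, h1⟩ := hY.2 f (hLM hf) hf0
  obtain ⟨-, a₀, ha₀, h2⟩ := hpp a ha
  obtain ⟨-, b₀, hb₀, h3⟩ := hpp b hb
  have h4 := LU1.val_add_vpos hb0 hbv h3.neg
  have h5 : b + -(b - b₀) = b₀ := by ring
  rw [h5] at h4
  refine ⟨a₀, ha₀, b₀, hb₀, h4.1, h4.2, ?_⟩
  have e : f * b₀ - a₀ = (f * b - a) + (f * -(b - b₀) + (a - a₀)) := by ring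
  rw [e]
  exact h1.add ((VPos.mul' hf0 h3.neg).add h2)

/-- Log uniformization depends only on the henselization, for valuations with any residue
field. -/
theorem lus_of_henT [IsAlgClosed Ω] (ht : Triv k v) {E K₁ : IntermediateField k Ω}
    (hE : E.FG) (hK₁ : K₁.FG) (hpos : ∃ a ∈ E, a ≠ 0 ∧ 0 < v a) (hh : hen v E = hen v K₁)
    (hL : LUs v (algebraMap k Ω).range K₁.toSubfield) :
    LUs v (algebraMap k Ω).range E.toSubfield := by
  have h1 : ∀ a ∈ E, a ∈ hen v K₁ := fun a ha => by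
    rw [← hh]
    exact D2P.le_hen E ha
  have h2 : ∀ a ∈ K₁, a ∈ hen v E := fun a ha => by
    rw [hh]
    exact D2P.le_hen K₁ ha
  have hk : ∀ c : k, v.Ge 0 (algebraMap k Ω c) := by
    intro c hc
    rw [ht c (by rintro rfl; simp at hc)]
  exact lus_of_cl' E K₁ hk hpos hE hK₁
    (fun a ha => (D2P.mem_hen.1 (h1 a ha)).1) (fun a ha => (D2P.mem_hen.1 (h2 a ha)).1)
    (fun a ha => (D2P.mem_hen.1 (h1 a ha)).2) (fun a ha => (D2P.mem_hen.1 (h2 a ha)).2) hL

theorem GenRes.of_alg {L M : IntermediateField k Ω} {u : Ω} (hg : GenRes v L u)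
    (hM : ∀ a ∈ M, IsAlgebraic L a) : GenRes v M u := fun β hβ hβ0 =>
  hg β (D2P.isAlgebraic_trans hM hβ) hβ0

/-- **Gauss descent**, with the henselization. -/
theorem gauss_descent_hen [Infinite k] [IsAlgClosed Ω] (ht : Triv k v)
    {L : IntermediateField k Ω} (hL : L.FG) (hpos : ∃ a ∈ L, a ≠ 0 ∧ 0 < v a) {Y : Finset Ω}
    (hY : ResGen k v L Y) {z α c₀ : Ω} (hα : α ∈ hen v L) (hc : c₀ ∈ L) (hc0 : c₀ ≠ 0)
    (hg : GenRes v L ((z - α) / c₀))
    (hLU : LUs v (algebraMap k Ω).range (adj L z).toSubfield) :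
    LUs v (algebraMap k Ω).range L.toSubfield := by
  obtain ⟨M, hM⟩ : ∃ M : IntermediateField k Ω, M = adj L α := ⟨_, rfl⟩
  have hLM : L ≤ M := by
    rw [hM]
    exact (D2P.mem_adj_self _ _).2
  have hαM : α ∈ M := by
    rw [hM]
    exact LU1.mem_adj_self L α
  have hMh : M ≤ hen v L := by
    rw [hM]
    exact D2P.adj_le (D2P.le_hen L) hα
  have hhM : hen v M = hen v L := le_antisymm
    (D2P.hen_le (D2P.hen_hen L) hMh) (D2P.hen_mono hLM)
  have hMFG : M.FG := by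
    rw [hM]
    exact D2P.fg_adj hL α
  have halg : ∀ a ∈ M, IsAlgebraic L a := fun a ha =>
    (D2P.mem_hen.1 (hMh ha)).2.isIntegral.isAlgebraic
  obtain ⟨a, ha, ha0, hav⟩ := hpos
  -- `L(α, z)`
  have h1 : LUs v (algebraMap k Ω).range (adj M z).toSubfield :=
    lus_of_henT ht (D2P.fg_adj hMFG z) (D2P.fg_adj hL z) ⟨a, LU1.mem_adj_left (hLM ha), ha0, hav⟩
      (D2P.hen_adj_congr hhM z) hLU
  -- the generic residue
  obtain ⟨u, hu⟩ : ∃ u : Ω, u = (z - α) / c₀ := ⟨_, rfl⟩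
  rw [← hu] at hg
  have hzu : z = α + c₀ * u := by
    rw [hu, mul_div_cancel₀ _ hc0]
    ring
  have h2 : adj M z = adj M u := by
    apply le_antisymm
    · refine D2P.adj_le (D2P.mem_adj_self _ _).2 ?_
      rw [hzu]
      exact add_mem (LU1.mem_adj_left hαM) (mul_mem (LU1.mem_adj_left (hLM hc))
        (LU1.mem_adj_self M u))
    · refine D2P.adj_le (D2P.mem_adj_self _ _).2 ?_
      rw [hu]
      exact div_mem (sub_mem (LU1.mem_adj_self M z) (LU1.mem_adj_left hαM))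
        (LU1.mem_adj_left (hLM hc))
  rw [h2] at h1
  have h3 := gauss_descent ht (hY.of_le_hen ht hLM hMh) (hg.of_alg halg) h1
  exact lus_of_henT ht hL hMFG ⟨a, ha, ha0, hav⟩ hhM.symm h3

/-- Towers of Gauss extensions: in each step the new element is `α + c₀ u`, `α` in the
henselization, the residue of `u` generic. -/
inductive GTower (v : RVal Ω) (L : IntermediateField k Ω) : IntermediateField k Ω → Prop
  | refl : GTower v L L
  | step {M : IntermediateField k Ω} {z α c₀ : Ω} (hM : GTower v L M) (hα : α ∈ hen v M)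
      (hc : c₀ ∈ M) (hc0 : c₀ ≠ 0) (hg : GenRes v M ((z - α) / c₀)) : GTower v L (adj M z)

theorem GTower.le {L M : IntermediateField k Ω} (h : GTower v L M) : L ≤ M := by
  induction h with
  | refl => exact le_rfl
  | step hM hα hc hc0 hg ih => exact ih.trans (D2P.mem_adj_self _ _).2

theorem GTower.fg {L M : IntermediateField k Ω} (h : GTower v L M) (hL : L.FG) : M.FG := by
  induction h with
  | refl => exact hL
  | step hM hα hc hc0 hg ih => exact D2P.fg_adj ih _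

theorem GTower.resGen [IsAlgClosed Ω] (ht : Triv k v) {L M : IntermediateField k Ω}
    (h : GTower v L M) {Y : Finset Ω} (hY : ResGen k v L Y) : ∃ Y' : Finset Ω, ResGen k v M Y' := by
  classical
  induction h with
  | refl => exact ⟨Y, hY⟩
  | @step M z α c₀ hM hα hc hc0 hg ih =>
    obtain ⟨Y', hY'⟩ := ih
    obtain ⟨u, hu⟩ : ∃ u : Ω, u = (z - α) / c₀ := ⟨_, rfl⟩
    rw [← hu] at hg
    have h1 := GD.resGen_gauss ht hY' hg
    -- `M(u)` and `M(z)` have the same henselization over `M(α)`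
    have hzu : z = α + c₀ * u := by
      rw [hu, mul_div_cancel₀ _ hc0]
      ring
    have hαz : α ∈ hen v (adj M z) := D2P.hen_mono (D2P.mem_adj_self _ _).2 hα
    have hαu : α ∈ hen v (adj M u) := D2P.hen_mono (D2P.mem_adj_self _ _).2 hα
    have h2 : adj M z ≤ hen v (adj M u) := by
      refine D2P.adj_le ((D2P.mem_adj_self _ _).2.trans (D2P.le_hen _)) ?_
      rw [hzu]
      exact add_mem hαu (D2P.le_hen _ (mul_mem (LU1.mem_adj_left hc) (LU1.mem_adj_self M u)))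
    have h3 : adj M u ≤ hen v (adj M z) := by
      refine D2P.adj_le ((D2P.mem_adj_self _ _).2.trans (D2P.le_hen _)) ?_
      rw [hu]
      exact div_mem (sub_mem (D2P.le_hen _ (LU1.mem_adj_self M z)) hαz)
        (D2P.le_hen _ (LU1.mem_adj_left hc))
    have h4 : hen v (adj M u) = hen v (adj M z) := le_antisymm
      (D2P.hen_le (D2P.hen_hen _) h3) (D2P.hen_le (D2P.hen_hen _) h2)
    have h5 := h1.of_le_hen ht (D2P.le_hen _) le_rfl
    rw [h4] at h5
    exact h5.descend ht (D2P.le_hen _) le_rfl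

/-- **Gauss descent** in a tower. -/
theorem GTower.lus [Infinite k] [IsAlgClosed Ω] (ht : Triv k v) {L M : IntermediateField k Ω}
    (h : GTower v L M) (hL : L.FG) (hpos : ∃ a ∈ L, a ≠ 0 ∧ 0 < v a) {Y : Finset Ω}
    (hY : ResGen k v L Y) (hLU : LUs v (algebraMap k Ω).range M.toSubfield) :
    LUs v (algebraMap k Ω).range L.toSubfield := by
  induction h with
  | refl => exact hLU
  | @step M z α c₀ hM hα hc hc0 hg ih =>
    apply ih
    obtain ⟨Y', hY'⟩ := hM.resGen ht hY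
    obtain ⟨a, ha, ha0, hav⟩ := hpos
    exact gauss_descent_hen ht (hM.fg hL) ⟨a, hM.le ha, ha0, hav⟩ hY' hα hc hc0 hg hLU

end Pool.Agent.TW
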