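import Pool.Agent.Lib.TWG.GUa
import Pool.Agent.Lib.TW.Estar
import Pool.Agent.Lib.TWH.H1

/-!
# TANK W, row GU: Gauss ascent

`gauss_ascent`: if `L` is log uniformizable and the residue of `u` is transcendental over the
residues of the algebraic elements over `L`, then `L(u)` is log uniformizable.
-/

set_option autoImplicit false

open Polynomial

namespace Pool.Agent.TW

open Pool.Agent.H15JM (RVal)
open Pool.Agent.LU1 (VPos adj)
open Pool.Agent.LUC (lv LUs QuoIs IP Par IsMod SM)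

universe u

variable {k Ω : Type u} [Field k] [Field Ω] [Algebra k Ω] {v : RVal Ω}

namespace GU

/-- A common denominator. -/
theorem exists_den {B : Subring Ω} {K : Subfield Ω} (hQ : QuoIs B K) (S : Finset Ω)
    (hS : ∀ s ∈ S, s ∈ K) : ∃ d ∈ B, d ≠ 0 ∧ ∀ s ∈ S, d * s ∈ B := by
  classical
  induction S using Finset.induction_on with
  | empty => exact ⟨1, B.one_mem, one_ne_zero, fun s hs => absurd hs (Finset.notMem_empty s)⟩
  | insert a S ha ih =>
    obtain ⟨d, hd, hd0, h1⟩ := ih fun s hs => hS s (Finset.mem_insert_of_mem hs)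
    obtain ⟨x, hx, y, hy, hy0, hxy⟩ := hQ.2 a (hS a (Finset.mem_insert_self a S))
    refine ⟨d * y, B.mul_mem hd hy, mul_ne_zero hd0 hy0, fun s hs => ?_⟩
    rcases Finset.mem_insert.1 hs with rfl | hs
    · have e : d * y * s = d * x := by
        rw [hxy]
        field_simp
      rw [e]
      exact B.mul_mem hd hx
    · have e : d * y * s = y * (d * s) := by ring
      rw [e]
      exact B.mul_mem hy (h1 s hs)

/-- A power of a common denominator of the generators clears the denominators. -/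
theorem exists_pow {R B : Subring Ω} (hRB : R ≤ B) {F : Set Ω} {d : Ω} (hd : d ∈ B)
    (hF : ∀ f ∈ F, d * f ∈ B) {x : Ω} (hx : x ∈ LUC.adj R F) :
    ∃ N : ℕ, ∀ M, N ≤ M → d ^ M * x ∈ B := by
  refine LUC.adj_induction (p := fun x => ∃ N : ℕ, ∀ M, N ≤ M → d ^ M * x ∈ B) ?_ ?_ ?_ ?_ hx
  · intro a ha
    exact ⟨0, fun M _ => B.mul_mem (B.pow_mem hd M) (hRB ha)⟩
  · intro a ha
    refine ⟨1, fun M hM => ?_⟩
    obtain ⟨m, rfl⟩ := Nat.exists_eq_add_of_le hM
    have e : d ^ (1 + m) * a = d ^ m * (d * a) := by ring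
    rw [e]
    exact B.mul_mem (B.pow_mem hd m) (hF a ha)
  · rintro f g ⟨N, hN⟩ ⟨N', hN'⟩
    refine ⟨max N N', fun M hM => ?_⟩
    rw [mul_add]
    exact B.add_mem (hN M ((le_max_left _ _).trans hM)) (hN' M ((le_max_right _ _).trans hM))
  · rintro f g ⟨N, hN⟩ ⟨N', hN'⟩
    refine ⟨N + N', fun M hM => ?_⟩
    obtain ⟨m, rfl⟩ := Nat.exists_eq_add_of_le hM
    have e : d ^ (N + N' + m) * (f * g) = d ^ N * f * (d ^ (N' + m) * g) := by ring
    rw [e]
    exact B.mul_mem (hN N le_rfl) (hN' _ (Nat.le_add_right _ _))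

theorem exists_pow' {R B : Subring Ω} (hRB : R ≤ B) {F : Set Ω} {d : Ω} (hd : d ∈ B)
    (hF : ∀ f ∈ F, d * f ∈ B) (S : Finset Ω) (hS : ∀ x ∈ S, x ∈ LUC.adj R F) :
    ∃ N : ℕ, ∀ M, N ≤ M → ∀ x ∈ S, d ^ M * x ∈ B := by
  classical
  induction S using Finset.induction_on with
  | empty => exact ⟨0, fun M _ x hx => absurd hx (Finset.notMem_empty x)⟩
  | insert a S ha ih =>
    obtain ⟨N, hN⟩ := ih fun x hx => hS x (Finset.mem_insert_of_mem hx)
    obtain ⟨N', hN'⟩ := exists_pow hRB hd hF (hS a (Finset.mem_insert_self a S))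
    refine ⟨max N N', fun M hM x hx => ?_⟩
    rcases Finset.mem_insert.1 hx with rfl | hx
    · exact hN' M ((le_max_right _ _).trans hM)
    · exact hN M ((le_max_left _ _).trans hM) x hx

theorem sm_pow {O : Subring Ω} {n : ℕ} {z : Fin n → Ω} {J : Finset (Fin n)} {t : Ω}
    (hz : ∀ i, z i ≠ 0) (h : SM v O z J t) (h0 : 0 ≤ v t) : ∀ N : ℕ, SM v O z J (t ^ N)
  | 0 => by
    rw [pow_zero]
    exact SM.one
  | N + 1 => by
    rw [pow_succ]
    refine (sm_pow hz h h0 N).mul hz ?_ h h0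
    rw [v.map_pow (h.ne hz)]
    exact mul_nonneg (Nat.cast_nonneg _) h0

end GU

open GU GD in
/-- **Gauss ascent.** -/
theorem gauss_ascent [IsAlgClosed Ω] (ht : Triv k v) {L : IntermediateField k Ω} (hL : L.FG)
    {u : Ω} (hg : GenRes v L u) (hLU : LUs v (algebraMap k Ω).range L.toSubfield) :
    LUs v (algebraMap k Ω).range (adj L u).toSubfield := by
  classical
  obtain ⟨hu0, huv⟩ := genRes_val hg
  have hu : v.Ge 0 u := fun _ => huv.ge
  obtain ⟨A₁, hA₁, hQ₁⟩ := H1.exists_quo v hL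
  obtain ⟨R, hR⟩ : ∃ R : Subring Ω, R = (algebraMap k Ω).range := ⟨_, rfl⟩
  have hRv : ∀ a ∈ R, v.Ge 0 a := by
    rw [hR]
    rintro _ ⟨a, rfl⟩ ha
    rw [ht a (by rintro rfl; simp at ha)]
  have hRL : ∀ a ∈ R, a ∈ L := by
    rw [hR]
    rintro _ ⟨a, rfl⟩
    exact L.algebraMap_mem a
  have hRn : IsNoetherianRing R := by
    rw [hR]
    exact isNoetherianRing_range (algebraMap k Ω)
  rw [← hR] at hQ₁ hLU ⊢
  intro A hA hQ T hT
  have hA₁L : ∀ a ∈ A₁, a ∈ L := fun a ha => hQ₁.1 a (LUC.mem_adj (Finset.mem_coe.2 ha))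
  have huE : u ∈ adj L u := LU1.mem_adj_self L u
  -- a common denominator of `A₁` and `u`
  obtain ⟨d, hdA, hd0, hd⟩ := GU.exists_den hQ (insert u A₁) (by
    intro s hs
    rcases Finset.mem_insert.1 hs with rfl | hs
    · exact huE
    · exact LU1.mem_adj_left (hA₁L s hs))
  -- fractions
  obtain ⟨E, hE⟩ : ∃ E : Finset Ω, E = insert d (A ∪ T) := ⟨_, rfl⟩
  have hEL : ∀ f ∈ E, f ∈ adj L u := by
    intro f hf
    rw [hE, Finset.mem_insert, Finset.mem_union] at hf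
    rcases hf with rfl | hf | hf
    · exact hQ.1 _ hdA
    · exact hQ.1 _ (LUC.mem_adj (Finset.mem_coe.2 hf))
    · exact (hT f hf).1
  have hfrac : ∀ f : Ω, ∃ P Q : L[X], f ∈ E → f ≠ 0 → P ≠ 0 ∧ Q ≠ 0 ∧
      aeval u Q ≠ 0 ∧ f = aeval u P / aeval u Q := by
    intro f
    by_cases hf : f ∈ E ∧ f ≠ 0
    · obtain ⟨P, Q, h1, h2, -, h4, h5⟩ := Est.exists_frac (hEL f hf.1) hf.2
      exact ⟨P, Q, fun _ _ => ⟨h1, h2, h4, h5⟩⟩
    · exact ⟨0, 0, fun h1 h2 => absurd ⟨h1, h2⟩ hf⟩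
  choose P Q hPQ using hfrac
  obtain ⟨Cf, hCf⟩ : ∃ Cf : Finset Ω, Cf = E.biUnion fun f =>
      ((P f).support.image fun i => ((P f).coeff i : Ω)) ∪
        ((Q f).support.image fun i => ((Q f).coeff i : Ω)) := ⟨_, rfl⟩
  have hCfL : ∀ c ∈ Cf, c ∈ L ∧ c ≠ 0 := by
    intro c hc
    rw [hCf, Finset.mem_biUnion] at hc
    obtain ⟨f, -, hc⟩ := hc
    rcases Finset.mem_union.1 hc with hc | hc
    · obtain ⟨i, hi, rfl⟩ := Finset.mem_image.1 hc
      exact ⟨((P f).coeff i).2, coeff_ne (mem_support_iff.1 hi)⟩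
    · obtain ⟨i, hi, rfl⟩ := Finset.mem_image.1 hc
      exact ⟨((Q f).coeff i).2, coeff_ne (mem_support_iff.1 hi)⟩
  have hPc : ∀ f ∈ E, ∀ i, ((P f).coeff i : Ω) ≠ 0 → ((P f).coeff i : Ω) ∈ Cf := by
    intro f hf i hi
    rw [hCf, Finset.mem_biUnion]
    refine ⟨f, hf, Finset.mem_union_left _ (Finset.mem_image.2 ⟨i, mem_support_iff.2 ?_, rfl⟩)⟩
    intro h0
    rw [h0] at hi
    exact hi rfl
  have hQc : ∀ f ∈ E, ∀ i, ((Q f).coeff i : Ω) ≠ 0 → ((Q f).coeff i : Ω) ∈ Cf := by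
    intro f hf i hi
    rw [hCf, Finset.mem_biUnion]
    refine ⟨f, hf, Finset.mem_union_right _ (Finset.mem_image.2 ⟨i, mem_support_iff.2 ?_, rfl⟩)⟩
    intro h0
    rw [h0] at hi
    exact hi rfl
  obtain ⟨T₁, hT₁⟩ : ∃ T₁ : Finset Ω, T₁ = (Cf ×ˢ Cf).image fun q => q.1 / q.2 := ⟨_, rfl⟩
  have hT₁m : ∀ c ∈ Cf, ∀ c' ∈ Cf, c / c' ∈ T₁ := by
    intro c hc c' hc'
    rw [hT₁]
    exact Finset.mem_image.2 ⟨(c, c'), Finset.mem_product.2 ⟨hc, hc'⟩, rfl⟩
  obtain ⟨n, z, J, O₁, hmod, hdim⟩ := hLU A₁ hA₁ hQ₁ T₁ (by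
    intro t ht'
    rw [hT₁] at ht'
    obtain ⟨q, hq, rfl⟩ := Finset.mem_image.1 ht'
    obtain ⟨h1, h2⟩ := Finset.mem_product.1 hq
    exact ⟨div_mem (hCfL _ h1).1 (hCfL _ h2).1, div_ne_zero (hCfL _ h1).2 (hCfL _ h2).2⟩)
  obtain ⟨g₂, hg₂A, hg₂0, hg₂m, G₂, hG₂, hO₁⟩ := hmod.chart
  have hz := hmod.par.mem
  have hz0 := hmod.par.ne
  have hgen := hmod.par.gen
  have hmono := hmod.mono
  -- the ring of the chart of `L`
  obtain ⟨F₁, hF₁⟩ : ∃ F₁ : Finset Ω, F₁ = A₁ ∪ G₂.image fun x => x / g₂ := ⟨_, rfl⟩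
  have hF₁c : ((A₁ : Set Ω) ∪ (fun x => x / g₂) '' (G₂ : Set Ω)) = (F₁ : Set Ω) := by
    rw [hF₁, Finset.coe_union, Finset.coe_image]
  rw [hF₁c] at hO₁
  have hg₂v : 0 ≤ v g₂ := LUC.adj_nonneg hRv hA₁ g₂ hg₂A hg₂0
  have hF₁v : ∀ f ∈ F₁, v.Ge 0 f := by
    intro f hf
    rw [hF₁, Finset.mem_union, Finset.mem_image] at hf
    rcases hf with hf | ⟨x, hx, rfl⟩
    · exact hA₁ f hf
    · intro hxg
      have hx0 : x ≠ 0 := by
        rintro rfl
        simp at hxg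
      rw [v.map_div hx0 hg₂0]
      have := (hG₂ x hx).2 hx0
      linarith
  have hF₁L : ∀ f ∈ F₁, f ∈ L := by
    intro f hf
    rw [hF₁, Finset.mem_union, Finset.mem_image] at hf
    rcases hf with hf | ⟨x, hx, rfl⟩
    · exact hA₁L f hf
    · exact div_mem (hQ₁.1 x (hG₂ x hx).1) (hQ₁.1 g₂ hg₂A)
  have hB₁0 : ∀ f ∈ LUC.adj R (F₁ : Set Ω), v.Ge 0 f := LUC.adj_nonneg hRv hF₁v
  have hO₁0 : ∀ f ∈ O₁, v.Ge 0 f := by
    rw [hO₁]
    exact LUC.lv_nonneg hB₁0
  have hO₁L : ∀ f ∈ O₁, f ∈ L := by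
    rw [hO₁]
    rintro f ⟨a, ha, b, hb, -, -, rfl⟩
    have key : ∀ x ∈ LUC.adj R (F₁ : Set Ω), x ∈ L := fun x hx =>
      LUC.adj_induction (p := fun x => x ∈ L) hRL hF₁L (fun _ _ => add_mem)
        (fun _ _ => mul_mem) hx
    exact div_mem (key a ha) (key b hb)
  have hO₁n : IsNoetherianRing O₁ := by
    have h1 : IsNoetherianRing (LUC.adj R (F₁ : Set Ω)) := LUC.adj_isNoetherian _ _
    rw [hO₁]
    exact LUC.lv_isNoetherian _
  have hO₁lv : lv v O₁ = O₁ := by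
    rw [hO₁]
    exact LUC.lv_lv v _
  -- the ring of the chart of `L(u)`
  obtain ⟨O, hO⟩ : ∃ O : Subring Ω, O = lv v (LUC.adj O₁ {u}) := ⟨_, rfl⟩
  have hO₁O : O₁ ≤ O := by
    rw [hO]
    exact (LUC.base_le_adj _ _).trans (LUC.le_lv v _)
  have huO : u ∈ O := by
    rw [hO]
    exact LUC.le_lv v _ (LUC.mem_adj (Set.mem_singleton u))
  have hS0 : ∀ f ∈ LUC.adj O₁ {u}, v.Ge 0 f := LUC.adj_nonneg hO₁0 (by
    intro f hf
    rw [Set.mem_singleton_iff] at hf
    rw [hf]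
    exact hu)
  have hO0 : ∀ f ∈ O, v.Ge 0 f := by
    rw [hO]
    exact LUC.lv_nonneg hS0
  have hOinv : ∀ f ∈ O, f ≠ 0 → v f = 0 → f⁻¹ ∈ O := by
    rw [hO]
    exact fun f => LUC.lv_inv
  have hzO : ∀ i, z i ∈ O := fun i => hO₁O (hz i)
  -- polynomials are monomials times units
  have hpoly : ∀ W : L[X], W ≠ 0 → (∀ i, (W.coeff i : Ω) ≠ 0 → (W.coeff i : Ω) ∈ Cf) →
      ∃ c ∈ Cf, ∃ w ∈ O, w ≠ 0 ∧ v w = 0 ∧ aeval u W = c * w := by
    intro W hW hWc
    obtain ⟨i₀, hm0, hge, W₁, hW₁, he, h1, h2⟩ := exists_min hg hW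
    refine ⟨_, hWc i₀ hm0, aeval u W₁, ?_, h1, h2, he⟩
    rw [aeval_eq_sum_range]
    refine sum_mem fun i _ => ?_
    rw [Algebra.smul_def]
    refine mul_mem (hO₁O ?_) (pow_mem huO i)
    show (W₁.coeff i : Ω) ∈ O₁
    rw [hW₁]
    by_cases hi : (W.coeff i : Ω) = 0
    · rw [hi, zero_div]
      exact zero_mem _
    · refine SM.mem hz (hmono _ (Finset.mem_coe.2 (hT₁m _ (hWc i hi) _ (hWc i₀ hm0)))) ?_
      rw [v.map_div hi hm0]
      linarith [hge i hi]
  have hmonoE : ∀ f ∈ E, f ≠ 0 → SM v O z J f := by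
    intro f hf hf0
    obtain ⟨hP0, hQ0, -, hfe⟩ := hPQ f hf hf0
    obtain ⟨c, hc, w, hw, hw0, hwv, e1⟩ := hpoly _ hP0 (hPc f hf)
    obtain ⟨c', hc', w', hw', hw'0, hw'v, e2⟩ := hpoly _ hQ0 (hQc f hf)
    have h1 : SM v O z J (c / c') :=
      SM.mono_ring hO₁O (hmono _ (Finset.mem_coe.2 (hT₁m c hc c' hc')))
    have h2 := h1.mul_unit hz0 (mul_mem hw (hOinv w' hw' hw'0 hw'v))
      (mul_ne_zero hw0 (inv_ne_zero hw'0)) (by
        rw [v.map_mul hw0 (inv_ne_zero hw'0), v.map_inv hw'0, hwv, hw'v]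
        ring)
    have e : f = c / c' * (w * w'⁻¹) := by
      rw [hfe, e1, e2]
      have h3 := (hCfL c' hc').2
      field_simp
    rw [e]
    exact h2
  have hAO : ∀ a ∈ A, a ∈ O := by
    intro a ha
    by_cases ha0 : a = 0
    · rw [ha0]
      exact zero_mem _
    · refine SM.mem hzO (hmonoE a ?_ ha0) (hA a ha ha0)
      rw [hE]
      exact Finset.mem_insert_of_mem (Finset.mem_union_left _ ha)
  -- the generators
  obtain ⟨F, hF⟩ : ∃ F : Finset Ω, F = insert u F₁ := ⟨_, rfl⟩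
  have hOF : O = lv v (LUC.adj R (F : Set Ω)) := by
    rw [hO, hO₁, LUC.lv_adj_lv]
    have e : LUC.adj (LUC.adj R (F₁ : Set Ω)) {u} = LUC.adj R (F : Set Ω) := by
      refine le_antisymm (LUC.adj_le (LUC.adj_mono le_rfl ?_) ?_)
        (LUC.adj_le ((LUC.base_le_adj _ _).trans (LUC.base_le_adj _ _)) ?_)
      · rw [hF, Finset.coe_insert]
        exact Set.subset_insert _ _
      · intro x hx
        rw [Set.mem_singleton_iff] at hx
        rw [hx]
        exact LUC.mem_adj (by rw [hF, Finset.coe_insert]; exact Set.mem_insert _ _)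
      · intro x hx
        rw [hF, Finset.coe_insert] at hx
        rcases Set.mem_insert_iff.1 hx with rfl | hx
        · exact LUC.mem_adj (Set.mem_singleton _)
        · exact LUC.base_le_adj _ _ (LUC.mem_adj hx)
    rw [e]
  -- the denominator
  obtain ⟨B, hB⟩ : ∃ B : Subring Ω, B = LUC.adj R (A : Set Ω) := ⟨_, rfl⟩
  rw [← hB] at hdA hd
  have hRB : R ≤ B := by
    rw [hB]
    exact LUC.base_le_adj _ _
  obtain ⟨N, hN⟩ := exists_pow' hRB hdA (F := (A₁ : Set Ω))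
    (fun f hf => hd f (Finset.mem_insert_of_mem (Finset.mem_coe.1 hf))) (insert g₂ G₂) (by
      intro x hx
      rcases Finset.mem_insert.1 hx with rfl | hx
      · exact hg₂A
      · exact (hG₂ x hx).1)
  have hdv : 0 ≤ v d := by
    rw [hB] at hdA
    exact LUC.adj_nonneg hRv hA d hdA hd0
  have hdSM : SM v O z J d := hmonoE d (by rw [hE]; exact Finset.mem_insert_self _ _) hd0
  obtain ⟨g, hgdef⟩ : ∃ g : Ω, g = d ^ (N + 1) * g₂ := ⟨_, rfl⟩
  have hg0 : g ≠ 0 := by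
    rw [hgdef]
    exact mul_ne_zero (pow_ne_zero _ hd0) hg₂0
  have hgB : g ∈ B := by
    rw [hgdef]
    exact hN (N + 1) (Nat.le_succ N) g₂ (Finset.mem_insert_self _ _)
  have hgSM : SM v O z J g := by
    rw [hgdef]
    refine (sm_pow hz0 hdSM hdv (N + 1)).mul hz0 ?_ (SM.mono_ring hO₁O hg₂m) hg₂v
    rw [v.map_pow hd0]
    exact mul_nonneg (Nat.cast_nonneg _) hdv
  obtain ⟨G, hG⟩ : ∃ G : Finset Ω, G = (insert u A₁).image (fun a => g * a) ∪
      G₂.image fun x => d ^ (N + 1) * x := ⟨_, rfl⟩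
  have hGF : (fun x => x / g) '' (G : Set Ω) = (F : Set Ω) := by
    ext y
    constructor
    · rintro ⟨x, hx, rfl⟩
      rw [hG, Finset.coe_union, Finset.coe_image, Finset.coe_image] at hx
      rw [hF, hF₁]
      rcases hx with ⟨a, ha, rfl⟩ | ⟨x, hx, rfl⟩
      · have e : g * a / g = a := by rw [mul_div_cancel_left₀ _ hg0]
        show g * a / g ∈ _
        rw [e, Finset.mem_coe, Finset.mem_insert, Finset.mem_union]
        rcases Finset.mem_insert.1 (Finset.mem_coe.1 ha) with rfl | ha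
        · exact Or.inl rfl
        · exact Or.inr (Or.inl ha)
      · have e : d ^ (N + 1) * x / g = x / g₂ := by
          rw [hgdef, mul_div_mul_left _ _ (pow_ne_zero _ hd0)]
        show d ^ (N + 1) * x / g ∈ _
        rw [e, Finset.mem_coe, Finset.mem_insert, Finset.mem_union, Finset.mem_image]
        exact Or.inr (Or.inr ⟨x, Finset.mem_coe.1 hx, rfl⟩)
    · intro hy
      rw [hF, hF₁, Finset.mem_coe, Finset.mem_insert, Finset.mem_union, Finset.mem_image] at hy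
      rw [hG]
      have h1 : ∀ a ∈ insert u A₁, a ∈ (fun x => x / g) ''
          (((insert u A₁).image (fun a => g * a) ∪
            G₂.image fun x => d ^ (N + 1) * x : Finset Ω) : Set Ω) := fun a ha =>
        ⟨g * a, Finset.mem_coe.2 (Finset.mem_union_left _ (Finset.mem_image.2 ⟨a, ha, rfl⟩)),
          mul_div_cancel_left₀ _ hg0⟩
      rcases hy with rfl | hy | ⟨x, hx, rfl⟩
      · exact h1 _ (Finset.mem_insert_self _ _)
      · exact h1 _ (Finset.mem_insert_of_mem hy)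
      · refine ⟨d ^ (N + 1) * x, Finset.mem_coe.2 (Finset.mem_union_right _
          (Finset.mem_image.2 ⟨x, hx, rfl⟩)), ?_⟩
        show d ^ (N + 1) * x / g = x / g₂
        rw [hgdef, mul_div_mul_left _ _ (pow_ne_zero _ hd0)]
  have hGB : ∀ x ∈ G, x ∈ B ∧ v.Ge (v g) x := by
    intro x hx
    rw [hG, Finset.mem_union, Finset.mem_image, Finset.mem_image] at hx
    rcases hx with ⟨a, ha, rfl⟩ | ⟨x, hx, rfl⟩
    · refine ⟨?_, ?_⟩
      · have e : g * a = d ^ N * g₂ * (d * a) := by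
          rw [hgdef]
          ring
        rw [e]
        exact mul_mem (hN N le_rfl g₂ (Finset.mem_insert_self _ _)) (hd a ha)
      · intro h0
        have ha0 : a ≠ 0 := right_ne_zero_of_mul h0
        rw [v.map_mul hg0 ha0]
        have h1 : 0 ≤ v a := by
          rcases Finset.mem_insert.1 ha with rfl | ha
          · exact huv.ge
          · exact hA₁ a ha ha0
        linarith
    · refine ⟨hN (N + 1) (Nat.le_succ N) x (Finset.mem_insert_of_mem hx), ?_⟩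
      intro h0
      have hx0 : x ≠ 0 := right_ne_zero_of_mul h0
      rw [hgdef, v.map_mul (pow_ne_zero _ hd0) hx0, v.map_mul (pow_ne_zero _ hd0) hg₂0]
      linarith [(hG₂ x hx).2 hx0]
  -- the chart
  refine ⟨n, z, J, O, ⟨⟨hzO, hz0, hmod.par.pos, ?_⟩, ?_, ?_⟩, ?_⟩
  · -- the parameters generate
    intro f hf hfv
    rw [hO] at hf
    obtain ⟨a, ha, b, hb, hb0, hbv, rfl⟩ := hf
    have hav : VPos v a := by
      intro ha0
      have h1 := hfv (div_ne_zero ha0 hb0)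
      rw [v.map_div ha0 hb0, hbv, sub_zero] at h1
      exact h1
    obtain ⟨W, rfl⟩ := mem_adj_iff.1 ha
    obtain ⟨W', hW'c, hW'e⟩ := exists_polyL hO₁L W u
    rw [div_eq_mul_inv]
    refine IP.mul_right ?_ (hOinv b ?_ hb0 hbv)
    · rw [eval₂_eq_sum_range]
      refine IP.sum _ _ fun i _ => ?_
      refine IP.mul_right ?_ (pow_mem huO i)
      refine IP.mono hO₁O hzO (hgen _ (W.coeff i).2 ?_)
      have h1 := coeff_vpos hg (Q := W') (by rw [hW'e]; exact hav) i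
      rwa [hW'c] at h1
    · rw [hO]
      exact LUC.le_lv v _ hb
  · refine ⟨g, by rw [← hB]; exact hgB, hg0, hgSM, G, by rw [← hB]; exact hGB, ?_⟩
    rw [hGF, hOF]
    refine (LUC.lv_eq_of_le (LUC.adj_mono le_rfl Set.subset_union_right) ?_).symm
    refine LUC.adj_le ((LUC.base_le_adj _ _).trans (LUC.le_lv v _)) ?_
    rintro x (hx | hx)
    · rw [← hOF]
      exact hAO x (Finset.mem_coe.1 hx)
    · exact LUC.le_lv v _ (LUC.mem_adj hx)
  · intro t ht'
    refine hmonoE t ?_ (hT t (Finset.mem_coe.1 ht')).2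
    rw [hE]
    exact Finset.mem_insert_of_mem (Finset.mem_union_right _ (Finset.mem_coe.1 ht'))
  · rw [hO, dim_gauss hg hO₁L hO₁0 hO₁n hO₁lv]
    exact hdim

end Pool.Agent.TW
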