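import Pool.Agent.Lib.TWG.GDd
import Pool.Agent.Lib.TWG.GDb
import Mathlib.RingTheory.KrullDimension.Polynomial

/-!
# TANK W, row GU, part a: the dimension of the local ring of a Gauss extension
-/

set_option autoImplicit false

open Polynomial

namespace Pool.Agent.TW

open Pool.Agent.H15JM (RVal)
open Pool.Agent.LU1 (VPos adj)
open Pool.Agent.LUC (lv)

universe u

variable {k Ω : Type u} [Field k] [Field Ω] [Algebra k Ω] {v : RVal Ω}

namespace GU

open GD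

/-- A polynomial has the value of one of its coefficients, which is minimal. -/
theorem exists_min [IsAlgClosed Ω] {L : IntermediateField k Ω} {u : Ω} (hg : GenRes v L u)
    {Q : L[X]} (hQ : Q ≠ 0) : ∃ i₀, (Q.coeff i₀ : Ω) ≠ 0 ∧
      (∀ i, v.Ge (v (Q.coeff i₀ : Ω)) (Q.coeff i : Ω)) ∧
      ∃ Q₁ : L[X], (∀ i, (Q₁.coeff i : Ω) = (Q.coeff i : Ω) / (Q.coeff i₀ : Ω)) ∧
        aeval u Q = (Q.coeff i₀ : Ω) * aeval u Q₁ ∧ aeval u Q₁ ≠ 0 ∧ v (aeval u Q₁) = 0 := by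
  obtain ⟨i₀, hi₀, hmin⟩ := Finset.exists_min_image Q.support (fun i => v (Q.coeff i : Ω))
    (support_nonempty.2 hQ)
  have hm0 : (Q.coeff i₀ : Ω) ≠ 0 := coeff_ne (mem_support_iff.1 hi₀)
  have hge : ∀ i, v.Ge (v (Q.coeff i₀ : Ω)) (Q.coeff i : Ω) := by
    intro i h0
    refine hmin i (mem_support_iff.2 fun h1 => h0 ?_)
    rw [h1]
    rfl
  obtain ⟨Q₁, hQ₁⟩ : ∃ Q₁ : L[X], Q₁ = C (Q.coeff i₀)⁻¹ * Q := ⟨_, rfl⟩
  have hc : ∀ i, (Q₁.coeff i : Ω) = (Q.coeff i : Ω) / (Q.coeff i₀ : Ω) := by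
    intro i
    rw [hQ₁, coeff_C_mul, div_eq_inv_mul]
    rfl
  have h1 : ∀ i, v.Ge 0 (Q₁.coeff i : Ω) := by
    intro i h0
    rw [hc] at h0 ⊢
    have h2 : (Q.coeff i : Ω) ≠ 0 := fun h3 => h0 (by rw [h3, zero_div])
    rw [v.map_div h2 hm0]
    linarith [hge i h2]
  have h2 : (Q₁.coeff i₀ : Ω) = 1 := by
    rw [hc, div_self hm0]
  obtain ⟨h3, h4⟩ := gauss_unit hg _ Q₁ le_rfl h1 i₀ (by rw [h2]; exact one_ne_zero)
    (by rw [h2, v.map_one])
  have h5 : aeval u Q = (Q.coeff i₀ : Ω) * aeval u Q₁ := by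
    rw [hQ₁, map_mul, aeval_C]
    change aeval u Q = (Q.coeff i₀ : Ω) * ((Q.coeff i₀ : Ω)⁻¹ * aeval u Q)
    rw [mul_inv_cancel_left₀ hm0]
  exact ⟨i₀, hm0, hge, Q₁, hc, h5, h3, h4⟩

/-- If the value of a polynomial is positive, so are the ones of its coefficients. -/
theorem coeff_vpos [IsAlgClosed Ω] {L : IntermediateField k Ω} {u : Ω} (hg : GenRes v L u)
    {Q : L[X]} (h : VPos v (aeval u Q)) (i : ℕ) : VPos v (Q.coeff i : Ω) := by
  by_cases hQ : Q = 0
  · subst hQ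
    rw [coeff_zero]
    exact fun h0 => absurd rfl h0
  obtain ⟨i₀, hm0, hge, Q₁, -, he, h1, h2⟩ := exists_min hg hQ
  intro h0
  have h3 : 0 < v (aeval u Q) := h (by rw [he]; exact mul_ne_zero hm0 h1)
  rw [he, v.map_mul hm0 h1, h2, add_zero] at h3
  linarith [hge i h0]

/-- The polynomials over a subring of `L`, as polynomials over `L`. -/
theorem exists_polyL {L : IntermediateField k Ω} {O : Subring Ω} (hOL : ∀ f ∈ O, f ∈ L)
    (P : Polynomial O) (u : Ω) : ∃ Q : L[X], (∀ i, (Q.coeff i : Ω) = (P.coeff i : Ω)) ∧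
      aeval u Q = P.eval₂ O.subtype u := by
  let ι : O →+* L :=
    { toFun := fun a => ⟨a, hOL a a.2⟩
      map_one' := rfl
      map_mul' := fun _ _ => rfl
      map_zero' := rfl
      map_add' := fun _ _ => rfl }
  refine ⟨P.map ι, fun i => ?_, ?_⟩
  · rw [coeff_map]
    rfl
  · rw [aeval_def, eval₂_map]
    rfl

theorem mem_adj_iff {O : Subring Ω} {u f : Ω} :
    f ∈ LUC.adj O {u} ↔ ∃ P : Polynomial O, P.eval₂ O.subtype u = f := by
  constructor
  · intro hf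
    refine LUC.adj_induction (p := fun f => ∃ P : Polynomial O, P.eval₂ O.subtype u = f)
      ?_ ?_ ?_ ?_ hf
    · intro a ha
      exact ⟨C ⟨a, ha⟩, by rw [eval₂_C]; rfl⟩
    · intro a ha
      rw [Set.mem_singleton_iff] at ha
      exact ⟨X, by rw [eval₂_X, ha]⟩
    · rintro f g ⟨P, rfl⟩ ⟨Q, rfl⟩
      exact ⟨P + Q, eval₂_add _ _⟩
    · rintro f g ⟨P, rfl⟩ ⟨Q, rfl⟩
      exact ⟨P * Q, eval₂_mul _ _⟩
  · rintro ⟨P, rfl⟩
    rw [eval₂_eq_sum_range]
    refine sum_mem fun i _ => mul_mem ?_ (pow_mem (LUC.mem_adj (Set.mem_singleton u)) i)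
    exact LUC.base_le_adj _ _ (P.coeff i).2

/-- The dimension does not change in a Gauss extension. -/
theorem dim_gauss [IsAlgClosed Ω] {L : IntermediateField k Ω} {u : Ω} (hg : GenRes v L u)
    {O : Subring Ω} (hOL : ∀ f ∈ O, f ∈ L) (hO0 : ∀ f ∈ O, v.Ge 0 f)
    (hOn : IsNoetherianRing O) (hlv : lv v O = O) :
    ringKrullDim (lv v (LUC.adj O {u})) = ringKrullDim O := by
  obtain ⟨hu0, huv⟩ := genRes_val hg
  have hu : v.Ge 0 u := fun _ => huv.ge
  obtain ⟨S, hS⟩ : ∃ S : Subring Ω, S = LUC.adj O {u} := ⟨_, rfl⟩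
  have hS0 : ∀ f ∈ S, v.Ge 0 f := by
    rw [hS]
    refine LUC.adj_nonneg hO0 ?_
    intro f hf
    rw [Set.mem_singleton_iff] at hf
    rw [hf]
    exact hu
  have hmax : (TWT.cen v O hO0).IsMaximal := by
    rw [Ideal.isMaximal_iff]
    refine ⟨fun h1 => ?_, fun I x _ hx hxI => ?_⟩
    · rw [TWT.mem_cen] at h1
      have h2 := h1 one_ne_zero
      rw [Subring.coe_one, v.map_one] at h2
      exact absurd h2 (lt_irrefl _)
    · obtain ⟨hx0, hx1⟩ := TWT.notMem_cen.1 hx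
      have h1 : (x : Ω)⁻¹ ∈ O := by
        have h2 := LUC.lv_inv (LUC.le_lv v O x.2) hx0 hx1
        rwa [hlv] at h2
      have h2 := I.mul_mem_left (⟨(x : Ω)⁻¹, h1⟩ : O) hxI
      have h3 : (⟨(x : Ω)⁻¹, h1⟩ : O) * x = 1 := Subtype.ext (inv_mul_cancel₀ hx0)
      rwa [h3] at h2
  have hfS : ∀ P : Polynomial O, P.eval₂ O.subtype u ∈ S := fun P => by
    rw [hS]
    exact mem_adj_iff.2 ⟨P, rfl⟩
  obtain ⟨φ, hφ⟩ : ∃ φ : Polynomial O →+* S, ∀ P, ((φ P : S) : Ω) = P.eval₂ O.subtype u :=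
    ⟨(eval₂RingHom O.subtype u).codRestrict S hfS, fun _ => rfl⟩
  have hinj : Function.Injective φ := by
    rw [injective_iff_map_eq_zero]
    intro P hP
    obtain ⟨Q, hQc, hQe⟩ := exists_polyL hOL P u
    have h1 : aeval u Q = 0 := by
      rw [hQe, ← hφ, hP]
      rfl
    have h2 : Q = 0 := by
      by_contra h0
      exact (le_lead hg h0).1 h1
    ext i
    rw [coeff_zero]
    have h3 := hQc i
    rw [h2, coeff_zero] at h3
    exact h3.symm
  have hsurj : Function.Surjective φ := by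
    rintro ⟨f, hf⟩
    have hf' := hf
    rw [hS] at hf'
    obtain ⟨P, hP⟩ := mem_adj_iff.1 hf'
    exact ⟨P, Subtype.ext ((hφ P).trans hP)⟩
  obtain ⟨e, he⟩ : ∃ e : Polynomial O ≃+* S, ∀ P, e P = φ P :=
    ⟨RingEquiv.ofBijective φ ⟨hinj, hsurj⟩, fun _ => rfl⟩
  have hcomap : (TWT.cen v S hS0).comap e = (TWT.cen v O hO0).map C := by
    ext P
    rw [Ideal.mem_comap, Ideal.mem_map_C_iff, TWT.mem_cen, he, hφ]
    obtain ⟨Q, hQc, hQe⟩ := exists_polyL hOL P u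
    constructor
    · intro h i
      rw [TWT.mem_cen, ← hQc]
      exact coeff_vpos hg (by rw [hQe]; exact h) i
    · intro h
      rw [eval₂_eq_sum_range]
      have key : ∀ s : Finset ℕ,
          VPos v (∑ i ∈ s, O.subtype (P.coeff i) * u ^ i) := by
        intro s
        induction s using Finset.induction_on with
        | empty => rw [Finset.sum_empty]; exact fun h0 => absurd rfl h0
        | insert a s ha ih =>
          rw [Finset.sum_insert ha]
          exact (LU1.VPos.mul (TWT.mem_cen.1 (h a)) (adj_pow_ge hu a)).add ih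
      exact key _
  have h1 := TWT.dim_lv v O hO0
  rw [hlv] at h1
  rw [← hS, TWT.dim_lv v S hS0, h1, ← RingEquiv.height_comap e, hcomap, Polynomial.height_map_C]

end GU

end Pool.Agent.TW
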