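import Pool.Agent.Lib.TWG.GWT
import Pool.Agent.Lib.TWI.I2
import Pool.Agent.Lib.TWI.I3a

/-!
# TANK W, GWT, monomial form: motions of a toric refinement of the model

`gwt_mono`: the motion lives on the henselization of a model `R' = lv v k[A']` which is chosen after
the chart for `W`; `A'` is generated over `A` by Laurent monomials in fixed elements of `k[A]`.
-/

set_option autoImplicit false

namespace Pool.Agent.TW

open Pool.Agent.H15JM (RVal)
open Pool.Agent.LU1 (VPos)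
open Pool.Agent.LUC (LUs IsMod Par SM QuoIs lv adj IP le_lv mem_lv lv_mono lv_le lv_inv lv_nonneg
  lv_lv base_le_adj mem_adj)
open Pool.Agent.D2 (Ctx0)
open Pool.Agent.TWT (cm cm_apply cm_ge cm_vpos)
open Pool.Agent.TWI (LM)

universe u

/-- `a` is a Laurent monomial in the elements of `X`. -/
def MonX {Ω : Type u} [Field Ω] (X : Finset Ω) (a : Ω) : Prop :=
  ∃ e : Ω → ℤ, a = ∏ x ∈ X, x ^ e x

section

variable {Ω : Type u} [Field Ω]

theorem MonX.induction {X : Finset Ω} {p : Ω → Prop} (h1 : p 1)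
    (hmul : ∀ a b, p a → p b → p (a * b)) (hinv : ∀ a, p a → p a⁻¹) (hX : ∀ x ∈ X, p x) {a : Ω}
    (ha : MonX X a) : p a := by
  classical
  obtain ⟨e, rfl⟩ := ha
  have hpow : ∀ x, p x → ∀ n : ℕ, p (x ^ n) := by
    intro x hx n
    induction n with
    | zero => rw [pow_zero]; exact h1
    | succ n ih => rw [pow_succ]; exact hmul _ _ ih hx
  have hz : ∀ x, p x → ∀ n : ℤ, p (x ^ n) := by
    intro x hx n
    obtain ⟨n, rfl | rfl⟩ := n.eq_nat_or_neg
    · rw [zpow_natCast]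
      exact hpow x hx n
    · rw [zpow_neg, zpow_natCast]
      exact hinv _ (hpow x hx n)
  refine Finset.prod_induction _ p hmul h1 fun x hx => hz x (hX x hx) _

end

variable {k Ω : Type u} [Field k] [Field Ω] [Algebra k Ω] {v : RVal Ω}

/-- **GWT, monomial form.** -/
theorem gwt_mono [IsAlgClosed k] (h : Ctx0 k v) {E : IntermediateField k Ω}
    (A T : Finset Ω) (hA : ∀ a ∈ A, v.Ge 0 a)
    (hQ : QuoIs (adj (algebraMap k Ω).range (A : Set Ω)) E.toSubfield)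
    (hT : ∀ t ∈ T, t ∈ E ∧ t ≠ 0) (X : Finset Ω) (hXT : X ⊆ T)
    (hXA : ∀ x ∈ X, x ∈ adj (algebraMap k Ω).range (A : Set Ω))
    (W : RVal Ω) (hW : ∀ c : k, c ≠ 0 → W (algebraMap k Ω c) = 0)
    (hLU : LUs W (algebraMap k Ω).range E.toSubfield)
    (hmot : ∀ U : Finset Ω, (∀ f ∈ U, f ∈ E ∧ f ≠ 0) →
      ∃ (A' S' : Finset Ω) (φ : Ω ≃ₐ[k] Ω), A ⊆ A' ∧ (∀ a ∈ A', v.Ge 0 a) ∧
        (∀ a ∈ A', a ∈ A ∨ MonX X a) ∧
        (∀ s ∈ S', (s ∈ T ∨ MonX X s) ∧ 0 < v s ∧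
          s ∈ lv v (adj (algebraMap k Ω).range (A' : Set Ω))) ∧
        (∀ f ∈ lv v (adj (algebraMap k Ω).range (A' : Set Ω)), VPos v f →
          ∃ a : Ω → Ω, (∀ s, a s ∈ lv v (adj (algebraMap k Ω).range (A' : Set Ω))) ∧
            f = ∑ s ∈ S', a s * s) ∧
        Nor (lv v (adj (algebraMap k Ω).range (A' : Set Ω))) ∧
        (∀ f ∈ hensA v (lv v (adj (algebraMap k Ω).range (A' : Set Ω))),
          φ f ∈ hensA v (lv v (adj (algebraMap k Ω).range (A' : Set Ω)))) ∧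
        (∀ t ∈ T, ∃ m ∈ hensA v (lv v (adj (algebraMap k Ω).range (A' : Set Ω))),
          VPos v m ∧ φ t = t * (1 + m)) ∧
        ∀ f ∈ U, (0 < W f → 0 < v (φ f)) ∧ (W f = 0 → v (φ f) = 0)) :
    ∃ (n : ℕ) (z : Fin n → Ω) (J : Finset (Fin n)) (O : Subring Ω),
      IsMod v (algebraMap k Ω).range (A : Set Ω) (T : Set Ω) z J O ∧ ringKrullDim O = n := by
  classical
  have hAE : ∀ a ∈ A, a ∈ E := fun a ha => hQ.1 a (mem_adj ha)
  have hk0 : ∀ f ∈ (algebraMap k Ω).range, v.Ge 0 f := by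
    rintro _ ⟨c, rfl⟩
    exact h.ge c
  -- `W` is nonnegative on `A`
  have hWA : ∀ a ∈ A, W.Ge 0 a := by
    intro a ha h0
    by_contra hcon
    push Not at hcon
    obtain ⟨A', S', φ, hAA', hA'0, -, -, -, -, hφ, -, hU⟩ := hmot {a⁻¹} (by
      intro f hf
      rw [Finset.mem_singleton] at hf
      rw [hf]
      exact ⟨E.inv_mem (hAE a ha), inv_ne_zero h0⟩)
    have hR0 : ∀ f ∈ lv v (adj (algebraMap k Ω).range (A' : Set Ω)), v.Ge 0 f :=
      lv_nonneg (LUC.adj_nonneg hk0 hA'0)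
    have h1 := (hU a⁻¹ (Finset.mem_singleton_self _)).1 (by rw [W.map_inv h0]; linarith)
    have h2 := (hclosed_hensA hR0).nonneg _
      (hφ a (le_hensA _ (le_lv v _ (mem_adj (Finset.mem_coe.2 (hAA' ha)))))) (by simpa using h0)
    rw [map_inv₀, v.map_inv (by simpa using h0)] at h1
    linarith
  obtain ⟨n, z, J, O, hmod, hdim⟩ := hLU A hWA hQ T hT
  obtain ⟨g, G, Sc, hSc, -, -, -, hctl⟩ := TWT.exists_control W hW hWA hmod hdim
    (K := E.toSubfield) (fun c => E.algebraMap_mem c) hAE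
  obtain ⟨A', S', φ, hAA', hA'0, hA'X, hS', hgen, hN, hφ, hnear, hU⟩ :=
    hmot (Sc.filter fun f => f ≠ 0) (fun f hf =>
      ⟨hSc f (Finset.mem_filter.1 hf).1, (Finset.mem_filter.1 hf).2⟩)
  obtain ⟨R, hRdef⟩ : ∃ R : Subring Ω, R = lv v (adj (algebraMap k Ω).range (A' : Set Ω)) :=
    ⟨_, rfl⟩
  have hR0 : ∀ f ∈ R, v.Ge 0 f := by
    rw [hRdef]
    exact lv_nonneg (LUC.adj_nonneg hk0 hA'0)
  obtain ⟨B, hBdef⟩ : ∃ B : Subring Ω, B = hensA v R := ⟨_, rfl⟩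
  have hB : HClosed v B := by rw [hBdef]; exact hclosed_hensA hR0
  have hnear' : ∀ t ∈ T, ∃ m ∈ B, VPos v m ∧ φ t = t * (1 + m) := by
    rw [hBdef, hRdef]
    exact hnear
  -- the valuation `V`
  obtain ⟨V, hV⟩ : ∃ V : RVal Ω, V = cm v φ.toRingEquiv := ⟨_, rfl⟩
  have hVa : ∀ f, V f = v (φ f) := fun f => by rw [hV]; rfl
  have hVctx : Ctx0 k V := by
    rw [hV]
    exact TWI.ctx0_cm h fun c => φ.commutes c
  obtain ⟨m, x, -, -, -, hmodV, hdimV⟩ := hctl V hVctx.triv (fun f hf h0 => by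
    obtain ⟨h1, h2⟩ := hU f (Finset.mem_filter.2 ⟨hf, h0⟩)
    rw [hVa]
    exact ⟨h2, h1⟩)
  have hVA : ∀ a ∈ A, V.Ge 0 a := by
    intro a ha h0
    rw [hVa]
    refine hB.nonneg _ ?_ (by simpa using h0)
    rw [hBdef, hRdef]
    exact hφ a (le_hensA _ (le_lv v _ (mem_adj (Finset.mem_coe.2 (hAA' ha)))))
  -- the Laurent monomials
  obtain ⟨F, hF⟩ : ∃ F : Finset Ω, F = (A' ∪ S').filter fun t => MonX X t := ⟨_, rfl⟩
  have hFX : ∀ t ∈ F, MonX X t := fun t ht => by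
    rw [hF] at ht
    exact (Finset.mem_filter.1 ht).2
  have hFE : ∀ t ∈ F, t ∈ E ∧ t ≠ 0 := fun t ht =>
    (hFX t ht).induction (p := fun t => t ∈ E ∧ t ≠ 0) ⟨E.one_mem, one_ne_zero⟩
      (fun a b ha hb => ⟨E.mul_mem ha.1 hb.1, mul_ne_zero ha.2 hb.2⟩)
      (fun a ha => ⟨E.inv_mem ha.1, inv_ne_zero ha.2⟩) fun x hx => hT x (hXT hx)
  have hone : ∀ m ∈ B, VPos v m → (1 + m ≠ 0 ∧ v (1 + m) = 0) ∧ 1 + m ∈ B ∧ (1 + m)⁻¹ ∈ B := by
    intro m hm hmv
    have h1 : (1 : Ω) + m ∈ B := add_mem (one_mem _) hm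
    have h2 : ¬ VPos v (1 + m) := by
      intro hcon
      refine not_VPos_of_unit (v := v) one_ne_zero v.map_one ?_
      have e : (1 : Ω) = 1 + m - m := by ring
      rw [e]
      exact hcon.sub hmv
    have h3 := unit_of_not_VPos (hB.nonneg _ h1) h2
    exact ⟨h3, h1, hB.inv _ h1 h3.1 h3.2⟩
  have hnearF : ∀ t ∈ F, ∃ m ∈ B, VPos v m ∧ φ t = t * (1 + m) := fun t ht =>
    (hFX t ht).induction (p := fun t => ∃ m ∈ B, VPos v m ∧ φ t = t * (1 + m))
      ⟨0, B.zero_mem, LU1.VPos.zero, by rw [_root_.map_one]; ring⟩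
      (by
        rintro a b ⟨m, hm, hmv, ha⟩ ⟨m', hm', hmv', hb⟩
        refine ⟨m + m' + m * m', add_mem (add_mem hm hm') (mul_mem hm hm'),
          (hmv.add hmv').add (hmv.mul (hB.nonneg _ hm')), ?_⟩
        rw [_root_.map_mul, ha, hb]
        ring)
      (by
        rintro a ⟨m, hm, hmv, ha⟩
        obtain ⟨h1, h2, h3⟩ := hone m hm hmv
        refine ⟨-(m * (1 + m)⁻¹), neg_mem (mul_mem hm h3), (hmv.mul (hB.nonneg _ h3)).neg, ?_⟩
        have h4 := h1.1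
        rw [map_inv₀, ha, mul_inv]
        congr 1
        field_simp
        ring) fun x hx => hnear' x (hXT hx)
  have hVF : ∀ t ∈ F, V t = v t := by
    intro t ht
    obtain ⟨m, hm, hmv, e⟩ := hnearF t ht
    obtain ⟨h1, -, -⟩ := hone m hm hmv
    rw [hVa, e, v.map_mul (hFE t ht).2 h1.1, h1.2, add_zero]
  -- the refinement for `V`
  obtain ⟨O₁, hO₁⟩ : ∃ O₁ : Subring Ω, O₁ = lv V (adj (algebraMap k Ω).range
      ((A : Set Ω) ∪ (fun x => x / g) '' (G : Set Ω))) := ⟨_, rfl⟩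
  rw [← hO₁] at hmodV hdimV
  have hO₁i : ∀ f ∈ O₁, f ≠ 0 → V f = 0 → f⁻¹ ∈ O₁ := by rw [hO₁]; exact fun _ => lv_inv
  have hLM : ∀ t ∈ F, LM V O₁ (Fin.append z x) (J.map (Fin.castAddEmb m)) t := fun t ht =>
    (hFX t ht).induction (p := fun t => LM V O₁ (Fin.append z x) (J.map (Fin.castAddEmb m)) t)
      LM.one (fun a b ha hb => ha.mul hmodV.par.ne hb) (fun a ha => ha.inv hO₁i)
      fun x hx => LM.of_SM (hmodV.mono x (Finset.mem_coe.2 (hXT hx)))
  have hRef : TWI.Ref V (algebraMap k Ω).range := by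
    intro A T n z J O hA hA0 hM hdim M hMJ
    exact exists_refine hVctx hA hA0 hM hdim M hMJ
  obtain ⟨z₂, J₂, O₂, hO₁₂, hmod₂, hdim₂, -, hSMF⟩ := hRef.exists A.finite_toSet
    (fun a ha => hVA a ha) hmodV hdimV F hLM
  -- the chart for `V` over `A'`
  obtain ⟨g₂, hg₂, hg₂0, hg₂m, G₂, hG₂, hO₂⟩ := hmod₂.chart
  have hA'O₂ : ∀ a ∈ A', a ∈ O₂ := by
    intro a ha
    rcases hA'X a ha with h1 | h1
    · rw [hO₂]
      exact le_lv V _ (mem_adj (Or.inl h1))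
    · have haF : a ∈ F := by
        rw [hF]
        exact Finset.mem_filter.2 ⟨Finset.mem_union_left _ ha, h1⟩
      refine (hSMF a haF).mem hmod₂.par.mem ?_
      rw [hVF a haF]
      exact hA'0 a ha (hFE a haF).2
  have hmod₂' : IsMod V (algebraMap k Ω).range (A' : Set Ω) ((T ∪ F : Finset Ω) : Set Ω) z₂ J₂
      O₂ := by
    refine ⟨hmod₂.par, ⟨g₂, LUC.adj_mono le_rfl (Finset.coe_subset.2 hAA') hg₂, hg₂0, hg₂m, G₂,
      fun y hy => ⟨LUC.adj_mono le_rfl (Finset.coe_subset.2 hAA') (hG₂ y hy).1, (hG₂ y hy).2⟩, ?_⟩,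
      ?_⟩
    · conv_lhs => rw [hO₂]
      refine (LUC.lv_eq_of_le (LUC.adj_mono le_rfl
        (Set.union_subset_union_left _ (Finset.coe_subset.2 hAA'))) ?_).symm
      rw [← hO₂]
      refine LUC.adj_le ?_ ?_
      · rw [hO₂]
        exact (base_le_adj _ _).trans (le_lv V _)
      · rintro f (hf | hf)
        · exact hA'O₂ f hf
        · rw [hO₂]
          exact le_lv V _ (mem_adj (Or.inr hf))
    · intro t ht
      rw [Finset.mem_coe, Finset.mem_union] at ht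
      rcases ht with ht | ht
      · exact hmod₂.mono t (Finset.mem_coe.2 ht)
      · exact hSMF t ht
  -- the motion
  have hA'E : ∀ a ∈ A', a ∈ E := by
    intro a ha
    rcases hA'X a ha with h1 | h1
    · exact hAE a h1
    · exact (hFE a (by
        rw [hF]
        exact Finset.mem_filter.2 ⟨Finset.mem_union_left _ ha, h1⟩)).1
  rw [hV] at hmod₂'
  obtain ⟨n₃, z₃, J₃, O₃, hmod₃, hdim₃⟩ := chart_of_motion h A' (T ∪ F) hA'0
    (quoIs_of_le hQ (Finset.coe_subset.2 hAA') hA'E)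
    (fun t ht => by
      rcases Finset.mem_union.1 ht with ht | ht
      · exact hT t ht
      · exact hFE t ht)
    S' (fun s hs => by
      rcases (hS' s hs).1 with h1 | h1
      · exact Finset.mem_union_left _ h1
      · refine Finset.mem_union_right _ ?_
        rw [hF]
        exact Finset.mem_filter.2 ⟨Finset.mem_union_right _ hs, h1⟩)
    (fun s hs => (hS' s hs).2) hgen hN φ hφ
    (fun t ht => by
      rw [← hRdef, ← hBdef]
      rcases Finset.mem_union.1 ht with ht | ht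
      · exact hnear' t ht
      · exact hnearF t ht)
    hmod₂' hdim₂
  -- back to `A`
  obtain ⟨g₃, hg₃, hg₃0, hg₃m, G₃, hG₃, hO₃⟩ := hmod₃.chart
  have hset : ((A' : Set Ω) ∪ (fun x => x / g₃) '' (G₃ : Set Ω)) =
      ((A' ∪ G₃.image fun x => x / g₃ : Finset Ω) : Set Ω) := by
    rw [Finset.coe_union, Finset.coe_image]
  have hO₃i : ∀ f ∈ O₃, f ≠ 0 → v f = 0 → f⁻¹ ∈ O₃ := by rw [hO₃]; exact fun _ => lv_inv
  have hFR0 : ∀ f ∈ (A' ∪ G₃.image fun x => x / g₃ : Finset Ω), v.Ge 0 f := by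
    intro f hf
    rw [Finset.mem_union, Finset.mem_image] at hf
    rcases hf with hf | ⟨y, hy, rfl⟩
    · exact hA'0 f hf
    · intro hyg
      have hy0 : y ≠ 0 := by
        rintro rfl
        simp at hyg
      rw [v.map_div hy0 hg₃0]
      have := (hG₃ y hy).2 hy0
      linarith
  have hO₃0 : ∀ f ∈ O₃, v.Ge 0 f := by
    rw [hO₃, hset]
    exact lv_nonneg (LUC.adj_nonneg hk0 hFR0)
  have hA0 : ∀ a ∈ adj (algebraMap k Ω).range (A : Set Ω), v.Ge 0 a := LUC.adj_nonneg hk0 hA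
  have hA'le : adj (algebraMap k Ω).range (A' : Set Ω) ≤
      LUC.QM v O₃ z₃ J₃ hmod₃.par.ne (adj (algebraMap k Ω).range (A : Set Ω)) hA0 := by
    refine LUC.adj_le ((base_le_adj _ _).trans LUC.le_QM) ?_
    intro a ha
    rcases hA'X a ha with h1 | h1
    · exact LUC.le_QM (mem_adj h1)
    · have h2 : ∀ x ∈ X, x ∈ LUC.QM v O₃ z₃ J₃ hmod₃.par.ne
          (adj (algebraMap k Ω).range (A : Set Ω)) hA0 ∧ x⁻¹ ∈ LUC.QM v O₃ z₃ J₃ hmod₃.par.ne
          (adj (algebraMap k Ω).range (A : Set Ω)) hA0 := by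
        intro x hx
        refine ⟨LUC.le_QM (hXA x hx), 1, Subring.one_mem _, x, hXA x hx,
          hmod₃.mono x (by
            rw [Finset.mem_coe, Finset.mem_union]
            exact Or.inl (hXT hx)), by rw [one_div]⟩
      exact (h1.induction (p := fun t => t ∈ LUC.QM v O₃ z₃ J₃ hmod₃.par.ne
          (adj (algebraMap k Ω).range (A : Set Ω)) hA0 ∧ t⁻¹ ∈ LUC.QM v O₃ z₃ J₃ hmod₃.par.ne
          (adj (algebraMap k Ω).range (A : Set Ω)) hA0)
        ⟨Subring.one_mem _, by rw [inv_one]; exact Subring.one_mem _⟩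
        (fun a b ha hb => ⟨Subring.mul_mem _ ha.1 hb.1, by
          rw [mul_inv]
          exact Subring.mul_mem _ ha.2 hb.2⟩)
        (fun a ha => ⟨ha.2, by rw [inv_inv]; exact ha.1⟩) h2).1
  have hg₃v : 0 ≤ v g₃ := LUC.adj_nonneg hk0 hA'0 g₃ hg₃ hg₃0
  have hq : ∀ f ∈ (A' ∪ G₃.image fun x => x / g₃ : Finset Ω), f ∈ LUC.QM v O₃ z₃ J₃ hmod₃.par.ne
      (adj (algebraMap k Ω).range (A : Set Ω)) hA0 := by
    intro f hf
    rw [Finset.mem_union, Finset.mem_image] at hf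
    rcases hf with hf | ⟨y, hy, rfl⟩
    · exact hA'le (mem_adj hf)
    · rw [div_eq_mul_inv]
      exact Subring.mul_mem _ (hA'le (hG₃ y hy).1) (LUC.qm_inv hO₃i (hA'le hg₃) hg₃v hg₃m)
  have hchart := LUC.chart_of hO₃i hO₃0 A hA0 (fun a ha => by
      rw [hO₃]
      exact le_lv v _ (mem_adj (Or.inl (hAA' ha)))) (A' ∪ G₃.image fun x => x / g₃)
    (by rw [← hset]; exact hO₃) hq
  exact ⟨n₃, z₃, J₃, O₃, ⟨hmod₃.par, hchart, fun t ht => hmod₃.mono t (by
    rw [Finset.mem_coe, Finset.mem_union]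
    exact Or.inl ht)⟩, hdim₃⟩

end Pool.Agent.TW
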