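import Pool.Agent.Lib.TWG.G3
import Pool.Agent.Lib.TWG.G4
import Pool.Agent.Lib.TWQ.Defs

/-!
# TANK W, GWT: the W-trick for motions of a henselized model

`chart_of_motion`: a chart for `v ∘ φ`, `φ` an automorphism which preserves the henselization of `R`
and multiplies the elements of `T` by units of residue one, gives a chart for `v`.
-/

set_option autoImplicit false

namespace Pool.Agent.TW

open Pool.Agent.H15JM (RVal)
open Pool.Agent.LU1 (VPos)
open Pool.Agent.LUC (LUs IsMod Par SM QuoIs lv adj IP le_lv mem_lv lv_mono lv_le lv_inv lv_nonneg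
  lv_lv base_le_adj mem_adj)
open Pool.Agent.D2 (Ctx0)
open Pool.Agent.TWT (cm cm_apply cm_ge cm_vpos)

universe u

variable {k Ω : Type u} [Field k] [Field Ω] [Algebra k Ω] {v : RVal Ω}

theorem quoIs_of_le {R : Subring Ω} {A F : Set Ω} {L : Subfield Ω} (hQ : QuoIs (adj R A) L)
    (hAF : A ⊆ F) (hF : ∀ f ∈ F, f ∈ L) : QuoIs (adj R F) L := by
  refine ⟨fun f hf => ?_, fun f hf => ?_⟩
  · exact LUC.adj_le (B := L.toSubring) (fun x hx => hQ.1 x (base_le_adj R A hx)) hF hf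
  · obtain ⟨a, ha, b, hb, hb0, e⟩ := hQ.2 f hf
    exact ⟨a, LUC.adj_mono le_rfl hAF ha, b, LUC.adj_mono le_rfl hAF hb, hb0, e⟩

/-- The case in which `R` has no elements of positive value. -/
theorem chart_trivial (h : Ctx0 k v) {E : IntermediateField k Ω} (A T : Finset Ω)
    (hA : ∀ a ∈ A, v.Ge 0 a) (hQ : QuoIs (adj (algebraMap k Ω).range (A : Set Ω)) E.toSubfield)
    (hT : ∀ t ∈ T, t ∈ E ∧ t ≠ 0)
    (hgen : ∀ f ∈ lv v (adj (algebraMap k Ω).range (A : Set Ω)), VPos v f → f = 0) :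
    ∃ (n : ℕ) (z : Fin n → Ω) (J : Finset (Fin n)) (O : Subring Ω),
      IsMod v (algebraMap k Ω).range (A : Set Ω) (T : Set Ω) z J O ∧ ringKrullDim O = n := by
  obtain ⟨R, hRdef⟩ : ∃ R : Subring Ω, R = lv v (adj (algebraMap k Ω).range (A : Set Ω)) :=
    ⟨_, rfl⟩
  have hR0 : ∀ f ∈ R, v.Ge 0 f := by
    rw [hRdef]
    refine lv_nonneg (LUC.adj_nonneg ?_ hA)
    rintro _ ⟨c, rfl⟩
    exact h.ge c
  have hkR : ∀ c : k, algebraMap k Ω c ∈ R := fun c => by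
    rw [hRdef]
    exact le_lv v _ (base_le_adj _ _ ⟨c, rfl⟩)
  have hRi : ∀ f ∈ R, f ≠ 0 → v f = 0 → f⁻¹ ∈ R := by rw [hRdef]; exact fun _ => lv_inv
  have hconst : ∀ f ∈ R, ∃ c : k, f = algebraMap k Ω c := by
    intro f hf
    obtain ⟨c, hc⟩ := h.residue (hR0 f hf)
    have h1 := hgen (f - algebraMap k Ω c) (by
      rw [← hRdef]
      exact sub_mem hf (hkR c)) hc
    exact ⟨c, sub_eq_zero.1 h1⟩
  have hTk : ∀ t ∈ T, ∃ c : k, c ≠ 0 ∧ t = algebraMap k Ω c := by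
    intro t ht
    obtain ⟨hE, h0⟩ := hT t ht
    obtain ⟨a, ha, b, hb, hb0, e⟩ := hQ.2 t hE
    obtain ⟨c, hc⟩ := hconst a (by rw [hRdef]; exact le_lv v _ ha)
    obtain ⟨d, hd⟩ := hconst b (by rw [hRdef]; exact le_lv v _ hb)
    refine ⟨c / d, ?_, by rw [e, hc, hd, map_div₀]⟩
    rintro h1
    apply h0
    rw [e, hc, hd, ← map_div₀, h1, _root_.map_zero]
  refine ⟨0, Fin.elim0, ∅, R, ⟨⟨fun i => i.elim0, fun i => i.elim0, fun i => i.elim0, ?_⟩,
    ⟨1, one_mem _, one_ne_zero, SM.one, ∅, fun x hx => absurd hx (Finset.notMem_empty x), ?_⟩, ?_⟩,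
    ?_⟩
  · intro f hf hfv
    rw [hgen f (by rw [← hRdef]; exact hf) hfv]
    exact IP.zero
  · rw [hRdef, Finset.coe_empty, Set.image_empty, Set.union_empty]
  · intro t ht
    obtain ⟨c, hc, rfl⟩ := hTk t ht
    exact SM.of_unit (hkR c) (by simpa using hc) (h.triv c hc)
  · rw [Nat.cast_zero]
    refine ringKrullDim_eq_zero_of_isField ⟨⟨0, 1, zero_ne_one⟩, mul_comm, fun {a} ha => ?_⟩
    have ha0 : (a : Ω) ≠ 0 := fun h0 => ha (Subtype.ext h0)
    have hav : ¬ VPos v (a : Ω) := fun hcon => ha0 (hgen a (by rw [← hRdef]; exact a.2) hcon)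
    obtain ⟨-, hv0⟩ := unit_of_not_VPos (hR0 _ a.2) hav
    exact ⟨⟨(a : Ω)⁻¹, hRi a a.2 ha0 hv0⟩, Subtype.ext (mul_inv_cancel₀ ha0)⟩

/-- **A chart for `v ∘ φ` gives a chart for `v`.** -/
theorem chart_of_motion (h : Ctx0 k v) {E : IntermediateField k Ω} (A T : Finset Ω)
    (hA : ∀ a ∈ A, v.Ge 0 a) (hQ : QuoIs (adj (algebraMap k Ω).range (A : Set Ω)) E.toSubfield)
    (hT : ∀ t ∈ T, t ∈ E ∧ t ≠ 0) (S : Finset Ω) (hST : S ⊆ T)
    (hS : ∀ s ∈ S, 0 < v s ∧ s ∈ lv v (adj (algebraMap k Ω).range (A : Set Ω)))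
    (hgen : ∀ f ∈ lv v (adj (algebraMap k Ω).range (A : Set Ω)), VPos v f →
      ∃ a : Ω → Ω, (∀ s, a s ∈ lv v (adj (algebraMap k Ω).range (A : Set Ω))) ∧
        f = ∑ s ∈ S, a s * s)
    (hN : Nor (lv v (adj (algebraMap k Ω).range (A : Set Ω)))) (φ : Ω ≃ₐ[k] Ω)
    (hφ : ∀ f ∈ hensA v (lv v (adj (algebraMap k Ω).range (A : Set Ω))),
      φ f ∈ hensA v (lv v (adj (algebraMap k Ω).range (A : Set Ω))))
    (hnear : ∀ t ∈ T, ∃ m ∈ hensA v (lv v (adj (algebraMap k Ω).range (A : Set Ω))),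
      VPos v m ∧ φ t = t * (1 + m))
    {n : ℕ} {z : Fin n → Ω} {J : Finset (Fin n)} {O : Subring Ω}
    (hmod : IsMod (cm v φ.toRingEquiv) (algebraMap k Ω).range (A : Set Ω) (T : Set Ω) z J O)
    (hdim : ringKrullDim O = n) :
    ∃ (n : ℕ) (z : Fin n → Ω) (J : Finset (Fin n)) (O : Subring Ω),
      IsMod v (algebraMap k Ω).range (A : Set Ω) (T : Set Ω) z J O ∧ ringKrullDim O = n := by
  classical
  by_cases hS0 : S = ∅
  · refine chart_trivial h A T hA hQ hT fun f hf hfv => ?_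
    obtain ⟨a, -, e⟩ := hgen f hf hfv
    rw [e, hS0, Finset.sum_empty]
  obtain ⟨R₀, hR₀⟩ : ∃ R₀ : Subring Ω, R₀ = adj (algebraMap k Ω).range (A : Set Ω) := ⟨_, rfl⟩
  obtain ⟨R, hRdef⟩ : ∃ R : Subring Ω, R = lv v R₀ := ⟨_, rfl⟩
  rw [← hR₀, ← hRdef] at hS hgen hN hφ hnear
  rw [← hR₀] at hQ
  obtain ⟨B, hBdef⟩ : ∃ B : Subring Ω, B = hensA v R := ⟨_, rfl⟩
  have hR₀0 : ∀ f ∈ R₀, v.Ge 0 f := by
    rw [hR₀]
    refine LUC.adj_nonneg ?_ hA
    rintro _ ⟨c, rfl⟩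
    exact h.ge c
  have hR0 : ∀ f ∈ R, v.Ge 0 f := by rw [hRdef]; exact lv_nonneg hR₀0
  have hR₀R : R₀ ≤ R := by rw [hRdef]; exact le_lv v _
  have hkR₀ : ∀ c : k, algebraMap k Ω c ∈ R₀ := fun c => by
    rw [hR₀]
    exact base_le_adj _ _ ⟨c, rfl⟩
  have hkR : ∀ c : k, algebraMap k Ω c ∈ R := fun c => hR₀R (hkR₀ c)
  have hB : HClosed v B := by rw [hBdef]; exact hclosed_hensA hR0
  have hRB : R ≤ B := by rw [hBdef]; exact le_hensA R
  rw [← hBdef] at hφ hnear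
  -- the valuation `V`
  obtain ⟨V, hV⟩ : ∃ V : RVal Ω, V = cm v φ.toRingEquiv := ⟨_, rfl⟩
  have hVa : ∀ f, V f = v (φ f) := fun f => by rw [hV]; rfl
  have hVge : ∀ (c : ℝ) (f : Ω), V.Ge c f ↔ v.Ge c (φ f) := fun c f => by rw [hV]; exact cm_ge
  have hVpos : ∀ f : Ω, VPos V f ↔ VPos v (φ f) := fun f => by rw [hV]; exact cm_vpos
  rw [← hV] at hmod
  have hφk : ∀ c : k, φ (algebraMap k Ω c) = algebraMap k Ω c := fun c => φ.commutes c
  -- units of `R`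
  have hunit : ∀ f ∈ R, f ≠ 0 → v f = 0 → V f = 0 := by
    intro f hf h0 hv
    have h1 : f⁻¹ ∈ R := by
      rw [hRdef] at hf ⊢
      exact lv_inv hf h0 hv
    have h2 := hB.nonneg _ (hφ f (hRB hf)) (by simpa using h0)
    have h3 := hB.nonneg _ (hφ _ (hRB h1)) (by simpa using h0)
    rw [map_inv₀, v.map_inv (by simpa using h0)] at h3
    rw [hVa]
    linarith
  -- the chart for `V`
  obtain ⟨g, hg, hg0, hgm, G, hG, hO⟩ := hmod.chart
  rw [← hR₀] at hg hG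
  have hVA : ∀ a ∈ A, V.Ge 0 a := by
    intro a ha
    rw [hVge]
    exact hB.nonneg _ (hφ a (hRB (hR₀R (by rw [hR₀]; exact mem_adj ha))))
  have hFset : ((A : Set Ω) ∪ (fun x => x / g) '' (G : Set Ω)) =
      ((A ∪ G.image fun x => x / g : Finset Ω) : Set Ω) := by
    rw [Finset.coe_union, Finset.coe_image]
  obtain ⟨F, hF⟩ : ∃ F : Finset Ω, F = A ∪ G.image fun x => x / g := ⟨_, rfl⟩
  rw [← hF] at hFset
  rw [hFset] at hO
  have hFV : ∀ f ∈ F, V.Ge 0 f := by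
    intro f hf
    rw [hF, Finset.mem_union, Finset.mem_image] at hf
    rcases hf with hf | ⟨x, hx, rfl⟩
    · exact hVA f hf
    · intro hxg
      have hx0 : x ≠ 0 := by
        rintro rfl
        simp at hxg
      rw [V.map_div hx0 hg0]
      have := (hG x hx).2 hx0
      linarith
  have hAdjV : ∀ f ∈ adj (algebraMap k Ω).range (F : Set Ω), V.Ge 0 f := by
    refine LUC.adj_nonneg ?_ hFV
    rintro _ ⟨c, rfl⟩
    rw [hVge, hφk]
    exact h.ge c
  have hOV : ∀ f ∈ O, V.Ge 0 f := by rw [hO]; exact lv_nonneg hAdjV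
  have hOi : ∀ f ∈ O, f ≠ 0 → V f = 0 → f⁻¹ ∈ O := by rw [hO]; exact fun _ => lv_inv
  have hR₀O : R₀ ≤ O := by
    rw [hO, hR₀]
    refine le_trans (LUC.adj_mono le_rfl ?_) (le_lv V _)
    intro a ha
    rw [hF]
    exact Finset.mem_union_left _ ha
  have hRO : R ≤ O := by
    rw [hRdef]
    rintro f ⟨a, ha, b, hb, hb0, hbv, rfl⟩
    rw [div_eq_mul_inv]
    exact O.mul_mem (hR₀O ha) (hOi b (hR₀O hb) hb0 (hunit b (hR₀R hb) hb0 hbv))
  -- the generators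
  obtain ⟨q, hq⟩ : ∃ q : ℕ, q = S.card := ⟨_, rfl⟩
  obtain ⟨e⟩ : Nonempty (Fin q ≃ S) := ⟨(finCongr hq).trans S.equivFin.symm⟩
  obtain ⟨s, hs⟩ : ∃ s : Fin q → Ω, ∀ i, s i = (e i : Ω) := ⟨_, fun _ => rfl⟩
  have hsS : ∀ i, s i ∈ S := fun i => by rw [hs]; exact (e i).2
  have hsR : ∀ i, s i ∈ R := fun i => (hS _ (hsS i)).2
  have hs0 : ∀ i, s i ≠ 0 := fun i => (hT _ (hST (hsS i))).2
  have hsv : ∀ i, VPos v (s i) := fun i _ => (hS _ (hsS i)).1
  have hgen' : ∀ f ∈ R, VPos v f → IP R s 1 f := by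
    intro f hf hfv
    obtain ⟨a, ha, hfa⟩ := hgen f hf hfv
    refine (IP.one_iff hsR).2 ⟨fun i => a (s i), fun i => ha _, ?_⟩
    rw [hfa, ← Finset.sum_coe_sort S fun x => a x * x, ← e.sum_comp]
    exact Finset.sum_congr rfl fun i _ => by simp only [hs]
  choose μ hμ hμv hμs using fun i => hnear (s i) (hST (hsS i))
  -- `1 + m`
  have hone : ∀ m ∈ B, VPos v m → (1 + m ≠ 0 ∧ v (1 + m) = 0) ∧ 1 + m ∈ B ∧ (1 + m)⁻¹ ∈ B := by
    intro m hm hmv
    have h1 : (1 : Ω) + m ∈ B := add_mem (one_mem _) hm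
    have h2 : ¬ VPos v (1 + m) := by
      intro hcon
      refine not_VPos_of_unit (v := v) one_ne_zero v.map_one ?_
      have e : (1 : Ω) = 1 + m - m := by ring
      rw [e]
      exact hcon.sub hmv
    have h3 := unit_of_not_VPos (hB.nonneg _ h1) h2
    exact ⟨h3, h1, hB.inv _ h1 h3.1 h3.2⟩
  -- denominators
  obtain ⟨b, hb, hb0, hbv, hbs⟩ := lv_den (v := v) (B := R₀) Finset.univ s fun i _ => by
    rw [← hRdef]
    exact hsR i
  obtain ⟨s₀, hs₀⟩ : ∃ s₀ : Fin q → Ω, ∀ i, s₀ i = b * s i := ⟨_, fun _ => rfl⟩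
  have hs₀R : ∀ i, s₀ i ∈ R₀ := fun i => by rw [hs₀]; exact hbs i (Finset.mem_univ i)
  have hbV : V b = 0 := hunit b (hR₀R hb) hb0 hbv
  have hVs : ∀ i, V (s i) = v (s i) := by
    intro i
    rw [hVa, hμs i, v.map_mul (hs0 i) (hone _ (hμ i) (hμv i)).1.1, (hone _ (hμ i) (hμv i)).1.2,
      add_zero]
  have hVs₀ : ∀ i, 0 < V (s i) := fun i => by rw [hVs i]; exact (hS _ (hsS i)).1
  have hSMs : ∀ i, SM V O z J (s i) := fun i => hmod.mono _ (hST (hsS i))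
  have hzO := hmod.par.mem
  have hz0 := hmod.par.ne
  -- the product of the parameters
  obtain ⟨P, hP⟩ : ∃ P : Ω, P = ∏ j ∈ J, z j := ⟨_, rfl⟩
  have hdvd : ∀ i, ∃ a ∈ O, s i = P * a := by
    intro i
    obtain ⟨a, ha, h1⟩ := (hSMs i).dvd hzO hz0 (hVs₀ i)
    exact ⟨a, ha, by rw [hP]; exact h1⟩
  choose σ hσ hsσ using hdvd
  have hgV : 0 ≤ V g := hOV g (hR₀O hg) hg0
  obtain ⟨M, ρ, hρ, hPM⟩ := hgm.dvd_pow hOi hzO hz0 hgV
  rw [← hP] at hPM
  -- the blown up ideal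
  obtain ⟨Y, hY⟩ : ∃ Y : Finset Ω, Y = insert g (G ∪ Finset.univ.image
      fun τ : Fin M → Fin q => ∏ i, s₀ (τ i)) := ⟨_, rfl⟩
  have hgY : g ∈ Y := by rw [hY]; exact Finset.mem_insert_self _ _
  have hYR₀ : ∀ y ∈ Y, y ∈ R₀ := by
    intro y hy
    rw [hY, Finset.mem_insert, Finset.mem_union, Finset.mem_image] at hy
    rcases hy with rfl | hy | ⟨τ, -, rfl⟩
    · exact hg
    · exact (hG y hy).1
    · exact R₀.prod_mem fun i _ => hs₀R _
  have hYO : ∀ y ∈ Y, y / g ∈ O := by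
    intro y hy
    rw [hY, Finset.mem_insert, Finset.mem_union, Finset.mem_image] at hy
    rcases hy with rfl | hy | ⟨τ, -, rfl⟩
    · rw [div_self hg0]
      exact O.one_mem
    · rw [hO]
      refine le_lv V _ (mem_adj ?_)
      rw [hF, Finset.mem_coe, Finset.mem_union]
      exact Or.inr (Finset.mem_image_of_mem _ hy)
    · have e1 : ∏ i, s₀ (τ i) = g * (ρ * ∏ i, b * σ (τ i)) := by
        have e2 : ∀ i, s₀ (τ i) = P * (b * σ (τ i)) := by
          intro i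
          rw [hs₀, hsσ]
          ring
        rw [Finset.prod_congr rfl fun i _ => e2 i, Finset.prod_mul_distrib, Finset.prod_const,
          Finset.card_univ, Fintype.card_fin, hPM]
        ring
      rw [e1, mul_div_cancel_left₀ _ hg0]
      exact O.mul_mem hρ (O.prod_mem fun i _ => O.mul_mem (hR₀O hb) (hσ _))
  -- the image of the chart
  obtain ⟨O₁, hO₁⟩ : ∃ O₁ : Subring Ω, O₁ = O.map (φ.toRingEquiv : Ω →+* Ω) := ⟨_, rfl⟩
  have hmemO₁ : ∀ f, f ∈ O → φ f ∈ O₁ := fun f hf => by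
    rw [hO₁]
    exact ⟨f, hf, rfl⟩
  have hkmap : (algebraMap k Ω).range.map (φ.toRingEquiv : Ω →+* Ω) = (algebraMap k Ω).range := by
    ext f
    constructor
    · rintro ⟨_, ⟨c, rfl⟩, rfl⟩
      exact ⟨c, (hφk c).symm⟩
    · rintro ⟨c, rfl⟩
      exact ⟨_, ⟨c, rfl⟩, hφk c⟩
  have hO₁lv : O₁ = lv v (adj (algebraMap k Ω).range (φ.toRingEquiv '' (F : Set Ω))) := by
    rw [hO₁, hO, hV, TWT.lv_map, TWT.adj_map, hkmap]
  obtain ⟨y, hy⟩ : ∃ y : Y → Ω, ∀ i, y i = φ (i : Ω) := ⟨_, fun _ => rfl⟩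
  obtain ⟨i₀, hi₀⟩ : ∃ i₀ : Y, (i₀ : Ω) = g := ⟨⟨g, hgY⟩, rfl⟩
  have hy₀ : y i₀ = φ g := by rw [hy, hi₀]
  have hyO₁ : ∀ i, y i / y i₀ ∈ O₁ := by
    intro i
    rw [hy₀, hy, ← map_div₀]
    exact hmemO₁ _ (hYO _ i.2)
  have hO₁0 : ∀ f ∈ O₁, v.Ge 0 f := by
    intro f hf
    rw [hO₁] at hf
    obtain ⟨x, hx, rfl⟩ := hf
    exact (hVge 0 x).1 (hOV x hx)
  have hφg0 : φ g ≠ 0 := by simpa using hg0
  obtain ⟨Oh, hOh⟩ : ∃ Oh : Subring Ω, Oh = lv v (adj B (Set.range fun i => y i / y i₀)) :=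
    ⟨_, rfl⟩
  have hBOh : B ≤ Oh := by
    rw [hOh]
    exact (base_le_adj _ _).trans (le_lv v _)
  have hO₁Oh : O₁ ≤ Oh := by
    rw [hO₁lv, hOh]
    refine lv_mono (LUC.adj_le ?_ ?_)
    · rintro _ ⟨c, rfl⟩
      exact base_le_adj _ _ (hRB (hkR c))
    · rintro _ ⟨f, hf, rfl⟩
      rw [hF, Finset.mem_coe, Finset.mem_union, Finset.mem_image] at hf
      rcases hf with hf | ⟨x, hx, rfl⟩
      · exact base_le_adj _ _ (hφ f (hRB (hR₀R (by rw [hR₀]; exact mem_adj hf))))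
      · refine mem_adj ⟨⟨x, ?_⟩, ?_⟩
        · rw [hY, Finset.mem_insert, Finset.mem_union]
          exact Or.inr (Or.inl hx)
        · change y _ / y i₀ = φ (x / g)
          rw [hy₀, hy, map_div₀]
  have hparO₁ : Par v O₁ (fun i => φ (z i)) := by
    rw [hO₁]
    have := hmod.par
    rw [hV] at this
    exact TWT.par_map this
  have hSMmap : ∀ t, SM V O z J t → SM v Oh (fun i => φ (z i)) J (φ t) := by
    intro t ht
    rw [hV] at ht
    have h1 := TWT.sm_map ht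
    rw [← hO₁] at h1
    exact h1.mono_ring hO₁Oh
  have hJ : J.Nonempty := by
    obtain ⟨t, ht⟩ := Finset.nonempty_iff_ne_empty.2 hS0
    have hi := e.symm ⟨t, ht⟩
    exact (hSMs hi).nonempty hz0 (hVs₀ hi)
  obtain ⟨x, w, hxR, hx0, hxv, hxge, hpar, hSM, hSMg⟩ := chart_descent h hR0 hN hkR hsR hsv hgen'
    (y := y) (i₀ := i₀) (M := M) (O := Oh) (O₁ := O₁) (z := fun i => φ (z i)) (J := J)
    (fun i => by rw [← hBdef, hy]; exact hφ _ (hRB (hR₀R (hYR₀ _ i.2))))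
    (by rw [hy₀]; exact hφg0)
    (fun i hi => by
      have h1 := hO₁0 _ (hyO₁ i) (div_ne_zero hi (by rw [hy₀]; exact hφg0))
      rw [v.map_div hi (by rw [hy₀]; exact hφg0)] at h1
      linarith)
    (by
      rw [← hBdef]
      intro f hf
      obtain ⟨c, hc, rfl⟩ := (IP.sum_iff fun i => hRB (hsR i)).1 hf
      refine sum_mem fun τ _ => ?_
      have hν : ∀ i, ∃ ν ∈ B, s i = ν * φ (s₀ i) := by
        intro i
        have h1 := hone _ (hμ i) (hμv i)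
        have hφb0 : φ b ≠ 0 := by simpa using hb0
        have h2 : (φ b)⁻¹ ∈ B := hB.inv _ (hφ b (hRB (hR₀R hb))) hφb0 (by
          rw [← hVa]
          exact hbV)
        refine ⟨(φ b)⁻¹ * (1 + μ i)⁻¹, mul_mem h2 h1.2.2, ?_⟩
        rw [hs₀, _root_.map_mul, hμs i]
        have h3 := h1.1.1
        field_simp
      choose ν hν hsν using hν
      have e1 : c τ * ∏ i, s (τ i) =
          (⟨c τ * ∏ i, ν (τ i), mul_mem (hc τ) (B.prod_mem fun i _ => hν _)⟩ : B) •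
            φ (∏ i, s₀ (τ i)) := by
        rw [Finset.prod_congr rfl fun i _ => hsν (τ i), Finset.prod_mul_distrib, Algebra.smul_def,
          _root_.map_prod]
        change _ = c τ * (∏ i, ν (τ i)) * _
        ring
      rw [e1]
      refine Submodule.smul_mem _ _ (Submodule.subset_span ⟨⟨∏ i, s₀ (τ i), ?_⟩, ?_⟩)
      · rw [hY, Finset.mem_insert, Finset.mem_union]
        exact Or.inr (Or.inr (Finset.mem_image_of_mem _ (Finset.mem_univ τ)))
      · rw [hy])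
    (by rw [← hBdef]; exact hOh) hO₁Oh
    (by rw [hO₁lv]; exact fun _ => lv_inv)
    (fun c => by
      rw [← hφk c]
      exact hmemO₁ _ (hR₀O (hkR₀ c)))
    hyO₁ hparO₁ hJ
    (fun i => by
      have h1 := hone _ (hμ i) (hμv i)
      refine ⟨φ (σ i) * (1 + μ i)⁻¹, mul_mem (hO₁Oh (hmemO₁ _ (hσ i))) (hBOh h1.2.2), ?_⟩
      have h2 := hμs i
      rw [hsσ i, _root_.map_mul, hP, _root_.map_prod, ← hP, ← hsσ i] at h2
      have h3 := h1.1.1
      rw [← mul_assoc, h2]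
      field_simp)
  -- denominators
  obtain ⟨β, hβ, hβ0, hβv, hβx⟩ := lv_den (v := v) (B := R₀) Finset.univ x fun i _ => by
    rw [← hRdef]
    exact hxR i
  obtain ⟨O₂, hO₂⟩ : ∃ O₂ : Subring Ω, O₂ = lv v (adj R (Set.range fun i => x i / x i₀)) :=
    ⟨_, rfl⟩
  rw [← hO₂] at hpar hSM hSMg
  have hRO₂ : R ≤ O₂ := by
    rw [hO₂]
    exact (base_le_adj _ _).trans (le_lv v _)
  have hset : (fun f => f / (β * x i₀)) '' ((Finset.univ.image fun i => β * x i : Finset Ω) : Set Ω)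
      = Set.range fun i => x i / x i₀ := by
    ext f
    constructor
    · rintro ⟨_, hf, rfl⟩
      rw [Finset.mem_coe, Finset.mem_image] at hf
      obtain ⟨i, -, rfl⟩ := hf
      refine ⟨i, ?_⟩
      change x i / x i₀ = β * x i / (β * x i₀)
      rw [mul_div_mul_left _ _ hβ0]
    · rintro ⟨i, rfl⟩
      refine ⟨β * x i, Finset.mem_coe.2 (Finset.mem_image_of_mem _ (Finset.mem_univ i)), ?_⟩
      change β * x i / (β * x i₀) = x i / x i₀
      rw [mul_div_mul_left _ _ hβ0]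
  have hO₂eq : O₂ = lv v (adj (algebraMap k Ω).range ((A : Set Ω) ∪
      (fun f => f / (β * x i₀)) '' ((Finset.univ.image fun i => β * x i : Finset Ω) : Set Ω))) := by
    rw [hset, ← LUC.adj_adj, ← hR₀, hO₂, hRdef, LUC.lv_adj_lv]
  have hxE : ∀ i, x i ∈ E := by
    intro i
    have h1 := hxR i
    rw [hRdef] at h1
    obtain ⟨a, ha, c, hc, -, -, e1⟩ := h1
    rw [e1]
    exact E.div_mem (hQ.1 a ha) (hQ.1 c hc)
  have hrangeE : ∀ f ∈ Set.range (fun i => x i / x i₀), f ∈ E.toSubfield := by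
    rintro _ ⟨i, rfl⟩
    exact E.div_mem (hxE i) (hxE i₀)
  have hAE : ∀ a ∈ A, a ∈ E := fun a ha => hQ.1 a (by rw [hR₀]; exact mem_adj ha)
  -- the dimension
  have hdim₂ : ringKrullDim O₂ = n := by
    obtain ⟨m₁, hm₁, hd₁⟩ := dim_eq_trdeg (v := V) ⟨fun c hc => by rw [hVa, hφk]; exact h.triv c hc,
        fun f hf hf0 => by
          rw [hVa] at hf0
          obtain ⟨c, hc, h1⟩ := h.res (φ f) (by simpa using hf) hf0
          refine ⟨c, hc, ?_⟩
          rw [hVpos, _root_.map_sub, hφk]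
          exact h1⟩ F hFV (E := E) (by
      rw [hR₀] at hQ
      refine quoIs_of_le hQ (fun a ha => by rw [hF]; exact Finset.mem_union_left _ ha)
        fun f hf => ?_
      rw [hF, Finset.mem_coe, Finset.mem_union, Finset.mem_image] at hf
      rcases hf with hf | ⟨p, hp, rfl⟩
      · exact hAE f hf
      · exact E.div_mem (hQ.1 p (by rw [← hR₀]; exact (hG p hp).1))
          (hQ.1 g (by rw [← hR₀]; exact hg)))
    have hset₂ : ((A : Set Ω) ∪ Set.range fun i => x i / x i₀) =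
        ((A ∪ Finset.univ.image fun i => x i / x i₀ : Finset Ω) : Set Ω) := by
      rw [Finset.coe_union, Finset.coe_image, Finset.coe_univ, Set.image_univ]
    obtain ⟨m₂, hm₂, hd₂⟩ := dim_eq_trdeg h (A ∪ Finset.univ.image fun i => x i / x i₀) (by
      intro f hf
      rw [Finset.mem_union, Finset.mem_image] at hf
      rcases hf with hf | ⟨i, -, rfl⟩
      · exact hA f hf
      · intro hxi
        have hx1 : x i ≠ 0 := by
          intro h0
          exact hxi (by rw [h0, zero_div])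
        rw [v.map_div hx1 hx0]
        have := hxge i hx1
        linarith) (E := E) (by
      rw [hR₀] at hQ
      rw [← hset₂]
      refine quoIs_of_le hQ Set.subset_union_left ?_
      rintro f (hf | hf)
      · exact hAE f hf
      · exact hrangeE f hf)
    rw [← hset₂, ← LUC.adj_adj, ← hR₀, ← LUC.lv_adj_lv, ← hRdef, ← hO₂] at hd₂
    rw [← hO, hdim] at hd₁
    rw [hm₁] at hm₂
    have h1 : m₁ = m₂ := by exact_mod_cast hm₂
    have h2 : n = m₁ := by exact_mod_cast hd₁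
    rw [hd₂, ← h1, ← h2]
  refine ⟨n, w, J, O₂, ⟨hpar, ⟨β * x i₀, ?_, mul_ne_zero hβ0 hx0, ?_,
    Finset.univ.image fun i => β * x i, ?_, hO₂eq⟩, ?_⟩, hdim₂⟩
  · rw [← hR₀]
    exact hβx i₀ (Finset.mem_univ _)
  · rw [mul_comm]
    exact (hSMg (by rw [hy₀]; exact hSMmap g hgm)).mul_unit hpar.ne (hRO₂ (hR₀R hβ)) hβ0 hβv
  · intro f hf
    obtain ⟨i, -, rfl⟩ := Finset.mem_image.1 hf
    refine ⟨by rw [← hR₀]; exact hβx i (Finset.mem_univ _), fun hf0 => ?_⟩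
    have hx1 : x i ≠ 0 := right_ne_zero_of_mul hf0
    rw [v.map_mul hβ0 hx1, v.map_mul hβ0 hx0, hβv, zero_add, zero_add]
    exact hxge i hx1
  · intro t ht
    have ht' : t ∈ T := ht
    obtain ⟨m, hm, hmv, e1⟩ := hnear t ht'
    have h1 := hone m hm hmv
    refine hSM t ?_ ?_
    · obtain ⟨a, ha, c, hc, hc0, e2⟩ := hQ.2 t (hT t ht').1
      exact ⟨a, hR₀R ha, c, hR₀R hc, hc0, e2⟩
    · have h2 := hSMmap t (hmod.mono t ht)
      have h3 := h2.mul_unit hparO₁.ne (hBOh h1.2.2) (inv_ne_zero h1.1.1) (by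
        rw [v.map_inv h1.1.1, h1.1.2, neg_zero])
      rwa [e1, mul_assoc, mul_inv_cancel₀ h1.1.1, mul_one] at h3

/-- **GWT.**  `R = lv v k[A]` is normal; for almost all `c ∈ k` the automorphism `Φ c` preserves the
henselization of `R` and multiplies the elements of `T` by units of residue one; `v ∘ Φ c` is
eventually `W`.  If `E` is log uniformizable for `W`, there is a chart for `v` over `A` and `T`. -/
theorem gwt [IsAlgClosed k] (h : Ctx0 k v) {E : IntermediateField k Ω}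
    (A T : Finset Ω) (hA : ∀ a ∈ A, v.Ge 0 a)
    (hQ : QuoIs (adj (algebraMap k Ω).range (A : Set Ω)) E.toSubfield)
    (hT : ∀ t ∈ T, t ∈ E ∧ t ≠ 0)
    (S : Finset Ω) (hST : S ⊆ T)
    (hS : ∀ s ∈ S, 0 < v s ∧ s ∈ lv v (adj (algebraMap k Ω).range (A : Set Ω)))
    (hgen : ∀ f ∈ lv v (adj (algebraMap k Ω).range (A : Set Ω)), VPos v f →
      ∃ a : Ω → Ω, (∀ s, a s ∈ lv v (adj (algebraMap k Ω).range (A : Set Ω))) ∧
        f = ∑ s ∈ S, a s * s)
    (hN : Nor (lv v (adj (algebraMap k Ω).range (A : Set Ω))))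
    (W : RVal Ω) (hW : ∀ c : k, c ≠ 0 → W (algebraMap k Ω c) = 0) (Φ : k → (Ω ≃ₐ[k] Ω))
    (hev : ∀ f ∈ E, f ≠ 0 → {c : k | v (Φ c f) ≠ W f}.Finite)
    (hH : {c : k | ¬ ∀ f ∈ hensA v (lv v (adj (algebraMap k Ω).range (A : Set Ω))),
      Φ c f ∈ hensA v (lv v (adj (algebraMap k Ω).range (A : Set Ω)))}.Finite)
    (hnear : {c : k | ¬ ∀ t ∈ T, ∃ m ∈ hensA v (lv v (adj (algebraMap k Ω).range (A : Set Ω))),
      VPos v m ∧ Φ c t = t * (1 + m)}.Finite)
    (hLU : LUs W (algebraMap k Ω).range E.toSubfield) :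
    ∃ (n : ℕ) (z : Fin n → Ω) (J : Finset (Fin n)) (O : Subring Ω),
      IsMod v (algebraMap k Ω).range (A : Set Ω) (T : Set Ω) z J O ∧ ringKrullDim O = n := by
  classical
  have hinf : Infinite k := inferInstance
  have hAE : ∀ a ∈ A, a ∈ E := fun a ha => hQ.1 a (mem_adj ha)
  have hR0 : ∀ f ∈ lv v (adj (algebraMap k Ω).range (A : Set Ω)), v.Ge 0 f := by
    refine lv_nonneg (LUC.adj_nonneg ?_ hA)
    rintro _ ⟨c, rfl⟩
    exact h.ge c
  have hWA : ∀ a ∈ A, W.Ge 0 a := by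
    intro a ha h0
    obtain ⟨c, hc⟩ := ((hev a (hAE a ha) h0).union hH).exists_notMem
    rw [Set.mem_union, not_or, Set.mem_ofPred_eq, Set.mem_ofPred_eq, not_not, not_not] at hc
    rw [← hc.1]
    exact (hclosed_hensA hR0).nonneg _ (hc.2 a (le_hensA _ (le_lv v _ (mem_adj ha))))
      (by simpa using h0)
  obtain ⟨n, z, J, O, hmod, hdim⟩ := hLU A hWA hQ T hT
  obtain ⟨g, G, Sc, hSc, -, -, -, hctl⟩ := TWT.exists_control W hW hWA hmod hdim
    (K := E.toSubfield) (fun c => E.algebraMap_mem c) hAE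
  have hfin : (⋃ f ∈ (Sc.filter fun f => f ≠ 0 : Finset Ω), {c : k | v (Φ c f) ≠ W f}).Finite :=
    Set.Finite.biUnion (Finset.finite_toSet _) fun f hf =>
      hev f (hSc f (Finset.mem_filter.1 (Finset.mem_coe.1 hf)).1)
        (Finset.mem_filter.1 (Finset.mem_coe.1 hf)).2
  obtain ⟨c, hc⟩ := ((hfin.union hH).union hnear).exists_notMem
  rw [Set.mem_union, not_or, Set.mem_union, not_or] at hc
  obtain ⟨⟨hc1, hc2⟩, hc3⟩ := hc
  rw [Set.mem_ofPred_eq, not_not] at hc2 hc3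
  have hc1' : ∀ f ∈ Sc, f ≠ 0 → v (Φ c f) = W f := by
    intro f hf h0
    by_contra hcon
    exact hc1 (Set.mem_biUnion (Finset.mem_coe.2 (Finset.mem_filter.2 ⟨hf, h0⟩)) hcon)
  obtain ⟨m, x, -, -, -, hmod', hdim'⟩ := hctl (cm v (Φ c).toRingEquiv)
    (fun a ha => by
      change v (Φ c (algebraMap k Ω a)) = 0
      rw [(Φ c).commutes]
      exact h.triv a ha)
    (fun f hf h0 => by
      have h1 : cm v (Φ c).toRingEquiv f = W f := hc1' f hf h0
      rw [h1]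
      exact ⟨id, id⟩)
  exact chart_of_motion h A T hA hQ hT S hST hS hgen hN (Φ c) hc2 hc3 hmod' hdim'

end Pool.Agent.TW
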