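import Pool.Agent.Lib.TWH.H1
import Pool.Agent.Lib.TWT.SP2
import Pool.Agent.Lib.TWM.Bridge
import Pool.Agent.Lib.TWQ.QXa

/-!
# TANK W: the weak motion lemma

`E` is a finitely generated field with a valuation `W` for which it is log uniformizable. If `W` is
approximated on every finite set by the valuations `v ∘ φ`, `φ : Ω → Ω'` with `hen v (φ E) = hen v K`,
then `HRone v K`: a chart of `E` for `W` is a chart for `v ∘ φ`, so `φ E` is in the henselization of
`k(z)`. Neither nearness to the identity nor isometry is used.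
-/

set_option autoImplicit false

open Polynomial

namespace Pool.Agent.TW

open Pool.Agent.H15JM (RVal)
open Pool.Agent.LU1 (VPos adj)
open Pool.Agent.LUC (Cl clF lv le_lv lv_nonneg IP QuoIs Par LUs SM IsMod)
open Pool.Agent.D2 (Ctx0)
open Pool.Agent.D2P (hen)
open Pool.Agent.TW.QX (pullE pullE_apply pullE_ge)

universe u

section

variable {k Ω : Type u} [Field k] [Field Ω] [Algebra k Ω] {v : RVal Ω} {r : ℕ}

/-- The end of the proof of `hrone_of_lus`: coordinates with spanning values, of number `> r`. -/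
theorem hrone_of_coords (h : Ctx k v r) {E : IntermediateField k Ω} {N : ℕ} (hN : r < N)
    {z : Fin N → Ω} (hzi : AlgebraicIndependent k z) (hhen : hen v E = hen v (kr k z))
    (hspan : ∀ g : Ω, g ≠ 0 → v g ∈ Submodule.span ℚ (Set.range fun i => v (z i))) :
    HRone v E := by
  classical
  obtain ⟨N, rfl⟩ : ∃ m, N = m + 1 := ⟨N - 1, by omega⟩
  obtain ⟨x, hx, hxi, hxs⟩ := h.rank
  have hdep : ¬ LinearIndependent ℚ fun i => v (z i) := by
    intro hli
    have h1 := finrank_span_eq_card hli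
    have h2 := finrank_span_eq_card hxi
    have h3 : Submodule.span ℚ (Set.range fun i => v (z i)) =
        Submodule.span ℚ (Set.range fun i => v (x i)) := by
      apply le_antisymm
      · rw [Submodule.span_le]
        rintro _ ⟨i, rfl⟩
        exact hxs _ (hzi.ne_zero i)
      · rw [Submodule.span_le]
        rintro _ ⟨i, rfl⟩
        exact hspan _ (hx i)
    rw [h3, h2, Fintype.card_fin, Fintype.card_fin] at h1
    omega
  rw [linearIndependent_iff_notMem_span] at hdep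
  push Not at hdep
  obtain ⟨j, hj⟩ := hdep
  have hrange : Submodule.span ℚ (Set.range fun i => v (z i)) ≤
      Submodule.span ℚ (Set.range fun i => v ((z ∘ j.succAbove) i)) := by
    have h1 : (fun i => v (z i)) '' (Set.univ \ {j}) ⊆
        Set.range fun i => v ((z ∘ j.succAbove) i) := by
      rintro _ ⟨i, hi, rfl⟩
      obtain ⟨l, rfl⟩ := Fin.exists_succAbove_eq (show i ≠ j from hi.2)
      exact ⟨l, rfl⟩
    rw [Submodule.span_le]
    rintro _ ⟨i, rfl⟩
    rcases eq_or_ne i j with rfl | hij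
    · exact Submodule.span_mono h1 hj
    · exact Submodule.subset_span (h1 ⟨i, ⟨Set.mem_univ _, hij⟩, rfl⟩)
  refine ⟨kr k (z ∘ j.succAbove), z j,
    IntermediateField.fg_adjoin_of_finite (Set.finite_range _), ?_, H1.transc_succAbove hzi j, ?_⟩
  · exact full_of_span (x := z ∘ j.succAbove)
      (fun i => ⟨IntermediateField.subset_adjoin _ _ ⟨i, rfl⟩, hzi.ne_zero _⟩)
      fun g hg => hrange (hspan g hg)
  · rw [hhen, ← H1.kr_succAbove]

/-- The coordinates of a chart. -/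
theorem hen_of_isMod [IsAlgClosed Ω] [IsAlgClosed k] (h : Ctx0 k v) {E : IntermediateField k Ω}
    (hE : E.FG) {N : ℕ} (htr : Algebra.trdeg k E = N) {A T : Finset Ω} (hA : ∀ a ∈ A, v.Ge 0 a)
    (hQ : QuoIs (LUC.adj (algebraMap k Ω).range (A : Set Ω)) E.toSubfield) {n : ℕ}
    {z : Fin n → Ω} {J : Finset (Fin n)} {O : Subring Ω}
    (hM : IsMod v (algebraMap k Ω).range (A : Set Ω) (T : Set Ω) z J O)
    (hdim : ringKrullDim O = n) :
    n = N ∧ AlgebraicIndependent k z ∧ hen v E = hen v (kr k z) := by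
  classical
  obtain ⟨g, hg, hg0, -, G, hG, hO⟩ := hM.chart
  set F : Finset Ω := A ∪ G.image (fun x => x / g) with hFdef
  have hFcoe : (F : Set Ω) = (A : Set Ω) ∪ (fun x => x / g) '' (G : Set Ω) := by
    rw [hFdef, Finset.coe_union, Finset.coe_image]
  have hF : ∀ f ∈ F, v.Ge 0 f := by
    intro f hf
    rcases Finset.mem_union.1 hf with hf | hf
    · exact hA f hf
    · obtain ⟨y, hy, rfl⟩ := Finset.mem_image.1 hf
      intro h0
      have hy0 : y ≠ 0 := by
        rintro rfl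
        exact h0 (zero_div _)
      rw [v.map_div hy0 hg0]
      have := (hG y hy).2 hy0
      linarith
  have hQF : QuoIs (LUC.adj (algebraMap k Ω).range (F : Set Ω)) E.toSubfield := by
    have hFE : ∀ f ∈ (F : Set Ω), f ∈ E.toSubfield := by
      intro f hf
      rcases Finset.mem_union.1 (Finset.mem_coe.1 hf) with hf | hf
      · exact hQ.1 f (LUC.mem_adj hf)
      · obtain ⟨y, hy, rfl⟩ := Finset.mem_image.1 hf
        exact div_mem (hQ.1 y (hG y hy).1) (hQ.1 g hg)
    refine ⟨fun f hf => ?_, fun f hf => ?_⟩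
    · exact LUC.adj_le (B := E.toSubfield.toSubring)
        (fun x hx => hQ.1 x (LUC.base_le_adj _ _ hx)) hFE hf
    · obtain ⟨a, ha, b, hb, hb0, e⟩ := hQ.2 f hf
      have hle : LUC.adj (algebraMap k Ω).range (A : Set Ω) ≤
          LUC.adj (algebraMap k Ω).range (F : Set Ω) := LUC.adj_mono le_rfl (by
        rw [hFcoe]
        exact Set.subset_union_left)
      exact ⟨a, hle ha, b, hle hb, hb0, e⟩
  have hO' : O = lv v (LUC.adj (algebraMap k Ω).range (F : Set Ω)) := by rw [hO, hFcoe]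
  obtain ⟨m, hm, hm'⟩ := dim_eq_trdeg h F hF hQF
  have hn : n = N := by
    rw [← hO', hdim] at hm'
    have h1 : n = m := by exact_mod_cast hm'
    rw [htr] at hm
    have h2 : N = m := by exact_mod_cast hm
    omega
  subst hn
  have hpar := hM.par
  rw [hO'] at hpar
  obtain ⟨hzi, hhen⟩ := hen_of_chart h hE htr F hF hQF hpar
  exact ⟨rfl, hzi, hhen⟩

end

section

variable {k Ω Ω' : Type u} [Field k] [Field Ω] [Algebra k Ω] [Field Ω'] [Algebra k Ω']
  {v : RVal Ω'} {r : ℕ}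

/-- The henselization of the image. -/
theorem hen_map_pull [IsAlgClosed Ω] (φ : Ω →ₐ[k] Ω') (E : IntermediateField k Ω) :
    hen v (E.map φ) = (hen (pullE v (φ : Ω →+* Ω')) E).map φ := by
  have hcl : ∀ a : Ω, φ a ∈ Cl v (E.map φ).toSubfield ↔
      a ∈ Cl (pullE v (φ : Ω →+* Ω')) E.toSubfield := by
    intro a
    constructor
    · intro ha c
      obtain ⟨_, ⟨b, hb, rfl⟩, h1⟩ := ha c
      refine ⟨b, hb, ?_⟩
      rw [pullE_ge, map_sub]
      exact h1
    · intro ha c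
      obtain ⟨b, hb, h1⟩ := ha c
      refine ⟨φ b, ⟨b, hb, rfl⟩, ?_⟩
      rw [pullE_ge, map_sub] at h1
      exact h1
  refine le_antisymm ?_ ?_
  · intro x hx
    obtain ⟨h1, h2⟩ := D2P.mem_hen.1 hx
    obtain ⟨a, rfl⟩ := TWM.Dense.exists_of_isAlgebraic h2.isIntegral.isAlgebraic
    exact ⟨a, D2P.mem_hen.2 ⟨(hcl a).1 h1, TWM.Dense.isSeparable_iff.1 h2⟩, rfl⟩
  · rintro _ ⟨a, ha, rfl⟩
    obtain ⟨h1, h2⟩ := D2P.mem_hen.1 ha
    exact D2P.mem_hen.2 ⟨(hcl a).2 h1, TWM.Dense.isSeparable_iff.2 h2⟩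

/-- The restriction along an embedding has residue field `k`. -/
theorem ctx0_pull (h : Ctx0 k v) (φ : Ω →ₐ[k] Ω') : Ctx0 k (pullE v (φ : Ω →+* Ω')) where
  triv c hc := by
    rw [pullE_apply, RingHom.coe_coe, φ.commutes]
    exact h.triv c hc
  res g hg hg0 := by
    obtain ⟨c, hc, h1⟩ := h.res (φ g) ((map_ne_zero_iff _ φ.injective).2 hg) hg0
    refine ⟨c, hc, fun h2 => ?_⟩
    rw [pullE_apply, RingHom.coe_coe, map_sub, φ.commutes]
    refine h1 fun h3 => h2 ?_
    rw [← φ.commutes, ← map_sub] at h3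
    exact (map_eq_zero_iff φ φ.injective).1 h3

/-- The field generated by the images. -/
theorem kr_map (φ : Ω →ₐ[k] Ω') {n : ℕ} (z : Fin n → Ω) :
    (kr k z).map φ = kr k (fun i => φ (z i)) := by
  rw [kr, IntermediateField.adjoin_map, ← Set.range_comp]
  rfl

/-- **The weak motion lemma.** `E` is log uniformizable for `W`, and the valuations `v ∘ φ` of
embeddings `φ` with `hen v (φ E) = hen v K` approximate `W` on every finite set; the values of
`φ T` span. -/
theorem hrone_of_motions [IsAlgClosed k] [IsAlgClosed Ω] (h : Ctx k v r) {D : ℕ}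
    {E : IntermediateField k Ω} (hE : E.FG) (htr : Algebra.trdeg k E = (r + (D + 1) : ℕ))
    {K : IntermediateField k Ω'} (W : RVal Ω) (hW : ∀ c : k, c ≠ 0 → W (algebraMap k Ω c) = 0)
    (hLU : LUs W (algebraMap k Ω).range E.toSubfield) (T : Finset Ω) (hT : ∀ t ∈ T, t ∈ E ∧ t ≠ 0)
    (hmot : ∀ U : Finset Ω, (∀ f ∈ U, f ∈ E ∧ f ≠ 0) → ∃ φ : Ω →ₐ[k] Ω',
      hen v (E.map φ) = hen v K ∧
      (∀ f ∈ U, (W f = 0 → v (φ f) = 0) ∧ (0 < W f → 0 < v (φ f))) ∧
      ∀ g : Ω', g ≠ 0 → v g ∈ Submodule.span ℚ ((fun t => v (φ t)) '' (T : Set Ω))) :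
    HRone v K := by
  classical
  obtain ⟨A, hA, hQ⟩ := H1.exists_quo W hE
  obtain ⟨n, z, J, O, hmod, hdim⟩ := hLU A hA hQ T hT
  have hAE : ∀ a ∈ A, a ∈ E := fun a ha => hQ.1 a (LUC.mem_adj ha)
  obtain ⟨g, G, Sc, hSc, -, -, -, hctl⟩ := TWT.exists_control W hW hA hmod hdim
    (K := E.toSubfield) (fun c => E.algebraMap_mem c) hAE
  obtain ⟨φ, hφ, hU, hspan⟩ := hmot ((Sc ∪ A).filter fun f => f ≠ 0) (fun f hf => by
    obtain ⟨h1, h2⟩ := Finset.mem_filter.1 hf
    rcases Finset.mem_union.1 h1 with h3 | h3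
    · exact ⟨hSc f h3, h2⟩
    · exact ⟨hAE f h3, h2⟩)
  obtain ⟨V, hV⟩ : ∃ V : RVal Ω, V = pullE v (φ : Ω →+* Ω') := ⟨_, rfl⟩
  have hVa : ∀ f, V f = v (φ f) := fun f => by rw [hV]; rfl
  have hV0 : Ctx0 k V := by rw [hV]; exact ctx0_pull h.toCtx0 φ
  obtain ⟨m, x, -, -, -, hmod', hdim'⟩ := hctl V hV0.triv (fun f hf h0 => by
    rw [hVa]
    exact hU f (Finset.mem_filter.2 ⟨Finset.mem_union_left _ hf, h0⟩))
  have hA' : ∀ a ∈ A, V.Ge 0 a := by
    intro a ha h0
    have h1 := hU a (Finset.mem_filter.2 ⟨Finset.mem_union_right _ ha, h0⟩)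
    rw [hVa]
    rcases (hA a ha h0).lt_or_eq with h2 | h2
    · exact (h1.2 h2).le
    · exact (h1.1 h2.symm).ge
  obtain ⟨hn, hzi, hhen⟩ := hen_of_isMod hV0 hE htr hA' hQ hmod' hdim'
  -- the images of the parameters
  obtain ⟨y, hy⟩ : ∃ y : Fin (n + m) → Ω, y = Fin.append z x := ⟨_, rfl⟩
  rw [← hy] at hmod' hzi hhen
  have hyi : AlgebraicIndependent k fun i => φ (y i) := hzi.map' φ.injective
  have hhen' : hen v K = hen v (kr k fun i => φ (y i)) := by
    rw [← hφ, hen_map_pull, ← hV, hhen, hV, ← hen_map_pull, kr_map]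
  have hspan' : ∀ g : Ω', g ≠ 0 → v g ∈ Submodule.span ℚ (Set.range fun i => v (φ (y i))) := by
    intro g hg
    refine Submodule.span_le.2 ?_ (hspan g hg)
    rintro _ ⟨t, ht, rfl⟩
    obtain ⟨e, u, hu, hu0, hvu, hte, -⟩ := hmod'.mono t ht
    have h1 : v (φ t) = ∑ j, (e j : ℚ) • v (φ (y j)) := by
      rw [← hVa, hte, V.map_mul (Finset.prod_ne_zero_iff.2 fun j _ =>
        zpow_ne_zero _ (hmod'.par.ne j)) hu0, hvu, add_zero,
        V.map_prod _ _ fun j _ => zpow_ne_zero _ (hmod'.par.ne j)]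
      refine Finset.sum_congr rfl fun j _ => ?_
      rw [V.map_zpow (hmod'.par.ne j), Rat.smul_def, hVa]
      push_cast
      rfl
    show v (φ t) ∈ _
    rw [h1]
    exact Submodule.sum_mem _ fun j _ => Submodule.smul_mem _ _ (Submodule.subset_span ⟨j, rfl⟩)
  exact hrone_of_coords h (by omega) hyi hhen' hspan'

/-- The weak motion lemma for valuations of rational rank one. -/
theorem hrone_of_motions_one [IsAlgClosed k] [IsAlgClosed Ω] (h : Ctx k v 1) {D : ℕ}
    {E : IntermediateField k Ω} (hE : E.FG) (htr : Algebra.trdeg k E = (1 + (D + 1) : ℕ))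
    {K : IntermediateField k Ω'} (W : RVal Ω) (hW : ∀ c : k, c ≠ 0 → W (algebraMap k Ω c) = 0)
    (hLU : LUs W (algebraMap k Ω).range E.toSubfield) {t : Ω} (ht : t ∈ E) (htne : t ≠ 0)
    (ht0 : 0 < W t)
    (hmot : ∀ U : Finset Ω, (∀ f ∈ U, f ∈ E ∧ f ≠ 0) → ∃ φ : Ω →ₐ[k] Ω',
      hen v (E.map φ) = hen v K ∧
      ∀ f ∈ U, (W f = 0 → v (φ f) = 0) ∧ (0 < W f → 0 < v (φ f))) :
    HRone v K := by
  classical
  refine hrone_of_motions h hE htr W hW hLU {t} (fun s hs => ?_) fun U hU => ?_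
  · rw [Finset.mem_singleton] at hs
    rw [hs]
    exact ⟨ht, htne⟩
  · obtain ⟨φ, h1, h2⟩ := hmot (insert t U) (fun f hf => by
      rcases Finset.mem_insert.1 hf with rfl | hf
      · exact ⟨ht, htne⟩
      · exact hU f hf)
    refine ⟨φ, h1, fun f hf => h2 f (Finset.mem_insert_of_mem hf), fun g hg => ?_⟩
    have h3 : 0 < v (φ t) := (h2 t (Finset.mem_insert_self _ _)).2 ht0
    rw [Finset.coe_singleton, Set.image_singleton]
    obtain ⟨X, hX, hXi, hXs⟩ := h.rank
    have h4 : ∀ g : Ω', g ≠ 0 → v g ∈ Submodule.span ℚ {v (X 0)} := by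
      intro g hg
      have h5 := hXs g hg
      rwa [Set.range_unique] at h5
    obtain ⟨a, ha⟩ := Submodule.mem_span_singleton.1
      (h4 (φ t) ((map_ne_zero_iff _ φ.injective).2 htne))
    obtain ⟨b, hb⟩ := Submodule.mem_span_singleton.1 (h4 g hg)
    have ha0 : a ≠ 0 := by
      rintro rfl
      rw [zero_smul] at ha
      exact h3.ne ha
    refine Submodule.mem_span_singleton.2 ⟨b / a, ?_⟩
    rw [← hb, ← ha, smul_smul, div_mul_cancel₀ _ ha0]

end

end Pool.Agent.TW
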